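import Pool.Agent.Q132.PC.ComNorm

/-!
A unimodular matrix with the spectral data of a Pisot matrix is an irreducible Pisot matrix.
-/

set_option autoImplicit false

namespace Pool.Agent.Q132.PC
open Pool.Agent.H812R2.PI Pool.Agent.TH100.Pisot
open Filter Topology Polynomial
open scoped BigOperators
variable {d : ℕ}

theorem act_mat_add (B C : Matrix (Fin d) (Fin d) ℤ) (x : Fin d → ℝ) :
    act (B + C) x = act B x + act C x := by
  funext i
  simp [act, add_mul, Finset.sum_add_distrib]

theorem act_mat_smul (a : ℤ) (B : Matrix (Fin d) (Fin d) ℤ) (x : Fin d → ℝ) :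
    act (a • B) x = fun i => (a : ℝ) * act B x i := by
  funext i
  simp [act, mul_assoc, Finset.mul_sum]

theorem poly_u {A : Matrix (Fin d) (Fin d) ℤ} (P : PD A) (h : ℤ[X]) :
    act (aeval A h) P.u = fun i => (aeval P.lam h : ℝ) * P.u i := by
  induction h using Polynomial.induction_on' with
  | add p q hp hq =>
    rw [map_add, act_mat_add, hp, hq, map_add]
    funext i
    simp only [Pi.add_apply]
    ring
  | monomial n a =>
    have h1 := FOff_act_pow_u P n 1
    simp only [one_mul] at h1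
    rw [aeval_monomial, aeval_monomial, ← Algebra.smul_def, act_mat_smul, h1]
    funext i
    simp only [algebraMap_int_eq, eq_intCast]
    ring

theorem poly_zero {A : Matrix (Fin d) (Fin d) ℤ} (P : PD A) (h : ℤ[X])
    (h0 : (aeval P.lam h : ℝ) = 0) : aeval A h = 0 := by
  have h1 := poly_u P h
  rw [h0] at h1
  ext i j
  have h2 := P.u_ind (fun j => (aeval A h) i j) (by
    have h3 := congrFun h1 i
    simp only [act, zero_mul] at h3
    exact h3)
  exact congrFun h2 j

/-- vectors grow in the direction `u` -/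
theorem no_orth {A : Matrix (Fin d) (Fin d) ℤ} (P : PD A) (e : Fin d → ℤ) (he : 0 < P.ht e)
    (t : Fin d → ℤ) (h : ∀ n : ℕ, ∑ i, t i * (A ^ n).mulVec e i = 0) : t = 0 := by
  have hne := SRec_nonempty P
  have hL : 0 < ∑ i, P.ell i * P.u i :=
    Finset.sum_pos (fun i _ => mul_pos (P.ell_pos i) (P.u_pos i)) Finset.univ_nonempty
  apply P.u_ind
  obtain ⟨s, hs⟩ : ∃ s : ℝ, s = ∑ i, (t i : ℝ) * P.u i := ⟨_, rfl⟩
  rw [← hs]
  -- the total size of `A^n e`
  obtain ⟨n₀, hn₀⟩ := GGeom_sum P hne.some e 1 one_pos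
  obtain ⟨n₁, hn₁⟩ := GGeom_rho P (P.c * P.N (rv e)) 1 one_pos
  have key : ∀ n ≥ max n₀ n₁, ((∑ i, P.ell i * P.u i)⁻¹ * P.lam ^ n * P.ht e - 1) * |s| ≤
      ∑ i, |(t i : ℝ)| := by
    intro n hn
    have h1 := hn₀ n (le_trans (le_max_left _ _) hn)
    obtain ⟨T, hT⟩ : ∃ T : ℝ, T = ∑ i, (((A ^ n).mulVec e i : ℤ) : ℝ) := ⟨_, rfl⟩
    rw [← hT, abs_le] at h1
    have h2 : T * s = - ∑ i, (t i : ℝ) * ((((A ^ n).mulVec e i : ℤ) : ℝ) - T * P.u i) := by
      have h3 : ∑ i, (t i : ℝ) * (((A ^ n).mulVec e i : ℤ) : ℝ) = 0 := by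
        exact_mod_cast h n
      simp only [mul_sub, Finset.sum_sub_distrib]
      rw [h3, hs, Finset.mul_sum]
      simp only [zero_sub, neg_neg]
      exact Finset.sum_congr rfl fun i _ => by ring
    have h4 : |T * s| ≤ ∑ i, |(t i : ℝ)| := by
      rw [h2, abs_neg]
      refine (Finset.abs_sum_le_sum_abs _ _).trans ?_
      apply Finset.sum_le_sum
      intro i _
      rw [abs_mul]
      have h5 := GGeom_pr P e n i
      rw [← hT] at h5
      have h6 := hn₁ n (le_trans (le_max_right _ _) hn)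
      calc |(t i : ℝ)| * _ ≤ |(t i : ℝ)| * 1 :=
            mul_le_mul_of_nonneg_left (h5.trans h6) (abs_nonneg _)
        _ = _ := mul_one _
    rw [abs_mul] at h4
    have h7 : (∑ i, P.ell i * P.u i)⁻¹ * P.lam ^ n * P.ht e - 1 ≤ |T| := by
      have := le_abs_self T
      linarith [h1.1]
    exact (mul_le_mul_of_nonneg_right h7 (abs_nonneg _)).trans h4
  by_contra hcon
  have hs0 : 0 < |s| := abs_pos.2 hcon
  have hlim : Tendsto (fun n : ℕ => (∑ i, P.ell i * P.u i)⁻¹ * P.ht e * P.lam ^ n) atTop atTop :=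
    (tendsto_pow_atTop_atTop_of_one_lt P.lam_gt).const_mul_atTop (mul_pos (inv_pos.2 hL) he)
  obtain ⟨n, hn1, hn2⟩ := ((hlim.eventually_gt_atTop ((∑ i, |(t i : ℝ)|) / |s| + 1)).and
    (eventually_ge_atTop (max n₀ n₁))).exists
  have h8 := key n hn2
  have h9 : (∑ i, |(t i : ℝ)|) / |s| < (∑ i, P.ell i * P.u i)⁻¹ * P.lam ^ n * P.ht e - 1 := by
    have : (∑ i, P.ell i * P.u i)⁻¹ * P.lam ^ n * P.ht e =
        (∑ i, P.ell i * P.u i)⁻¹ * P.ht e * P.lam ^ n := by ring
    rw [this]
    linarith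
  rw [div_lt_iff₀ hs0] at h9
  linarith

/-- the degree of the leading eigenvalue is at least `d` -/
theorem deg_ge {A : Matrix (Fin d) (Fin d) ℤ} (P : PD A) (h : ℤ[X]) (hm : h.Monic)
    (h0 : (aeval P.lam h : ℝ) = 0) : d ≤ h.natDegree := by
  by_contra hcon
  push Not at hcon
  have hA := poly_zero P h h0
  have hk : 0 < h.natDegree := by
    rcases Nat.eq_zero_or_pos h.natDegree with hz | hz
    · exfalso
      rw [hm.natDegree_eq_zero.1 hz] at h0
      simp at h0
    · exact hz
  have hne := SRec_nonempty P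
  obtain ⟨e, he⟩ : ∃ e : Fin d → ℤ, e = ev hne.some := ⟨_, rfl⟩
  have hht : 0 < P.ht e := by
    rw [he, ht_ev]; exact P.ell_pos _
  obtain ⟨t, ht0, ht, -⟩ := Int.Matrix.exists_ne_zero_int_vec_norm_le
    (Matrix.of fun (j : Fin h.natDegree) (i : Fin d) => (A ^ (j : ℕ)).mulVec e i)
    (by simpa using hcon) (by simpa using hk)
  apply ht0
  have h1 : ∀ j < h.natDegree, ∑ i, t i * (A ^ j).mulVec e i = 0 := by
    intro j hj
    have h2 := congrFun ht ⟨j, hj⟩
    simp only [Matrix.mulVec, dotProduct, Matrix.of_apply, Pi.zero_apply] at h2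
    simp only [Matrix.mulVec, dotProduct]
    rw [← h2]
    exact Finset.sum_congr rfl fun i _ => by ring
  refine no_orth P e hht t fun n => ?_
  have h3 : A ^ n = ∑ i ∈ Finset.range h.natDegree, ((Polynomial.X ^ n %ₘ h).coeff i) • A ^ i := by
    have h4 : aeval A (Polynomial.X ^ n %ₘ h) = A ^ n := by
      rw [aeval_modByMonic_eq_self_of_root hA]
      simp
    rw [← h4, aeval_eq_sum_range' (n := h.natDegree)]
    exact natDegree_modByMonic_lt _ hm (by rintro rfl; simp at hk)
  rw [h3, Matrix.sum_mulVec]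
  simp only [Finset.sum_apply, Matrix.smul_mulVec, Pi.smul_apply, smul_eq_mul, Finset.mul_sum]
  rw [Finset.sum_comm]
  apply Finset.sum_eq_zero
  intro j hj
  have h5 := h1 j (Finset.mem_range.1 hj)
  calc ∑ i, t i * ((Polynomial.X ^ n %ₘ h).coeff j * (A ^ j).mulVec e i) =
      (Polynomial.X ^ n %ₘ h).coeff j * ∑ i, t i * (A ^ j).mulVec e i := by
        rw [Finset.mul_sum]
        exact Finset.sum_congr rfl fun i _ => by ring
    _ = 0 := by rw [h5, mul_zero]

/-- the other eigenvalues -/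
theorem other_lt {A : Matrix (Fin d) (Fin d) ℤ} (P : PD A) (μ : ℂ)
    (hμ : (A.map (Int.cast : ℤ → ℂ)).charpoly.IsRoot μ) (hne : μ ≠ (P.lam : ℂ)) : ‖μ‖ < 1 := by
  have h2 : ((Matrix.scalar (Fin d)) μ - A.map (Int.cast : ℤ → ℂ)).det = 0 := by
    rw [← Matrix.eval_charpoly]; exact hμ
  obtain ⟨x, hx0, hx⟩ := Matrix.exists_mulVec_eq_zero_iff.mpr h2
  have hx1 : ∀ i, ∑ j, ((A i j : ℤ) : ℂ) * x j = μ * x i := by
    intro i
    have h3 := congrFun hx i
    rw [Matrix.sub_mulVec, Pi.sub_apply, Pi.zero_apply, sub_eq_zero] at h3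
    have h4 : (Matrix.scalar (Fin d) μ).mulVec x i = μ * x i := by
      simp [Matrix.mulVec, dotProduct, Matrix.diagonal_apply]
    rw [h4] at h3
    rw [h3]
    rfl
  -- real and imaginary parts of the iterates
  have hit : ∀ n : ℕ, act (A ^ n) (fun i => (x i).re) = (fun i => (μ ^ n * x i).re) ∧
      act (A ^ n) (fun i => (x i).im) = (fun i => (μ ^ n * x i).im) := by
    intro n
    induction n with
    | zero => simp [FOff_act_one]
    | succ n ih =>
      have e1 : ∀ y : Fin d → ℂ, act A (fun i => (y i).re) =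
          fun i => (∑ j, ((A i j : ℤ) : ℂ) * y j).re := by
        intro y
        funext i
        simp [act, Complex.re_sum]
      have e2 : ∀ y : Fin d → ℂ, act A (fun i => (y i).im) =
          fun i => (∑ j, ((A i j : ℤ) : ℂ) * y j).im := by
        intro y
        funext i
        simp [act, Complex.im_sum]
      have e3 : ∀ i, ∑ j, ((A i j : ℤ) : ℂ) * (μ ^ n * x j) = μ ^ (n + 1) * x i := by
        intro i
        calc ∑ j, ((A i j : ℤ) : ℂ) * (μ ^ n * x j) = μ ^ n * ∑ j, ((A i j : ℤ) : ℂ) * x j := by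
              rw [Finset.mul_sum]
              exact Finset.sum_congr rfl fun j _ => by ring
          _ = _ := by rw [hx1]; ring
      constructor
      · rw [pow_succ', FOff_act_mul, ih.1, e1 (fun i => μ ^ n * x i)]
        funext i
        rw [e3]
      · rw [pow_succ', FOff_act_mul, ih.2, e2 (fun i => μ ^ n * x i)]
        funext i
        rw [e3]
  obtain ⟨y, hy⟩ : ∃ y : Fin d → ℂ, ∀ i, y i = x i - (∑ j, x j) * (P.u i : ℂ) := ⟨_, fun i => rfl⟩
  have hyne : ∃ i, y i ≠ 0 := by
    by_contra hcon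
    push Not at hcon
    have h5 : ∀ i, x i = (∑ j, x j) * (P.u i : ℂ) := by
      intro i
      have := hcon i
      rw [hy] at this
      exact sub_eq_zero.1 this
    obtain ⟨S, hS⟩ : ∃ S : ℂ, S = ∑ j, x j := ⟨_, rfl⟩
    rw [← hS] at h5
    obtain ⟨i, hi⟩ := Function.ne_iff.1 hx0
    have h6 := hx1 i
    have h7 : ∑ j, ((A i j : ℤ) : ℂ) * x j = (P.lam : ℂ) * x i := by
      calc ∑ j, ((A i j : ℤ) : ℂ) * x j = ∑ j, ((A i j : ℤ) : ℂ) * (S * (P.u j : ℂ)) :=
            Finset.sum_congr rfl fun j _ => by rw [← h5 j]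
        _ = S * (((∑ j, ((A i j : ℤ) : ℝ) * P.u j : ℝ)) : ℂ) := by
            push_cast
            rw [Finset.mul_sum]
            exact Finset.sum_congr rfl fun j _ => by ring
        _ = S * ((P.lam * P.u i : ℝ) : ℂ) := by rw [P.M_u i]
        _ = (P.lam : ℂ) * x i := by
            rw [h5 i]
            push_cast
            ring
    rw [h6] at h7
    exact hne (mul_right_cancel₀ hi h7)
  obtain ⟨i, hi⟩ := hyne
  have hbound : ∀ n : ℕ, ‖μ‖ ^ n * ‖y i‖ ≤
      P.rho ^ n * (P.c * P.N (fun i => (x i).re) + P.c * P.N (fun i => (x i).im)) := by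
    intro n
    obtain ⟨r1, r2⟩ := hit n
    have b1 := P.le_cN (act (A ^ n) (fun i => (x i).re)) i
    have b2 := P.le_cN (act (A ^ n) (fun i => (x i).im)) i
    have c1 := mul_le_mul_of_nonneg_left (N_pow_act P n (fun i => (x i).re)) P.c_pos.le
    have c2 := mul_le_mul_of_nonneg_left (N_pow_act P n (fun i => (x i).im)) P.c_pos.le
    have f1 : act (A ^ n) (fun i => (x i).re) i -
        (∑ j, act (A ^ n) (fun i => (x i).re) j) * P.u i = (μ ^ n * y i).re := by
      rw [r1, hy]
      simp only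
      rw [← Complex.re_sum, ← Finset.mul_sum]
      have : μ ^ n * (x i - (∑ j, x j) * (P.u i : ℂ)) =
          μ ^ n * x i - (μ ^ n * ∑ j, x j) * (P.u i : ℂ) := by ring
      rw [this, Complex.sub_re, Complex.re_mul_ofReal]
    have f2 : act (A ^ n) (fun i => (x i).im) i -
        (∑ j, act (A ^ n) (fun i => (x i).im) j) * P.u i = (μ ^ n * y i).im := by
      rw [r2, hy]
      simp only
      rw [← Complex.im_sum, ← Finset.mul_sum]
      have : μ ^ n * (x i - (∑ j, x j) * (P.u i : ℂ)) =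
          μ ^ n * x i - (μ ^ n * ∑ j, x j) * (P.u i : ℂ) := by ring
      rw [this, Complex.sub_im, Complex.im_mul_ofReal]
    rw [f1] at b1
    rw [f2] at b2
    have g := Complex.norm_le_abs_re_add_abs_im (μ ^ n * y i)
    rw [norm_mul, norm_pow] at g
    nlinarith
  by_contra hcon
  push Not at hcon
  have h8 : ∀ n : ℕ, ‖y i‖ ≤
      P.rho ^ n * (P.c * P.N (fun i => (x i).re) + P.c * P.N (fun i => (x i).im)) := by
    intro n
    have h9 : 1 ≤ ‖μ‖ ^ n := one_le_pow₀ hcon
    have h10 := hbound n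
    have h11 := norm_nonneg (y i)
    nlinarith
  have h12 : Tendsto (fun n : ℕ => P.rho ^ n *
      (P.c * P.N (fun i => (x i).re) + P.c * P.N (fun i => (x i).im))) atTop (𝓝 0) := by
    have := (tendsto_pow_atTop_nhds_zero_of_lt_one P.rho_nonneg P.rho_lt).mul_const
      (P.c * P.N (fun i => (x i).re) + P.c * P.N (fun i => (x i).im))
    rwa [zero_mul] at this
  have h13 : ‖y i‖ ≤ 0 := ge_of_tendsto' h12 h8
  exact hi (norm_le_zero_iff.1 h13)

theorem pisot_of_PD {A : Matrix (Fin d) (Fin d) ℤ} (P : PD A) (hdet : A.det = 1 ∨ A.det = -1) :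
    PisotMat A := by
  have hne := SRec_nonempty P
  have hdet0 : (Matrix.scalar (Fin d) P.lam - A.map (Int.cast : ℤ → ℝ)).det = 0 := by
    refine LPD_root_of A P.lam P.u ?_ P.M_u
    intro h
    have := P.u_pos hne.some
    rw [h] at this
    simp at this
  have hroot := (LPD_root A P.lam).mpr hdet0
  have hrootR : (aeval P.lam A.charpoly : ℝ) = 0 := by
    have h1 : (aeval P.lam A.charpoly : ℝ) =
        ((A.map (Int.cast : ℤ → ℝ)).charpoly).eval P.lam := by
      have h2 : (A.map (Int.cast : ℤ → ℝ)).charpoly = A.charpoly.map (Int.castRingHom ℝ) := by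
        rw [← Matrix.charpoly_map]
        rfl
      rw [h2, Polynomial.eval_map, aeval_def]
      rfl
    rw [h1, Matrix.eval_charpoly]
    exact hdet0
  refine ⟨?_, hdet, P.lam, P.lam_gt, hroot, fun μ hμ hne' => ⟨?_, other_lt P μ hμ hne'⟩⟩
  · have h1 : (A.map (Int.cast : ℤ → ℚ)).charpoly = A.charpoly.map (algebraMap ℤ ℚ) := by
      rw [← Matrix.charpoly_map]
      rfl
    rw [h1, ← (Matrix.charpoly_monic A).irreducible_iff_irreducible_map_fraction_map]
    have hdeg : A.charpoly.natDegree = d := by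
      rw [Matrix.charpoly_natDegree_eq_dim, Fintype.card_fin]
    have hd : 0 < d := Fin.pos hne.some
    rw [(Matrix.charpoly_monic A).irreducible_iff_natDegree]
    refine ⟨?_, ?_⟩
    · intro h
      rw [h] at hdeg
      simp at hdeg
      omega
    · intro f g hf hg hfg
      have h2 : (aeval P.lam f : ℝ) * aeval P.lam g = 0 := by
        rw [← map_mul, hfg]; exact hrootR
      have h3 : f.natDegree + g.natDegree = d := by
        rw [← hf.natDegree_mul hg, hfg, hdeg]
      rcases mul_eq_zero.1 h2 with h4 | h4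
      · right
        have := deg_ge P f hf h4
        omega
      · left
        have := deg_ge P g hg h4
        omega
  · rw [norm_pos_iff]
    rintro rfl
    have h5 : (A.map (Int.cast : ℤ → ℂ)).det = 0 := by
      have h6 : ((A.map (Int.cast : ℤ → ℂ)).charpoly).eval 0 = 0 := hμ
      rw [← Polynomial.coeff_zero_eq_eval_zero, Matrix.charpoly] at h6
      have h7 := Matrix.det_eq_sign_charpoly_coeff (A.map (Int.cast : ℤ → ℂ))
      rw [h7, Matrix.charpoly, h6, mul_zero]
    have h8 : (A.map (Int.cast : ℤ → ℂ)).det = ((A.det : ℤ) : ℂ) := by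
      have := (RingHom.map_det (Int.castRingHom ℂ) A).symm
      simpa [RingHom.mapMatrix_apply] using this
    rw [h8] at h5
    have h9 : A.det = 0 := by exact_mod_cast h5
    rcases hdet with h | h <;> rw [h] at h9 <;> norm_num at h9

end Pool.Agent.Q132.PC
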