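import Pool.Agent.Q132.PC.Com

/-!
A norm which is contracted by all members of a commuting family.
-/

set_option autoImplicit false

namespace Pool.Agent.Q132.PC
open Pool.Agent.H812R2.PI Pool.Agent.TH100.Pisot
open Filter Topology
open scoped BigOperators
variable {d : ℕ}

/-- weighted norms of the iterates -/
noncomputable def wn (Q : Com d) (A : Matrix (Fin d) (Fin d) ℤ) (θ : ℝ) (x : Fin d → ℝ) (n : ℕ) :
    ℝ := (θ ^ n)⁻¹ * Q.N (act (A ^ n) x)

section
variable {Q : Com d} {A : Matrix (Fin d) (Fin d) ℤ} (PA : PD A) (hu : PA.u = Q.u)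

include hu in
theorem N_le_NA (x : Fin d → ℝ) : Q.N x ≤ Q.c * (PA.c * PA.N x) := by
  apply Q.N_le
  intro i
  rw [← hu]
  exact PA.le_cN x i

theorem theta_pos : 0 < (1 + PA.rho) / 2 := by have := PA.rho_nonneg; linarith

theorem theta_lt : (1 + PA.rho) / 2 < 1 := by have := PA.rho_lt; linarith

include hu in
theorem wn_le (x : Fin d → ℝ) (n : ℕ) :
    wn Q A ((1 + PA.rho) / 2) x n ≤ Q.c * (PA.c * PA.N x) := by
  have hθ := theta_pos PA
  have h1 := N_le_NA PA hu (act (A ^ n) x)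
  have h2 := N_pow_act PA n x
  have h3 : PA.rho ^ n ≤ ((1 + PA.rho) / 2) ^ n :=
    pow_le_pow_left₀ PA.rho_nonneg (by have := PA.rho_lt; linarith) n
  have h4 : Q.N (act (A ^ n) x) ≤ ((1 + PA.rho) / 2) ^ n * (Q.c * (PA.c * PA.N x)) := by
    calc Q.N (act (A ^ n) x) ≤ Q.c * (PA.c * PA.N (act (A ^ n) x)) := h1
      _ ≤ Q.c * (PA.c * (((1 + PA.rho) / 2) ^ n * PA.N x)) := by
          refine mul_le_mul_of_nonneg_left (mul_le_mul_of_nonneg_left (h2.trans ?_) PA.c_pos.le)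
            Q.c_pos.le
          exact mul_le_mul_of_nonneg_right h3 (PA.N_nonneg _)
      _ = _ := by ring
  unfold wn
  rw [inv_mul_le_iff₀ (pow_pos hθ n)]
  exact h4

include hu in
theorem wn_bdd (x : Fin d → ℝ) : BddAbove (Set.range (wn Q A ((1 + PA.rho) / 2) x)) := by
  refine ⟨Q.c * (PA.c * PA.N x), ?_⟩
  rintro _ ⟨n, rfl⟩
  exact wn_le PA hu x n

/-- the new norm -/
noncomputable def nN (Q : Com d) {A : Matrix (Fin d) (Fin d) ℤ} (PA : PD A) (x : Fin d → ℝ) : ℝ :=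
  ⨆ n : ℕ, wn Q A ((1 + PA.rho) / 2) x n

include hu in
theorem le_nN (x : Fin d → ℝ) (n : ℕ) : wn Q A ((1 + PA.rho) / 2) x n ≤ nN Q PA x :=
  le_ciSup (wn_bdd PA hu x) n

include hu in
theorem N_le_nN (x : Fin d → ℝ) : Q.N x ≤ nN Q PA x := by
  have h := le_nN PA hu x 0
  unfold wn at h
  rw [pow_zero, inv_one, one_mul, pow_zero, FOff_act_one] at h
  exact h

theorem act_add' (B : Matrix (Fin d) (Fin d) ℤ) (x y : Fin d → ℝ) :
    act B (x + y) = act B x + act B y := by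
  funext i
  simp [act, mul_add, Finset.sum_add_distrib]

/-- the extended data -/
noncomputable def Com.extend (Q : Com d) {A : Matrix (Fin d) (Fin d) ℤ} (PA : PD A)
    (hu : PA.u = Q.u) : Com d where
  ell := Q.ell
  u := Q.u
  N := nN Q PA
  c := max Q.c (Q.c * (PA.c * PA.c))
  ell_pos := Q.ell_pos
  u_pos := Q.u_pos
  u_sum := Q.u_sum
  u_ind := Q.u_ind
  ell_ind := Q.ell_ind
  c_pos := lt_of_lt_of_le Q.c_pos (le_max_left _ _)
  N_add := by
    intro x y
    refine ciSup_le fun n => ?_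
    have h1 := le_nN PA hu x n
    have h2 := le_nN PA hu y n
    have h3 : wn Q A ((1 + PA.rho) / 2) (x + y) n ≤
        wn Q A ((1 + PA.rho) / 2) x n + wn Q A ((1 + PA.rho) / 2) y n := by
      unfold wn
      rw [← mul_add, act_add']
      exact mul_le_mul_of_nonneg_left (Q.N_add _ _)
        (inv_nonneg.2 (pow_nonneg (theta_pos PA).le n))
    linarith
  N_neg := by
    intro x
    unfold nN
    congr 1
    funext n
    unfold wn
    rw [act_neg, Q.N_neg]
  N_nonneg := fun x => (Q.N_nonneg x).trans (N_le_nN PA hu x)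
  le_cN := by
    intro x i
    have h1 := Q.le_cN x i
    have h2 := N_le_nN PA hu x
    have h3 : Q.c ≤ max Q.c (Q.c * (PA.c * PA.c)) := le_max_left _ _
    calc _ ≤ _ := h1
      _ ≤ Q.c * nN Q PA x := mul_le_mul_of_nonneg_left h2 Q.c_pos.le
      _ ≤ _ := mul_le_mul_of_nonneg_right h3 ((Q.N_nonneg x).trans h2)
  N_le := by
    intro x K hK
    have hne := SRec_nonempty PA
    have hK0 : 0 ≤ K := (abs_nonneg _).trans (hK hne.some)
    have h1 : PA.N x ≤ PA.c * K := PA.N_le x K (by rw [hu]; exact hK)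
    refine ciSup_le fun n => ?_
    refine (wn_le PA hu x n).trans ?_
    calc Q.c * (PA.c * PA.N x) ≤ Q.c * (PA.c * (PA.c * K)) :=
          mul_le_mul_of_nonneg_left (mul_le_mul_of_nonneg_left h1 PA.c_pos.le) Q.c_pos.le
      _ = (Q.c * (PA.c * PA.c)) * K := by ring
      _ ≤ _ := mul_le_mul_of_nonneg_right (le_max_right _ _) hK0

include hu in
theorem extend_old {B : Matrix (Fin d) (Fin d) ℤ} {lam rho : ℝ} (hB : Q.Adm B lam rho)
    (hc : A * B = B * A) : (Q.extend PA hu).Adm B lam rho := by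
  refine ⟨hB.lam_gt, hB.rho_nonneg, hB.rho_lt, hB.ell_M, hB.M_u, fun x => ?_⟩
  show nN Q PA (act B x) ≤ rho * nN Q PA x
  refine ciSup_le fun n => ?_
  have h1 : act (A ^ n) (act B x) = act B (act (A ^ n) x) := by
    rw [← FOff_act_mul, ← FOff_act_mul]
    congr 1
    exact (show Commute A B from hc).pow_left n
  have h2 := le_nN PA hu x n
  have h3 : wn Q A ((1 + PA.rho) / 2) (act B x) n ≤ rho * wn Q A ((1 + PA.rho) / 2) x n := by
    unfold wn
    rw [h1]
    have h4 := hB.N_act (act (A ^ n) x)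
    have h5 : 0 ≤ (((1 + PA.rho) / 2) ^ n)⁻¹ := inv_nonneg.2 (pow_nonneg (theta_pos PA).le n)
    calc _ ≤ (((1 + PA.rho) / 2) ^ n)⁻¹ * (rho * Q.N (act (A ^ n) x)) :=
          mul_le_mul_of_nonneg_left h4 h5
      _ = _ := by ring
  exact h3.trans (mul_le_mul_of_nonneg_left h2 hB.rho_nonneg)

include hu in
theorem extend_new (hM : ∀ i, ∑ j, (A i j : ℝ) * Q.u j = PA.lam * Q.u i)
    (hl : ∀ j, ∑ i, Q.ell i * (A i j : ℝ) = PA.lam * Q.ell j) :
    (Q.extend PA hu).Adm A PA.lam ((1 + PA.rho) / 2) := by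
  refine ⟨PA.lam_gt, (theta_pos PA).le, theta_lt PA, hl, hM, fun x => ?_⟩
  show nN Q PA (act A x) ≤ (1 + PA.rho) / 2 * nN Q PA x
  refine ciSup_le fun n => ?_
  have h2 := le_nN PA hu x (n + 1)
  have h3 : wn Q A ((1 + PA.rho) / 2) (act A x) n =
      (1 + PA.rho) / 2 * wn Q A ((1 + PA.rho) / 2) x (n + 1) := by
    unfold wn
    have hθ := theta_pos PA
    rw [← FOff_act_mul, ← pow_succ]
    generalize (1 + PA.rho) / 2 = θ at hθ
    have hne : θ ≠ 0 := hθ.ne'
    rw [pow_succ θ n]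
    field_simp
  rw [h3]
  exact mul_le_mul_of_nonneg_left h2 (theta_pos PA).le

end

theorem exists_PD' (M : Matrix (Fin d) (Fin d) ℤ) (hnn : ∀ i j, 0 ≤ M i j) (hM : PisotMat M) :
    Nonempty (PD M) := by
  obtain ⟨lam, u, h1, h2, h3⟩ := exists_u M hnn hM
  obtain ⟨P, -, -⟩ := exists_PD M hnn hM lam h1 u h2 h3
  exact ⟨P⟩

/-- **Common data of a commuting family.** -/
theorem exists_com (M : Matrix (Fin d) (Fin d) ℤ) (hnn : ∀ i j, 0 ≤ M i j) (hM : PisotMat M)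
    (l : List (Matrix (Fin d) (Fin d) ℤ)) :
    (∀ A ∈ l, (∀ i j, 0 ≤ A i j) ∧ PisotMat A ∧ A * M = M * A ∧ ∀ B ∈ l, A * B = B * A) →
    ∃ Q : Com d, (∃ lam rho, Q.Adm M lam rho) ∧ ∀ A ∈ l, ∃ lam rho, Q.Adm A lam rho := by
  induction l with
  | nil =>
    intro _
    obtain ⟨P⟩ := exists_PD' M hnn hM
    exact ⟨Com.ofPD P, ⟨_, _, Com.ofPD_adm P⟩, by simp⟩
  | cons A l ih =>
    intro h
    obtain ⟨Q, ⟨lam, rho, hQM⟩, hQl⟩ := ih (fun B hB =>
      ⟨(h B (List.mem_cons_of_mem _ hB)).1, (h B (List.mem_cons_of_mem _ hB)).2.1,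
        (h B (List.mem_cons_of_mem _ hB)).2.2.1, fun C hC =>
          (h B (List.mem_cons_of_mem _ hB)).2.2.2 C (List.mem_cons_of_mem _ hC)⟩)
    obtain ⟨hA1, hA2, hA3, hA4⟩ := h A List.mem_cons_self
    obtain ⟨PA⟩ := exists_PD' A hA1 hA2
    obtain ⟨e1, e2, e3⟩ := comm_eig (Q.toPD hQM) PA hA3
    have hu : PA.u = Q.u := e1
    refine ⟨Q.extend PA hu, ⟨lam, rho, extend_old PA hu hQM hA3⟩, ?_⟩
    intro B hB
    rcases List.mem_cons.1 hB with rfl | hB
    · exact ⟨_, _, extend_new PA hu e2 e3⟩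
    · obtain ⟨lam', rho', hB'⟩ := hQl B hB
      exact ⟨lam', rho', extend_old PA hu hB' (hA4 B (List.mem_cons_of_mem _ hB))⟩

end Pool.Agent.Q132.PC
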