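import Pool.Agent.Q132.PC.Ret
import Pool.Agent.H812R2.PI.JFin

/-!
All lattice vectors are good.
-/

set_option autoImplicit false

namespace Pool.Agent.Q132.PC
open Pool.Agent.H812R2.PI
open Filter Topology
open scoped BigOperators
variable {d : ℕ}

theorem letter_occurs {σ : Fin d → List (Fin d)} (P : PD (inc σ)) {x : ℤ → Fin d}
    (hx : x ∈ X σ) (c : Fin d) : ∃ i : ℕ, x i = c := by
  obtain ⟨k, hk, hprim⟩ := primitive P
  have h1 : [c] ∈ lang σ := by
    refine ⟨k, hk, c, ?_⟩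
    obtain ⟨s, t, hst⟩ := List.append_of_mem (hprim k le_rfl c c)
    exact ⟨s, t, by rw [hst]; simp⟩
  obtain ⟨L, hL⟩ := lang_recurrent P _ h1
  obtain ⟨s, t, hst⟩ := hL (win x 0 L) (hx 0 L) (by rw [win_length])
  have h2 : s.length < (win x 0 L).length := by
    rw [← hst]; simp
  refine ⟨s.length, ?_⟩
  have h3 := win_getElem x 0 L s.length h2
  rw [zero_add] at h3
  rw [← h3]
  have h4 : (win x 0 L)[s.length]? = some c := by
    rw [← hst]; simp
  rw [List.getElem?_eq_getElem h2] at h4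
  exact Option.some_injective _ h4

/-- bounded discrepancy of the language -/
theorem balanced {σ : Fin d → List (Fin d)} (P : PD (inc σ)) :
    ∃ K : ℝ, 0 ≤ K ∧ ∀ w ∈ lang σ, ∀ i, |(ab w i : ℝ) - (w.length : ℝ) * P.u i| ≤ K := by
  obtain ⟨B, hB⟩ : ∃ B : ℝ, ∀ a k, P.N (rv (ab ((σ a).take k))) ≤ B := by
    refine ⟨∑ a, P.c * ((σ a).length : ℝ), fun a k => ?_⟩
    have h1 := JFin_N_word P ((σ a).take k)
    have h2 : (((σ a).take k).length : ℝ) ≤ (σ a).length := by
      rw [List.length_take]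
      exact_mod_cast min_le_right _ _
    have h3 : P.c * ((σ a).length : ℝ) ≤ ∑ a, P.c * ((σ a).length : ℝ) :=
      Finset.single_le_sum (f := fun a => P.c * ((σ a).length : ℝ))
        (fun a _ => mul_nonneg P.c_pos.le (Nat.cast_nonneg _)) (Finset.mem_univ a)
    exact h1.trans ((mul_le_mul_of_nonneg_left h2 P.c_pos.le).trans h3)
  have hne := SRec_nonempty P
  have hr : 0 < 1 - P.rho := by linarith [P.rho_lt]
  have hB0 : 0 ≤ B := le_trans (P.N_nonneg _) (hB hne.some 0)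
  refine ⟨P.c * (2 * B / (1 - P.rho)), mul_nonneg P.c_pos.le (div_nonneg (by linarith) hr.le), ?_⟩
  intro w hw i
  have h1 := P.le_cN (rv (ab w)) i
  have h2 : ∑ j, rv (ab w) j = (w.length : ℝ) := by
    have := ab_sum w
    simp only [rv]
    exact_mod_cast this
  rw [h2] at h1
  exact h1.trans (mul_le_mul_of_nonneg_left (lang_N_le P B hB w hw) P.c_pos.le)


theorem sum_ev (r : Fin d → ℤ) (c : Fin d) : ∑ i, r i * ev c i = r c := by
  simp [ev]

open Classical in
theorem GG_psum {σ : Fin d → List (Fin d)} (P : PD (inc σ)) {m : ℕ} {γ : Torus m}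
    {π : (ℤ → Fin d) → Torus m} (hc : ContinuousOn π (X σ))
    (hπ : ∀ x ∈ X σ, π (sh x) = π x + γ) {x : ℤ → Fin d} (hx : x ∈ X σ) (i : ℕ) :
    psum x i ∈ GG (inc σ) γ := by
  obtain ⟨K, hK0, hK⟩ := balanced P
  set φ : ℤ → ℤ := fun i => if psum x i ∈ GG (inc σ) γ then 1 else 0 with hφ
  set p : Fin d → ℤ := fun c => if ∃ i, x i = c ∧ psum x i ∈ GG (inc σ) γ then 1 else 0 with hp
  set q : Fin d → ℤ := fun c => if ∃ i, x (i - 1) = c ∧ psum x i ∈ GG (inc σ) γ then 1 else 0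
    with hq
  have h1 : ∀ i, φ i = p (x i) := by
    intro i
    have : psum x i ∈ GG (inc σ) γ ↔ ∃ j, x j = x i ∧ psum x j ∈ GG (inc σ) γ := by
      refine ⟨fun h => ⟨i, rfl, h⟩, ?_⟩
      rintro ⟨j, hj, hjG⟩
      have h2 := ret_right P hc hπ hx hj
      have h3 := (GG (inc σ) γ).add_mem h2 hjG
      rwa [sub_add_cancel] at h3
    simp only [hφ, hp, this]
  have h2 : ∀ i, φ i = q (x (i - 1)) := by
    intro i
    have : psum x i ∈ GG (inc σ) γ ↔ ∃ j, x (j - 1) = x (i - 1) ∧ psum x j ∈ GG (inc σ) γ := by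
      refine ⟨fun h => ⟨i, rfl, h⟩, ?_⟩
      rintro ⟨j, hj, hjG⟩
      have h2 := ret_left P hc hπ hx hj
      have h3 := (GG (inc σ) γ).add_mem h2 hjG
      rwa [sub_add_cancel] at h3
    simp only [hφ, hq, this]
  have h3 : ∀ i, (q (x i) - p (x i)) = φ (i + 1) - φ i := by
    intro i
    rw [h1 i, h2 (i + 1), add_sub_cancel_right]
  have h4 : ∀ k : ℕ, ∑ c, (q c - p c) * psum x k c = φ k - φ 0 := by
    intro k
    induction k with
    | zero => simp [psum_zero]
    | succ k ih =>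
      have e : ((k + 1 : ℕ) : ℤ) = (k : ℤ) + 1 := by push_cast; rfl
      rw [e, psum_succ]
      simp only [Pi.add_apply, mul_add, Finset.sum_add_distrib]
      rw [ih, sum_ev (fun c => q c - p c), h3]
      ring
  have h5 : ∀ k : ℕ, |((∑ c, (q c - p c) * psum x k c : ℤ) : ℝ)| ≤ 1 := by
    intro k
    rw [h4]
    have a1 : φ k = 0 ∨ φ k = 1 := by simp only [hφ]; split_ifs <;> simp
    have a2 : φ 0 = 0 ∨ φ 0 = 1 := by simp only [hφ]; split_ifs <;> simp
    rcases a1 with a1 | a1 <;> rcases a2 with a2 | a2 <;> rw [a1, a2] <;> norm_num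
  set s : ℝ := ∑ c, ((q c - p c : ℤ) : ℝ) * P.u c with hs
  have h6 : ∀ k : ℕ, (k : ℝ) * |s| ≤ 1 + K * ∑ c, |((q c - p c : ℤ) : ℝ)| := by
    intro k
    have e1 : (k : ℝ) * s = ((∑ c, (q c - p c) * psum x k c : ℤ) : ℝ) -
        ∑ c, ((q c - p c : ℤ) : ℝ) * ((psum x k c : ℝ) - k * P.u c) := by
      rw [hs, Finset.mul_sum]
      push_cast
      rw [← Finset.sum_sub_distrib]
      exact Finset.sum_congr rfl fun c _ => by ring
    have e2 : |(k : ℝ) * s| = k * |s| := by rw [abs_mul, Nat.abs_cast]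
    rw [← e2, e1]
    refine (abs_sub _ _).trans (add_le_add (h5 k) ?_)
    refine (Finset.abs_sum_le_sum_abs _ _).trans ?_
    rw [Finset.mul_sum]
    apply Finset.sum_le_sum
    intro c _
    rw [abs_mul, mul_comm]
    refine mul_le_mul_of_nonneg_right ?_ (abs_nonneg _)
    have h7 := HGH_bd P K hK hx k c
    unfold HGH_D at h7
    exact_mod_cast h7
  have h8 : s = 0 := by
    by_contra hne
    have h9 : 0 < |s| := abs_pos.2 hne
    obtain ⟨k, hk⟩ := exists_nat_gt ((1 + K * ∑ c, |((q c - p c : ℤ) : ℝ)|) / |s|)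
    rw [div_lt_iff₀ h9] at hk
    linarith [h6 k]
  have h10 := P.u_ind (fun c => q c - p c) h8
  have h11 : ∀ i, φ (i + 1) = φ i := by
    intro i
    have := h3 i
    have h12 := congrFun h10 (x i)
    simp only [Pi.zero_apply] at h12
    linarith
  have h12 : ∀ i : ℕ, φ i = 1 := by
    intro i
    induction i with
    | zero =>
      simp only [hφ, Nat.cast_zero, psum_zero]
      rw [if_pos (GG (inc σ) γ).zero_mem]
    | succ i ih =>
      have e : ((i + 1 : ℕ) : ℤ) = (i : ℤ) + 1 := by push_cast; rfl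
      rw [e, h11, ih]
  have h13 := h12 i
  simp only [hφ] at h13
  by_contra hcon
  rw [if_neg hcon] at h13
  norm_num at h13

/-- **every lattice vector is good** -/
theorem GG_all {σ : Fin d → List (Fin d)} (P : PD (inc σ)) {m : ℕ} {γ : Torus m}
    {π : (ℤ → Fin d) → Torus m} (hc : ContinuousOn π (X σ))
    (hπ : ∀ x ∈ X σ, π (sh x) = π x + γ) (t : Fin d → ℤ) : t ∈ GG (inc σ) γ := by
  obtain ⟨x, hx⟩ := X_nonempty P
  have h1 : ∀ c, ev c ∈ GG (inc σ) γ := by
    intro c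
    obtain ⟨i, hi⟩ := letter_occurs P hx c
    have h2 := GG_psum P hc hπ hx i
    have h3 := GG_psum P hc hπ hx (i + 1)
    have e : ((i + 1 : ℕ) : ℤ) = (i : ℤ) + 1 := by push_cast; rfl
    rw [e, psum_succ, hi] at h3
    have h4 := (GG (inc σ) γ).sub_mem h3 h2
    rwa [add_sub_cancel_left] at h4
  have h5 : t = ∑ c, t c • ev c := by
    funext i
    simp [ev, Finset.sum_apply]
  rw [h5]
  exact (GG (inc σ) γ).sum_mem fun c _ => (GG (inc σ) γ).zsmul_mem (h1 c) _

end Pool.Agent.Q132.PC
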