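import Pool.Agent.H812R2.PI.JCnt

/-!
Words without a given factor.
-/

set_option autoImplicit false

namespace Pool.Agent.Q132.PC
open Pool.Agent.H812R2.PI

/-- sequences without the factor `x` -/
def Avoid {α : Type*} {K : ℕ} (x : Fin K → α) (k : ℕ) : Set (Fin k → α) :=
  {f : Fin k → α | ¬ ∃ l₁ l₂ : List α, List.ofFn f = l₁ ++ List.ofFn x ++ l₂}

theorem avoid_step {α : Type*} [Fintype α] [DecidableEq α] {K : ℕ} (x : Fin K → α) (k : ℕ) :
    (Avoid x (k + K)).ncard ≤ (Avoid x k).ncard * (Fintype.card α ^ K - 1) := by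
  classical
  have h1 : ((Set.univ \ {x} : Set (Fin K → α))).ncard = Fintype.card α ^ K - 1 := by
    rw [Set.ncard_sdiff_singleton_of_mem (Set.mem_univ _), Set.ncard_univ]
    simp [Nat.card_eq_fintype_card]
  rw [← h1, ← Set.ncard_prod]
  refine Set.ncard_le_ncard_of_injOn
    (fun f => ((fun i => f (Fin.castAdd K i)), (fun j => f (Fin.natAdd k j)))) ?_ ?_
    (Set.toFinite _)
  · intro f hf
    refine ⟨?_, Set.mem_univ _, ?_⟩
    · rintro ⟨l₁, l₂, h⟩
      refine hf ⟨l₁, l₂ ++ List.ofFn (fun j => f (Fin.natAdd k j)), ?_⟩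
      have h' : (List.ofFn fun i => f (Fin.castAdd K i)) = l₁ ++ List.ofFn x ++ l₂ := h
      rw [JCnt_ofFn_add, h']
      simp [List.append_assoc]
    · intro h
      simp only [Set.mem_singleton_iff] at h
      refine hf ⟨List.ofFn (fun i => f (Fin.castAdd K i)), [], ?_⟩
      rw [JCnt_ofFn_add, h, List.append_nil]
  · intro f _ g _ h
    simp only [Prod.mk.injEq] at h
    funext i
    refine Fin.addCases (fun j => ?_) (fun j => ?_) i
    · exact congrFun h.1 j
    · exact congrFun h.2 j

theorem avoid_le {α : Type*} [Fintype α] [DecidableEq α] {K : ℕ} (x : Fin K → α) (k : ℕ) :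
    (Avoid x k).ncard ≤ Fintype.card α ^ k := by
  refine (Set.ncard_le_ncard (Set.subset_univ _) (Set.toFinite _)).trans ?_
  rw [Set.ncard_univ]
  simp [Nat.card_eq_fintype_card]

/-- most sequences contain a given factor -/
theorem count_avoid {α : Type*} [Fintype α] [DecidableEq α] (v : List α) (hv : v ≠ []) :
    ∃ C c : ℝ, 0 < c ∧ ∀ k : ℕ,
      ({f : Fin k → α | ¬ ∃ l₁ l₂ : List α, List.ofFn f = l₁ ++ v ++ l₂}.ncard : ℝ) ≤
        C * Real.exp (-(c * k)) * (Fintype.card α : ℝ) ^ k := by
  obtain ⟨K, hKdef⟩ : ∃ K, K = v.length := ⟨_, rfl⟩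
  obtain ⟨x, hx⟩ : ∃ x : Fin K → α, List.ofFn x = v := by
    subst hKdef
    exact ⟨fun i => v[i], by simp⟩
  have hK : 0 < K := by
    rw [hKdef]; exact List.length_pos_of_ne_nil hv
  have hq : 0 < Fintype.card α := Fintype.card_pos_iff.2 ⟨v.head hv⟩
  set q : ℝ := (Fintype.card α : ℝ) with hqdef
  have hq1 : (1:ℝ) ≤ q := by rw [hqdef]; exact_mod_cast hq
  have hqK : 0 < q ^ K := by positivity
  have hK' : (0:ℝ) < K := by exact_mod_cast hK
  set c : ℝ := (1 / q ^ K) / K with hc
  have hcpos : 0 < c := by positivity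
  have hcK : c * K = 1 / q ^ K := by rw [hc]; field_simp
  have key : ∀ k : ℕ, ((Avoid x k).ncard : ℝ) ≤
      Real.exp (c * K) * Real.exp (-(c * k)) * q ^ k := by
    intro k
    induction k using Nat.strong_induction_on with
    | _ k ih =>
      rcases lt_or_ge k K with h | h
      · have h1 : ((Avoid x k).ncard : ℝ) ≤ q ^ k := by
          rw [hqdef]; exact_mod_cast avoid_le x k
        refine h1.trans ?_
        have h2 : (1:ℝ) ≤ Real.exp (c * K) * Real.exp (-(c * k)) := by
          rw [← Real.exp_add]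
          apply Real.one_le_exp
          have : (k:ℝ) ≤ K := by exact_mod_cast h.le
          nlinarith
        have h3 : (0:ℝ) ≤ q ^ k := by positivity
        nlinarith
      · obtain ⟨j, rfl⟩ : ∃ j, k = j + K := ⟨k - K, by omega⟩
        have h1 : ((Avoid x (j + K)).ncard : ℝ) ≤
            ((Avoid x j).ncard : ℝ) * (q ^ K - 1) := by
          have h0 : 1 ≤ Fintype.card α ^ K := Nat.one_le_pow _ _ hq
          have := avoid_step x j
          have h2 : (((Fintype.card α ^ K - 1 : ℕ)) : ℝ) = q ^ K - 1 := by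
            rw [Nat.cast_sub h0]; push_cast; rfl
          rw [← h2]
          exact_mod_cast this
        have h2 : q ^ K - 1 ≤ Real.exp (-(c * K)) * q ^ K := by
          have h3 : 1 - 1 / q ^ K ≤ Real.exp (-(c * K)) := by
            rw [hcK]
            have := Real.add_one_le_exp (-(1 / q ^ K))
            linarith
          calc q ^ K - 1 = (1 - 1 / q ^ K) * q ^ K := by field_simp
            _ ≤ _ := mul_le_mul_of_nonneg_right h3 hqK.le
        have h4 : (0:ℝ) ≤ ((Avoid x j).ncard : ℝ) := by positivity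
        calc ((Avoid x (j + K)).ncard : ℝ)
            ≤ ((Avoid x j).ncard : ℝ) * (q ^ K - 1) := h1
          _ ≤ ((Avoid x j).ncard : ℝ) * (Real.exp (-(c * K)) * q ^ K) :=
              mul_le_mul_of_nonneg_left h2 h4
          _ ≤ (Real.exp (c * K) * Real.exp (-(c * j)) * q ^ j) *
              (Real.exp (-(c * K)) * q ^ K) :=
              mul_le_mul_of_nonneg_right (ih j (by omega)) (by positivity)
          _ = _ := by
              have e : -(c * ((j + K : ℕ) : ℝ)) = -(c * j) + -(c * K) := by push_cast; ring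
              rw [e, Real.exp_add, pow_add]
              ring
  refine ⟨Real.exp (c * K), c, hcpos, fun k => ?_⟩
  have := key k
  unfold Avoid at this
  rw [hx] at this
  exact this

end Pool.Agent.Q132.PC
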