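import Pool.Agent.Q132.PC.Semi

/-!
Commuting Pisot matrices: common eigenvectors and a common contracted norm.
-/

set_option autoImplicit false

namespace Pool.Agent.Q132.PC
open Pool.Agent.H812R2.PI Pool.Agent.TH100.Pisot
open Filter Topology
open scoped BigOperators
variable {d : ℕ}

/-- data common to a family of commuting Pisot matrices -/
structure Com (d : ℕ) where
  ell : Fin d → ℝ
  u : Fin d → ℝ
  N : (Fin d → ℝ) → ℝ
  c : ℝ
  ell_pos : ∀ i, 0 < ell i
  u_pos : ∀ i, 0 < u i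
  u_sum : ∑ i, u i = 1
  u_ind : ∀ w : Fin d → ℤ, ∑ i, (w i : ℝ) * u i = 0 → w = 0
  ell_ind : ∀ v : Fin d → ℤ, ∑ i, ell i * (v i : ℝ) = 0 → v = 0
  c_pos : 0 < c
  N_add : ∀ x y, N (x + y) ≤ N x + N y
  N_neg : ∀ x, N (-x) = N x
  N_nonneg : ∀ x, 0 ≤ N x
  le_cN : ∀ x i, |x i - (∑ j, x j) * u i| ≤ c * N x
  N_le : ∀ x (K : ℝ), (∀ i, |x i - (∑ j, x j) * u i| ≤ K) → N x ≤ c * K

/-- `A` has the common eigenvectors and contracts the norm -/
structure Com.Adm (Q : Com d) (A : Matrix (Fin d) (Fin d) ℤ) (lam rho : ℝ) : Prop where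
  lam_gt : 1 < lam
  rho_nonneg : 0 ≤ rho
  rho_lt : rho < 1
  ell_M : ∀ j, ∑ i, Q.ell i * (A i j : ℝ) = lam * Q.ell j
  M_u : ∀ i, ∑ j, (A i j : ℝ) * Q.u j = lam * Q.u i
  N_act : ∀ x, Q.N (act A x) ≤ rho * Q.N x

/-- the spectral data of an admissible matrix -/
def Com.toPD (Q : Com d) {A : Matrix (Fin d) (Fin d) ℤ} {lam rho : ℝ} (h : Q.Adm A lam rho) :
    PD A where
  lam := lam
  ell := Q.ell
  u := Q.u
  N := Q.N
  rho := rho
  c := Q.c
  lam_gt := h.lam_gt
  ell_pos := Q.ell_pos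
  u_pos := Q.u_pos
  u_sum := Q.u_sum
  ell_M := h.ell_M
  M_u := h.M_u
  u_ind := Q.u_ind
  ell_ind := Q.ell_ind
  c_pos := Q.c_pos
  rho_nonneg := h.rho_nonneg
  rho_lt := h.rho_lt
  N_add := Q.N_add
  N_neg := Q.N_neg
  N_nonneg := Q.N_nonneg
  N_act := h.N_act
  le_cN := Q.le_cN
  N_le := Q.N_le

/-- the common data of one matrix -/
def Com.ofPD {M : Matrix (Fin d) (Fin d) ℤ} (P : PD M) : Com d where
  ell := P.ell
  u := P.u
  N := P.N
  c := P.c
  ell_pos := P.ell_pos
  u_pos := P.u_pos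
  u_sum := P.u_sum
  u_ind := P.u_ind
  ell_ind := P.ell_ind
  c_pos := P.c_pos
  N_add := P.N_add
  N_neg := P.N_neg
  N_nonneg := P.N_nonneg
  le_cN := P.le_cN
  N_le := P.N_le

theorem Com.ofPD_adm {M : Matrix (Fin d) (Fin d) ℤ} (P : PD M) :
    (Com.ofPD P).Adm M P.lam P.rho :=
  ⟨P.lam_gt, P.rho_nonneg, P.rho_lt, P.ell_M, P.M_u, P.N_act⟩

theorem Com.Adm.mul {Q : Com d} {A A' : Matrix (Fin d) (Fin d) ℤ} {lam rho lam' rho' : ℝ}
    (h : Q.Adm A lam rho) (h' : Q.Adm A' lam' rho') : Q.Adm (A * A') (lam * lam') (rho * rho') := by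
  refine ⟨?_, mul_nonneg h.rho_nonneg h'.rho_nonneg, ?_, ?_, ?_, ?_⟩
  · have := h.lam_gt
    have := h'.lam_gt
    nlinarith
  · have := h.rho_lt
    have := h'.rho_lt
    have := h.rho_nonneg
    have := h'.rho_nonneg
    nlinarith
  · intro j
    have h1 : ∀ i, (((A * A') i j : ℤ) : ℝ) = ∑ k, (A i k : ℝ) * (A' k j : ℝ) := by
      intro i
      rw [Matrix.mul_apply]
      push_cast
      rfl
    simp only [h1, Finset.mul_sum]
    rw [Finset.sum_comm]
    have h2 : ∀ k, ∑ i, Q.ell i * ((A i k : ℝ) * (A' k j : ℝ)) = lam * (Q.ell k * (A' k j : ℝ)) := by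
      intro k
      have h3 := h.ell_M k
      calc ∑ i, Q.ell i * ((A i k : ℝ) * (A' k j : ℝ)) =
          (∑ i, Q.ell i * (A i k : ℝ)) * (A' k j : ℝ) := by
            rw [Finset.sum_mul]
            exact Finset.sum_congr rfl fun i _ => by ring
        _ = _ := by rw [h3]; ring
    simp only [h2]
    rw [← Finset.mul_sum, h'.ell_M j]
    ring
  · intro i
    have h1 : ∀ j, (((A * A') i j : ℤ) : ℝ) = ∑ k, (A i k : ℝ) * (A' k j : ℝ) := by
      intro j
      rw [Matrix.mul_apply]
      push_cast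
      rfl
    simp only [h1, Finset.sum_mul]
    rw [Finset.sum_comm]
    have h2 : ∀ k, ∑ j, (A i k : ℝ) * (A' k j : ℝ) * Q.u j = lam' * ((A i k : ℝ) * Q.u k) := by
      intro k
      have h3 := h'.M_u k
      calc ∑ j, (A i k : ℝ) * (A' k j : ℝ) * Q.u j =
          (A i k : ℝ) * (∑ j, (A' k j : ℝ) * Q.u j) := by
            rw [Finset.mul_sum]
            exact Finset.sum_congr rfl fun i _ => by ring
        _ = _ := by rw [h3]; ring
    simp only [h2]
    rw [← Finset.mul_sum, h.M_u i]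
    ring
  · intro x
    rw [FOff_act_mul]
    calc Q.N (act A (act A' x)) ≤ rho * Q.N (act A' x) := h.N_act _
      _ ≤ rho * (rho' * Q.N x) := mul_le_mul_of_nonneg_left (h'.N_act x) h.rho_nonneg
      _ = _ := by ring

/-- an eigenvector for the leading eigenvalue is a multiple of `u` -/
theorem eig_u {M : Matrix (Fin d) (Fin d) ℤ} (P : PD M) (x : Fin d → ℝ)
    (h : act M x = fun i => P.lam * x i) : x = fun i => (∑ j, x j) * P.u i := by
  have h0 : ∀ n : ℕ, act (M ^ n) x = fun i => P.lam ^ n * x i := by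
    intro n
    induction n with
    | zero => rw [pow_zero, FOff_act_one]; simp
    | succ n ih =>
      have h1 : act M (fun i => P.lam ^ n * x i) = fun i => P.lam ^ n * act M x i := by
        funext i
        simp only [act, Finset.mul_sum]
        exact Finset.sum_congr rfl fun j _ => by ring
      rw [pow_succ', FOff_act_mul, ih, h1, h]
      funext i
      simp only
      ring
  have hlam : 0 < P.lam := by linarith [P.lam_gt]
  apply FOff_of_pr P
  funext i
  rw [Pi.zero_apply]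
  have h1 : ∀ n : ℕ, P.lam ^ n * |P.pr x i| ≤ P.c * P.N x := by
    intro n
    have h2 := P.le_cN (act (M ^ n) x) i
    have h3 := N_pow_act P n x
    have h4 : act (M ^ n) x i - (∑ j, act (M ^ n) x j) * P.u i = P.lam ^ n * P.pr x i := by
      rw [h0]
      simp only [PD.pr]
      rw [← Finset.mul_sum]
      ring
    rw [h4, abs_mul, abs_of_pos (pow_pos hlam n)] at h2
    refine h2.trans (mul_le_mul_of_nonneg_left (h3.trans ?_) P.c_pos.le)
    have h5 : P.rho ^ n ≤ 1 := pow_le_one₀ P.rho_nonneg P.rho_lt.le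
    have h6 := P.N_nonneg x
    nlinarith
  by_contra hne
  have h7 : 0 < |P.pr x i| := abs_pos.2 hne
  obtain ⟨n, hn⟩ := ((tendsto_pow_atTop_atTop_of_one_lt P.lam_gt).eventually_gt_atTop
    (P.c * P.N x / |P.pr x i|)).exists
  rw [div_lt_iff₀ h7] at hn
  linarith [h1 n]

/-- a left eigenvector for the leading eigenvalue is a multiple of `ell` -/
theorem eig_ell {M : Matrix (Fin d) (Fin d) ℤ} (P : PD M) (y : Fin d → ℝ)
    (h : ∀ j, ∑ i, y i * (M i j : ℝ) = P.lam * y j) :
    ∃ t : ℝ, ∀ j, y j = t * P.ell j := by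
  have hlam : 0 < P.lam := by linarith [P.lam_gt]
  have hne := SRec_nonempty P
  have hL : 0 < ∑ i, P.ell i * P.u i :=
    Finset.sum_pos (fun i _ => mul_pos (P.ell_pos i) (P.u_pos i)) Finset.univ_nonempty
  obtain ⟨t, ht⟩ : ∃ t : ℝ, t * (∑ i, P.ell i * P.u i) = ∑ i, y i * P.u i :=
    ⟨(∑ i, y i * P.u i) / (∑ i, P.ell i * P.u i), div_mul_cancel₀ _ hL.ne'⟩
  refine ⟨t, ?_⟩
  -- `w = y - t ell` is a left eigenvector which vanishes on `u`
  obtain ⟨w, hw⟩ : ∃ w : Fin d → ℝ, ∀ j, w j = y j - t * P.ell j := ⟨_, fun j => rfl⟩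
  have hw1 : ∀ j, ∑ i, w i * (M i j : ℝ) = P.lam * w j := by
    intro j
    simp only [hw, sub_mul, Finset.sum_sub_distrib, h j]
    have h1 := P.ell_M j
    have h2 : ∑ i, t * P.ell i * (M i j : ℝ) = t * ∑ i, P.ell i * (M i j : ℝ) := by
      rw [Finset.mul_sum]
      exact Finset.sum_congr rfl fun i _ => by ring
    rw [h2, h1]
    ring
  have hw2 : ∑ i, w i * P.u i = 0 := by
    simp only [hw, sub_mul, Finset.sum_sub_distrib]
    have h2 : ∑ i, t * P.ell i * P.u i = t * ∑ i, P.ell i * P.u i := by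
      rw [Finset.mul_sum]
      exact Finset.sum_congr rfl fun i _ => by ring
    rw [h2, ht]
    ring
  have hstep : ∀ x : Fin d → ℝ, ∑ i, w i * act M x i = P.lam * ∑ i, w i * x i := by
    intro x
    simp only [act, Finset.mul_sum]
    rw [Finset.sum_comm]
    refine Finset.sum_congr rfl fun j _ => ?_
    have h3 := hw1 j
    calc ∑ i, w i * ((M i j : ℝ) * x j) = (∑ i, w i * (M i j : ℝ)) * x j := by
          rw [Finset.sum_mul]
          exact Finset.sum_congr rfl fun i _ => by ring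
      _ = _ := by rw [h3]; ring
  have hpow : ∀ (n : ℕ) (x : Fin d → ℝ), ∑ i, w i * act (M ^ n) x i = P.lam ^ n * ∑ i, w i * x i := by
    intro n
    induction n with
    | zero => intro x; rw [pow_zero, FOff_act_one]; simp
    | succ n ih =>
      intro x
      rw [pow_succ', FOff_act_mul, hstep, ih]
      ring
  have hzero : ∀ x : Fin d → ℝ, ∑ i, w i * x i = 0 := by
    intro x
    have h1 : ∀ n : ℕ, P.lam ^ n * |∑ i, w i * x i| ≤ (∑ i, |w i|) * (P.c * P.N x) := by
      intro n
      have h2 : P.lam ^ n * |∑ i, w i * x i| = |∑ i, w i * act (M ^ n) x i| := by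
        rw [hpow, abs_mul, abs_of_pos (pow_pos hlam n)]
      have h3 : ∑ i, w i * act (M ^ n) x i =
          ∑ i, w i * (act (M ^ n) x i - (∑ j, act (M ^ n) x j) * P.u i) := by
        simp only [mul_sub, Finset.sum_sub_distrib]
        have : ∑ i, w i * ((∑ j, act (M ^ n) x j) * P.u i) =
            (∑ j, act (M ^ n) x j) * ∑ i, w i * P.u i := by
          rw [Finset.mul_sum]
          exact Finset.sum_congr rfl fun i _ => by ring
        rw [this, hw2]
        ring
      rw [h2, h3]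
      refine (Finset.abs_sum_le_sum_abs _ _).trans ?_
      rw [Finset.sum_mul]
      apply Finset.sum_le_sum
      intro i _
      rw [abs_mul]
      refine mul_le_mul_of_nonneg_left ?_ (abs_nonneg _)
      refine (P.le_cN (act (M ^ n) x) i).trans (mul_le_mul_of_nonneg_left
        ((N_pow_act P n x).trans ?_) P.c_pos.le)
      have h5 : P.rho ^ n ≤ 1 := pow_le_one₀ P.rho_nonneg P.rho_lt.le
      have h6 := P.N_nonneg x
      nlinarith
    by_contra hcon
    have h7 : 0 < |∑ i, w i * x i| := abs_pos.2 hcon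
    obtain ⟨n, hn⟩ := ((tendsto_pow_atTop_atTop_of_one_lt P.lam_gt).eventually_gt_atTop
      ((∑ i, |w i|) * (P.c * P.N x) / |∑ i, w i * x i|)).exists
    rw [div_lt_iff₀ h7] at hn
    linarith [h1 n]
  intro j
  have h8 := hzero (Pi.single j 1)
  simp only [Pi.single_apply, mul_ite, mul_one, mul_zero, Finset.sum_ite_eq', Finset.mem_univ,
    if_true] at h8
  rw [hw j] at h8
  linarith

theorem act_neg (M : Matrix (Fin d) (Fin d) ℤ) (x : Fin d → ℝ) : act M (-x) = - act M x := by
  funext i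
  simp [act]

/-- a matrix which commutes has the same eigenvectors -/
theorem comm_eig {M A : Matrix (Fin d) (Fin d) ℤ} (P : PD M) (PA : PD A) (hc : A * M = M * A) :
    PA.u = P.u ∧ (∀ i, ∑ j, (A i j : ℝ) * P.u j = PA.lam * P.u i) ∧
      ∀ j, ∑ i, P.ell i * (A i j : ℝ) = PA.lam * P.ell j := by
  have hne := SRec_nonempty P
  have hLA : 0 < ∑ i, PA.ell i * P.u i :=
    Finset.sum_pos (fun i _ => mul_pos (PA.ell_pos i) (P.u_pos i)) Finset.univ_nonempty
  have hL : 0 < ∑ i, P.ell i * P.u i :=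
    Finset.sum_pos (fun i _ => mul_pos (P.ell_pos i) (P.u_pos i)) Finset.univ_nonempty
  have hMu : act M P.u = fun i => P.lam * P.u i := by
    funext i; exact P.M_u i
  have hmul : ∀ (t : ℝ) (x : Fin d → ℝ) (B : Matrix (Fin d) (Fin d) ℤ),
      act B (fun i => t * x i) = fun i => t * act B x i := by
    intro t x B
    funext i
    simp only [act, Finset.mul_sum]
    exact Finset.sum_congr rfl fun j _ => by ring
  have h1 : act M (act A P.u) = fun i => P.lam * act A P.u i := by
    rw [← FOff_act_mul, ← hc, FOff_act_mul, hMu, hmul]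
  have h2 := eig_u P (act A P.u) h1
  obtain ⟨ν, hν⟩ : ∃ ν : ℝ, ν = ∑ j, act A P.u j := ⟨_, rfl⟩
  rw [← hν] at h2
  have h3 : ν = PA.lam := by
    have h4 : ∑ i, PA.ell i * act A P.u i = PA.lam * ∑ i, PA.ell i * P.u i := by
      simp only [act, Finset.mul_sum]
      rw [Finset.sum_comm]
      refine Finset.sum_congr rfl fun j _ => ?_
      have h5 := PA.ell_M j
      calc ∑ i, PA.ell i * ((A i j : ℝ) * P.u j) = (∑ i, PA.ell i * (A i j : ℝ)) * P.u j := by
            rw [Finset.sum_mul]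
            exact Finset.sum_congr rfl fun i _ => by ring
        _ = _ := by rw [h5]; ring
    have h6 : ∑ i, PA.ell i * act A P.u i = ν * ∑ i, PA.ell i * P.u i := by
      rw [h2, Finset.mul_sum]
      exact Finset.sum_congr rfl fun i _ => by ring
    rw [h6] at h4
    exact mul_right_cancel₀ hLA.ne' h4
  rw [h3] at h2
  have h7 := eig_u PA P.u h2
  have h8 : PA.u = P.u := by
    rw [P.u_sum] at h7
    rw [h7]
    funext i
    ring
  refine ⟨h8, fun i => congrFun h2 i, ?_⟩
  obtain ⟨t, ht⟩ := eig_ell P (fun j => ∑ i, P.ell i * (A i j : ℝ)) (by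
    intro j
    have h9 : ∀ k, ∑ i, (∑ l, P.ell l * (A l i : ℝ)) * (M i k : ℝ) =
        ∑ l, P.ell l * (((A * M) l k : ℤ) : ℝ) := by
      intro k
      simp only [Finset.sum_mul]
      rw [Finset.sum_comm]
      refine Finset.sum_congr rfl fun l _ => ?_
      rw [Matrix.mul_apply]
      push_cast
      rw [Finset.mul_sum]
      exact Finset.sum_congr rfl fun i _ => by ring
    rw [h9 j, hc]
    have h10 : ∀ l, (((M * A) l j : ℤ) : ℝ) = ∑ i, (M l i : ℝ) * (A i j : ℝ) := by
      intro l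
      rw [Matrix.mul_apply]
      push_cast
      rfl
    simp only [h10, Finset.mul_sum]
    rw [Finset.sum_comm]
    refine Finset.sum_congr rfl fun i _ => ?_
    have h11 := P.ell_M i
    calc ∑ l, P.ell l * ((M l i : ℝ) * (A i j : ℝ)) =
        (∑ l, P.ell l * (M l i : ℝ)) * (A i j : ℝ) := by
          rw [Finset.sum_mul]
          exact Finset.sum_congr rfl fun i _ => by ring
      _ = _ := by rw [h11]; ring)
  have h12 : t = PA.lam := by
    have h13 : ∑ j, (∑ i, P.ell i * (A i j : ℝ)) * P.u j = t * ∑ i, P.ell i * P.u i := by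
      simp only [ht, Finset.mul_sum]
      exact Finset.sum_congr rfl fun i _ => by ring
    have h14 : ∑ j, (∑ i, P.ell i * (A i j : ℝ)) * P.u j = ∑ i, P.ell i * act A P.u i := by
      simp only [act, Finset.mul_sum, Finset.sum_mul]
      rw [Finset.sum_comm]
      exact Finset.sum_congr rfl fun i _ => Finset.sum_congr rfl fun j _ => by ring
    have h15 : ∑ i, P.ell i * act A P.u i = PA.lam * ∑ i, P.ell i * P.u i := by
      rw [h2, Finset.mul_sum]
      exact Finset.sum_congr rfl fun i _ => by ring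
    rw [h14, h15] at h13
    exact (mul_right_cancel₀ hL.ne' h13).symm
  intro j
  have := ht j
  rw [this, h12]

end Pool.Agent.Q132.PC
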