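import Pool.Agent.H812R2.PI.TKron

/-!
Uniform equidistribution of a minimal rotation: closed null sets are rarely visited.
-/

set_option autoImplicit false

namespace Pool.Agent.Q132.PC
open Pool.Agent.H812R2.PI
open Filter Topology MeasureTheory UnitAddTorus
open scoped BigOperators NNReal

theorem fourier_ne {m : ℕ} (k : Fin m → ℤ) (hk : k ≠ 0) : ∃ z : Torus m, mFourier k z ≠ 1 := by
  obtain ⟨i, hi⟩ := Function.ne_iff.1 hk
  have hi' : k i ≠ 0 := hi
  refine ⟨Pi.single i (((1 / (2 * (k i : ℝ)) : ℝ)) : UnitAddCircle), ?_⟩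
  have h1 : mFourier k (Pi.single i (((1 / (2 * (k i : ℝ)) : ℝ)) : UnitAddCircle)) =
      fourier (k i) (((1 / (2 * (k i : ℝ)) : ℝ)) : UnitAddCircle) := by
    simp only [mFourier, ContinuousMap.coe_mk]
    rw [Finset.prod_eq_single i]
    · rw [Pi.single_eq_same]
    · intro j _ hj
      rw [Pi.single_eq_of_ne hj, fourier_apply]
      simp
    · intro h
      exact absurd (Finset.mem_univ i) h
  rw [h1, fourier_coe_apply]
  have h2 : (2 * Real.pi * Complex.I * (k i : ℂ) * (((1 / (2 * (k i : ℝ)) : ℝ)) : ℂ) / (1 : ℝ)) =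
      Real.pi * Complex.I := by
    have h3 : ((k i : ℤ) : ℂ) ≠ 0 := by exact_mod_cast hi'
    push_cast
    field_simp
  rw [h2, Complex.exp_pi_mul_I]
  norm_num

theorem minimal_fourier {m : ℕ} {γ : Torus m} (hγ : MinimalTranslation γ) (k : Fin m → ℤ)
    (hk : k ≠ 0) : mFourier k γ ≠ 1 := by
  intro h
  obtain ⟨z, hz⟩ := fourier_ne k hk
  apply hz
  have h1 : Set.EqOn (fun z : Torus m => mFourier k z) (fun _ => (1 : ℂ))
      {z : Torus m | ∃ n : ℕ, z = 0 + n • γ} := by
    rintro _ ⟨n, rfl⟩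
    simp only
    rw [TKron_nsmul, h, one_pow, mul_one]
    simp [mFourier]
  have h2 := Continuous.ext_on (hγ 0) (mFourier k).continuous continuous_const h1
  exact congrFun h2 z

theorem unif_equi {m : ℕ} {γ : Torus m} (hγ : MinimalTranslation γ) (f : C(Torus m, ℂ)) {ε : ℝ}
    (hε : 0 < ε) : ∃ n₀ : ℕ, ∀ n ≥ n₀, ∀ y : Torus m, ‖TKron_L y γ n f‖ < ε := by
  have hf := CompactSpace.uniformContinuous_of_continuous f.continuous
  obtain ⟨δ, hδ, hd⟩ := Metric.uniformContinuous_iff.1 hf (ε / 2) (by linarith)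
  obtain ⟨T, -, hT⟩ := (isCompact_univ (X := Torus m)).elim_nhds_subcover (fun c => Metric.ball c δ)
    (fun c _ => Metric.ball_mem_nhds c hδ)
  have h1 : ∀ᶠ n : ℕ in atTop, ∀ c ∈ T, ‖TKron_L c γ n f‖ < ε / 2 := by
    rw [eventually_all_finset]
    intro c _
    have h2 := TKron_tendsto c γ (minimal_fourier hγ) f
    have h3 := (tendsto_order.1 (tendsto_zero_iff_norm_tendsto_zero.1 h2)).2 (ε / 2) (by linarith)
    exact h3
  obtain ⟨n₀, hn₀⟩ := eventually_atTop.1 h1
  refine ⟨n₀, fun n hn y => ?_⟩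
  obtain ⟨c, hc, hyc⟩ := Set.mem_iUnion₂.1 (hT (Set.mem_univ y))
  have h4 : ‖TKron_L y γ n f - TKron_L c γ n f‖ ≤ ε / 2 := by
    unfold TKron_L
    rw [sub_sub_sub_cancel_right, ← sub_div, ← Finset.sum_sub_distrib, norm_div]
    have h5 : ‖(n : ℂ) + 1‖ = (n : ℝ) + 1 := by
      have : (n : ℂ) + 1 = ((n + 1 : ℕ) : ℂ) := by push_cast; ring
      rw [this, Complex.norm_natCast]; push_cast; ring
    rw [h5, div_le_iff₀ (by positivity)]
    calc _ ≤ ∑ j ∈ Finset.range (n + 1), ‖f (y + j • γ) - f (c + j • γ)‖ := norm_sum_le _ _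
      _ ≤ ∑ j ∈ Finset.range (n + 1), ε / 2 := by
          apply Finset.sum_le_sum
          intro j _
          have h6 := hd (a := y + j • γ) (b := c + j • γ) (by
            rw [dist_add_right]; exact Metric.mem_ball.1 hyc)
          rw [dist_eq_norm] at h6
          exact h6.le
      _ = ε / 2 * (n + 1) := by
          rw [Finset.sum_const, Finset.card_range, nsmul_eq_mul]
          push_cast
          ring
  have h7 := hn₀ n hn c hc
  calc ‖TKron_L y γ n f‖ = ‖(TKron_L y γ n f - TKron_L c γ n f) + TKron_L c γ n f‖ := by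
        rw [sub_add_cancel]
    _ ≤ _ := norm_add_le _ _
    _ < ε := by linarith

open Classical in
/-- neighbourhoods of closed null sets are rarely visited -/
theorem rare {m : ℕ} {γ : Torus m} (hγ : MinimalTranslation γ) {C : Set (Torus m)}
    (hC : IsClosed C) (h0 : volume C = 0) {ε : ℝ} (hε : 0 < ε) :
    ∃ δ : ℝ, 0 < δ ∧ ∃ n₀ : ℕ, ∀ n ≥ n₀, ∀ y : Torus m,
      (((Finset.range n).filter (fun j => y + j • γ ∈ Metric.thickening δ C)).card : ℝ) ≤ ε * n := by
  have h1 := tendsto_measure_cthickening_of_isClosed (μ := (volume : Measure (Torus m)))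
    ⟨1, one_pos, measure_ne_top _ _⟩ hC
  rw [h0] at h1
  have h2 : ∀ᶠ r in 𝓝 (0 : ℝ), volume (Metric.cthickening r C) < ENNReal.ofReal (ε / 4) :=
    (tendsto_order.1 h1).2 _ (by simpa using hε)
  obtain ⟨r, hr, hrr⟩ := Metric.eventually_nhds_iff.1 h2
  obtain ⟨δ, hδ, hδr⟩ : ∃ δ : ℝ, 0 < δ ∧ 2 * δ < r := ⟨r / 4, by linarith, by linarith⟩
  have h3 : volume (Metric.cthickening (2 * δ) C) < ENNReal.ofReal (ε / 4) := by
    apply hrr
    rw [Real.dist_eq, sub_zero, abs_of_pos (by linarith)]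
    exact hδr
  set g := thickenedIndicator hδ (Metric.thickening δ C) with hg
  let f : C(Torus m, ℂ) := ⟨fun x => (((g x : ℝ≥0) : ℝ) : ℂ), by
    exact Complex.continuous_ofReal.comp (NNReal.continuous_coe.comp g.continuous)⟩
  have hsub : Metric.thickening δ (Metric.thickening δ C) ⊆ Metric.cthickening (2 * δ) C := by
    refine (Metric.thickening_thickening_subset δ δ C).trans ?_
    rw [← two_mul]
    exact Metric.thickening_subset_cthickening _ _
  have hint : ‖∫ x, f x‖ ≤ ε / 4 := by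
    have h4 : ∀ x, ‖f x‖ ≤ (Metric.cthickening (2 * δ) C).indicator (fun _ => (1 : ℝ)) x := by
      intro x
      have e : ‖f x‖ = ((g x : ℝ≥0) : ℝ) := by
        show ‖(((g x : ℝ≥0) : ℝ) : ℂ)‖ = _
        rw [Complex.norm_real, Real.norm_of_nonneg (g x).coe_nonneg]
      rw [e]
      by_cases hx : x ∈ Metric.cthickening (2 * δ) C
      · rw [Set.indicator_of_mem hx]
        exact_mod_cast thickenedIndicator_le_one hδ _ x
      · rw [Set.indicator_of_notMem hx]
        have : g x = 0 := thickenedIndicator_zero hδ _ (fun h => hx (hsub h))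
        rw [this]
        simp
    calc ‖∫ x, f x‖ ≤ ∫ x, ‖f x‖ := norm_integral_le_integral_norm _
      _ ≤ ∫ x, (Metric.cthickening (2 * δ) C).indicator (fun _ => (1 : ℝ)) x := by
          refine integral_mono_of_nonneg (Eventually.of_forall fun x => norm_nonneg _) ?_
            (Eventually.of_forall h4)
          exact (integrable_const (1 : ℝ)).indicator Metric.isClosed_cthickening.measurableSet
      _ = (volume (Metric.cthickening (2 * δ) C)).toReal := by
          rw [integral_indicator_const _ Metric.isClosed_cthickening.measurableSet]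
          simp [Measure.real]
      _ ≤ ε / 4 := by
          exact ENNReal.toReal_le_of_le_ofReal (by linarith) h3.le
  obtain ⟨n₀, hn₀⟩ := unif_equi hγ f (ε := ε / 4) (by linarith)
  refine ⟨δ, hδ, n₀ + 1, fun n hn y => ?_⟩
  obtain ⟨k, rfl⟩ : ∃ k, n = k + 1 := ⟨n - 1, by omega⟩
  have h5 := hn₀ k (by omega) y
  have h6 : ‖(∑ j ∈ Finset.range (k + 1), f (y + j • γ)) / ((k : ℂ) + 1)‖ ≤ ε / 2 := by
    have h7 : (∑ j ∈ Finset.range (k + 1), f (y + j • γ)) / ((k : ℂ) + 1) =
        TKron_L y γ k f + ∫ x, f x := by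
      unfold TKron_L
      ring
    rw [h7]
    exact (norm_add_le _ _).trans (by linarith)
  have h8 : ‖(k : ℂ) + 1‖ = (k : ℝ) + 1 := by
    have : (k : ℂ) + 1 = ((k + 1 : ℕ) : ℂ) := by push_cast; ring
    rw [this, Complex.norm_natCast]; push_cast; ring
  rw [norm_div, h8, div_le_iff₀ (by positivity)] at h6
  have h9 : (((Finset.range (k + 1)).filter (fun j => y + j • γ ∈ Metric.thickening δ C)).card : ℝ)
      ≤ ∑ j ∈ Finset.range (k + 1), ((g (y + j • γ) : ℝ≥0) : ℝ) := by
    rw [Finset.card_filter]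
    push_cast
    apply Finset.sum_le_sum
    intro j _
    split_ifs with h
    · have : g (y + j • γ) = 1 := thickenedIndicator_one hδ _ h
      rw [this]
      simp
    · exact (g (y + j • γ)).coe_nonneg
  have h10 : ‖∑ j ∈ Finset.range (k + 1), f (y + j • γ)‖ =
      ∑ j ∈ Finset.range (k + 1), ((g (y + j • γ) : ℝ≥0) : ℝ) := by
    have : ∑ j ∈ Finset.range (k + 1), f (y + j • γ) =
        ((∑ j ∈ Finset.range (k + 1), ((g (y + j • γ) : ℝ≥0) : ℝ) : ℝ) : ℂ) := by
      push_cast
      rfl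
    rw [this, Complex.norm_real, Real.norm_of_nonneg (Finset.sum_nonneg fun j _ =>
      (g (y + j • γ)).coe_nonneg)]
  rw [h10] at h6
  push_cast
  have : 0 ≤ (k : ℝ) + 1 := by positivity
  nlinarith

end Pool.Agent.Q132.PC
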