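import Pool.Agent.Q132.PC.Maj
import Pool.Agent.TH100.Pisot.Pow

/-!
Compositions which contain a substitution with all coincidences.
-/

set_option autoImplicit false

namespace Pool.Agent.Q132.PC
open Pool.Agent.H812R2.PI Pool.Agent.TH100.Pisot
open Filter Topology
open scoped BigOperators
variable {d : ℕ}

theorem semi_core {m : ℕ} {M : Matrix (Fin (m+1)) (Fin (m+1)) ℤ} (P : PD M)
    (hdet : IsUnit M.det) (BF : ℝ) (hBF0 : 0 ≤ BF) :
    ∃ D : ℝ, 0 ≤ D ∧ 2 * BF ≤ (1 - P.rho) * D ∧ ∃ n₁ : ℕ,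
      ∀ l : List (Fin (m+1) → List (Fin (m+1))), (∀ ρ ∈ l, Fac P BF ρ) → ∀ N, n₁ ≤ N → 1 ≤ N →
        inc (compList l) = M ^ N → P.Hit (compList l) D → SemiConjToral (compList l) := by
  have hr : 0 < 1 - P.rho := by linarith [P.rho_lt]
  obtain ⟨BS, hBS⟩ : ∃ BS : ℝ, BS = BF / (1 - P.rho) + ∑ a, P.N (rv (ev a)) := ⟨_, rfl⟩
  have hBS0 : 0 ≤ BS := by
    rw [hBS]
    exact add_nonneg (div_nonneg hBF0 hr.le) (Finset.sum_nonneg fun a _ => P.N_nonneg _)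
  obtain ⟨D, hD⟩ : ∃ D : ℝ, D = (16 * P.c ^ 2 + 4) * BS + 2 * BF / (1 - P.rho) := ⟨_, rfl⟩
  have hq1 : 0 ≤ 2 * BF / (1 - P.rho) := div_nonneg (by linarith) hr.le
  have hq2 : 0 ≤ (16 * P.c ^ 2 + 4) * BS := mul_nonneg (by positivity) hBS0
  have hD0 : 0 ≤ D := by rw [hD]; linarith
  have hDBS : (16 * P.c ^ 2 + 4) * BS ≤ D := by rw [hD]; linarith
  have hDBF : 2 * BF ≤ (1 - P.rho) * D := by
    have h1 : 2 * BF / (1 - P.rho) ≤ D := by rw [hD]; linarith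
    rw [div_le_iff₀ hr] at h1
    linarith
  have hrho : ∀ᶠ n : ℕ in Filter.atTop, P.rho ^ n ≤ 1 / 2 := by
    have h := tendsto_pow_atTop_nhds_zero_of_lt_one P.rho_nonneg P.rho_lt
    exact (h.eventually (gt_mem_nhds (show (0:ℝ) < 1/2 by norm_num))).mono fun n hn => hn.le
  obtain ⟨n1, hn1⟩ := Filter.eventually_atTop.mp hrho
  refine ⟨D, hD0, hDBF, n1, fun l hl N hN hN1 hinc hhit => ?_⟩
  have hpre : ∀ a j, P.N (rv (ab ((compList l a).take j))) ≤ BS := by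
    intro a j
    refine (fac_prefix P _ BF hBF0 hl a j).trans ?_
    rw [hBS]
    have := Finset.single_le_sum (f := fun a => P.N (rv (ev a)))
      (fun a _ => P.N_nonneg _) (Finset.mem_univ a)
    linarith
  refine JFin_semi (P.pow _ hN1) (by rw [Matrix.det_pow]; exact hdet.pow _) BS D hBS0
    hDBS (hn1 _ hN) 1 le_rfl _ (by rw [pow_one]; exact hinc) hpre ?_
  intro a b v hv hO
  exact hhit a b v hv hO

theorem hit_extend {M : Matrix (Fin d) (Fin d) ℤ} (P : PD M) (BF D : ℝ) (hD0 : 0 ≤ D)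
    (hD : 2 * BF ≤ (1 - P.rho) * D) (l₁ l l₂ : List (Fin d → List (Fin d)))
    (h1 : ∀ ρ ∈ l₁, Fac P BF ρ) (h2 : ∀ ρ ∈ l₂, Fac P BF ρ) (hhit : P.Hit (compList l) D) :
    P.Hit (compList (l₁ ++ l ++ l₂)) D := by
  rw [compList_append, compList_append, comp_assoc]
  refine hit_comp_right P _ _ (fac_ne_nil P BF l₁ h1) D ?_
  exact hit_comp_left P _ _ D D (fac_ovTo P l₂ BF D hD0 h2 hD) hhit

theorem fac_of_subset {M : Matrix (Fin d) (Fin d) ℤ} (P : PD M) {B : ℝ} (hB : 0 ≤ B)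
    {ρ : Fin d → List (Fin d)} (h : ∃ i, 1 ≤ i ∧ ρ ∈ SubSet P.u (M ^ i) B) :
    Fac P (P.c * B) ρ := by
  obtain ⟨i, hi, hρ⟩ := h
  exact ⟨⟨i, hi, hρ.1⟩, fun a k => GFin_dis_N P B hB _ (hρ.2 a k)⟩

theorem compList_single (S : Fin d → List (Fin d)) : compList [S] = S := by
  funext a
  simp [compList, comp, ext]

/-- **Majority theorem.** -/
theorem majority {m : ℕ} (M : Matrix (Fin (m+1)) (Fin (m+1)) ℤ)
    (hnn : ∀ i j, 0 ≤ M i j) (hM : PisotMat M) (lam : ℝ) (hlam : 1 < lam)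
    (u : Fin (m+1) → ℝ) (hu : ∀ i, ∑ j, (M i j : ℝ) * u j = lam * u i)
    (husum : ∑ i, u i = 1) (B : ℝ) (hB : 0 ≤ B) :
    ∃ δ : ℝ, 0 < δ ∧ ∀ σ : Fin (m+1) → List (Fin (m+1)), inc σ = M → SemiConjToral σ →
      ∀ η : ℝ, 0 < η → ∃ n₀ : ℕ, ∀ n ≥ n₀, ∀ S ∈ SubSet u (M ^ n) B, Maj δ η S (iter σ n) →
        ∀ l₁ l₂ : List (Fin (m+1) → List (Fin (m+1))),
          (∀ ρ ∈ l₁ ++ l₂, ∃ i, 1 ≤ i ∧ ρ ∈ SubSet u (M ^ i) B) →
          PisotMat (inc (compList (l₁ ++ [S] ++ l₂))) ∧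
          SemiConjToral (compList (l₁ ++ [S] ++ l₂)) := by
  obtain ⟨P, rfl, rfl⟩ := exists_PD M hnn hM lam hlam u hu husum
  have hdet : IsUnit M.det := by
    rcases hM.2.1 with h | h <;> rw [h] <;> simp
  have hBF0 : 0 ≤ P.c * B := mul_nonneg P.c_pos.le hB
  obtain ⟨D, hD0, hD, n₁, hsemi⟩ := semi_core P hdet (P.c * B) hBF0
  obtain ⟨δ, hδ, hmaj⟩ := maj_hit P hnn D
  refine ⟨δ, hδ, fun σ hσ hS η hη => ?_⟩
  obtain ⟨n₀, hn₀⟩ := hmaj σ hσ hS η hη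
  refine ⟨max (max n₀ n₁) 1, fun n hn S hSS hagree l₁ l₂ hl => ?_⟩
  have hn0 : n₀ ≤ n := le_trans (le_trans (le_max_left _ _) (le_max_left _ _)) hn
  have hn1 : n₁ ≤ n := le_trans (le_trans (le_max_right _ _) (le_max_left _ _)) hn
  have h1n : 1 ≤ n := le_trans (le_max_right _ _) hn
  have hhit := hn₀ n hn0 S hSS.1 hagree
  have hl1 : ∀ ρ ∈ l₁, Fac P (P.c * B) ρ := fun ρ h =>
    fac_of_subset P hB (hl ρ (List.mem_append_left _ h))
  have hl2 : ∀ ρ ∈ l₂, Fac P (P.c * B) ρ := fun ρ h =>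
    fac_of_subset P hB (hl ρ (List.mem_append_right _ h))
  have hfacS : Fac P (P.c * B) S := fac_of_subset P hB ⟨n, h1n, hSS⟩
  have hall : ∀ ρ ∈ l₁ ++ [S] ++ l₂, Fac P (P.c * B) ρ := by
    intro ρ h
    rw [List.mem_append, List.mem_append] at h
    rcases h with (h | h) | h
    · exact hl1 ρ h
    · rw [List.mem_singleton.1 h]
      exact hfacS
    · exact hl2 ρ h
  obtain ⟨N1, -, hN1⟩ := fac_inc P _ l₁ hl1
  obtain ⟨N2, -, hN2⟩ := fac_inc P _ l₂ hl2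
  have hinc : inc (compList (l₁ ++ [S] ++ l₂)) = M ^ (N1 + n + N2) := by
    rw [compList_append, compList_append, inc_comp, inc_comp, hN1, hN2, compList_single, hSS.1,
      ← pow_add, ← pow_add]
  refine ⟨?_, ?_⟩
  · rw [hinc]
    exact pisotMat_pow M hnn hM _ (by omega)
  · refine hsemi _ hall (N1 + n + N2) (by omega) (by omega) hinc ?_
    exact hit_extend P _ D hD0 hD l₁ [S] l₂ hl1 hl2 (by rw [compList_single]; exact hhit)

end Pool.Agent.Q132.PC
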