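import Pool.Agent.Q132.PC.ComNorm
import Pool.Agent.Q132.PC.Semi
import Pool.Agent.Q132.PC.PisAdm

/-!
Compositions of substitutions with commuting matrices.
-/

set_option autoImplicit false

namespace Pool.Agent.Q132.PC
open Pool.Agent.H812R2.PI Pool.Agent.TH100.Pisot
open Filter Topology
open scoped BigOperators
variable {d : ℕ}

/-- a substitution whose matrix belongs to the family, with bounded beginnings -/
structure FacQ (Q : Com d) (r₀ B : ℝ) (S : Fin d → List (Fin d)) : Prop where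
  adm : ∃ lam rho, Q.Adm (inc S) lam rho ∧ rho ≤ r₀
  pre : ∀ a k, Q.N (rv (ab ((S a).take k))) ≤ B
  det : IsUnit (inc S).det

theorem fam_adm (Q : Com d) (r₀ B : ℝ) (hr0 : 0 ≤ r₀) (l : List (Fin d → List (Fin d)))
    (hne : l ≠ []) (hl : ∀ S ∈ l, FacQ Q r₀ B S) :
    ∃ lam rho, Q.Adm (inc (compList l)) lam rho ∧ rho ≤ r₀ ^ l.length := by
  induction l with
  | nil => exact absurd rfl hne
  | cons S l ih =>
    obtain ⟨lam, rho, hadm, hrho⟩ := (hl S (List.mem_cons_self ..)).adm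
    rcases eq_or_ne l [] with h0 | h0
    · subst h0
      rw [compList_single]
      exact ⟨lam, rho, hadm, by simpa using hrho⟩
    · obtain ⟨lam', rho', hadm', hrho'⟩ := ih h0 (fun T hT => hl T (List.mem_cons_of_mem _ hT))
      refine ⟨lam * lam', rho * rho', ?_, ?_⟩
      · show Q.Adm (inc (comp S (compList l))) _ _
        rw [inc_comp]
        exact hadm.mul hadm'
      · rw [List.length_cons, pow_succ']
        exact mul_le_mul hrho hrho' hadm'.rho_nonneg hr0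

theorem fam_det (Q : Com d) (r₀ B : ℝ) (l : List (Fin d → List (Fin d)))
    (hl : ∀ S ∈ l, FacQ Q r₀ B S) : IsUnit (inc (compList l)).det := by
  induction l with
  | nil =>
    show IsUnit (inc (fun a : Fin d => [a])).det
    rw [JComp_inc_id, Matrix.det_one]
    exact isUnit_one
  | cons S l ih =>
    show IsUnit (inc (comp S (compList l))).det
    rw [inc_comp, Matrix.det_mul]
    exact (hl S (List.mem_cons_self ..)).det.mul
      (ih fun T hT => hl T (List.mem_cons_of_mem _ hT))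

section fixed
variable {A₀ : Matrix (Fin d) (Fin d) ℤ} {lam₀ rho₀ : ℝ}

theorem fam_pre (Q : Com d) (h₀ : Q.Adm A₀ lam₀ rho₀) (r₀ B : ℝ) (hB0 : 0 ≤ B) (hr0 : 0 ≤ r₀)
    (hr1 : r₀ < 1)
    (l : List (Fin d → List (Fin d))) (hl : ∀ S ∈ l, FacQ Q r₀ B S) (a : Fin d) :
    ∀ k, Q.N (rv (ab ((compList l a).take k))) ≤ B / (1 - r₀) + Q.N (rv (ev a)) := by
  have hr : 0 < 1 - r₀ := by linarith
  have hBr : 0 ≤ B / (1 - r₀) := div_nonneg hB0 hr.le
  have hNe := Q.N_nonneg (rv (ev a))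
  have hN0 : Q.N 0 = 0 := N_zero (Q.toPD h₀)
  induction l with
  | nil =>
    intro k
    simp only [compList]
    cases k with
    | zero => simp only [List.take_zero, ab_nil, rv_zero, hN0]; positivity
    | succ k => simp only [List.take_succ_cons, List.take_nil, ab_single]; linarith
  | cons τ l ih =>
    have ih' := ih (fun τ' h => hl τ' (List.mem_cons_of_mem _ h))
    obtain ⟨⟨lam, rho, hadm, hrho⟩, h2, -⟩ := hl τ (List.mem_cons_self ..)
    intro k
    simp only [compList, comp]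
    rcases DBd_take_ext τ (compList l a) k with h | ⟨i, j, b, h⟩
    · rw [h, ab_nil, rv_zero, hN0]; positivity
    · rw [h, ab_append, ab_ext, rv_add, rv_mulVec]
      have h3 := Q.N_add (act (inc τ) (rv (ab ((compList l a).take i))))
        (rv (ab ((τ b).take j)))
      have h4 := hadm.N_act (rv (ab ((compList l a).take i)))
      have h4' : rho * Q.N (rv (ab ((compList l a).take i))) ≤
          r₀ * Q.N (rv (ab ((compList l a).take i))) :=
        mul_le_mul_of_nonneg_right hrho (Q.N_nonneg _)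
      have h5 := mul_le_mul_of_nonneg_left (ih' i) hr0
      have h6 := h2 b j
      have h7 : r₀ * (B / (1 - r₀)) + B = B / (1 - r₀) := by
        field_simp; ring
      have h8 : r₀ * Q.N (rv (ev a)) ≤ Q.N (rv (ev a)) := by
        nlinarith
      linarith

theorem fam_ne_nil (Q : Com d) (r₀ B : ℝ)
    (l : List (Fin d → List (Fin d))) (hl : ∀ S ∈ l, FacQ Q r₀ B S) (a : Fin d) :
    compList l a ≠ [] := by
  induction l with
  | nil => simp [compList]
  | cons τ l ih =>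
    have ih' := ih (fun τ' h => hl τ' (List.mem_cons_of_mem _ h))
    obtain ⟨c, w, hcw⟩ := List.exists_cons_of_ne_nil ih'
    obtain ⟨⟨lam, rho, hadm, hrho⟩, h2, -⟩ := hl τ (List.mem_cons_self ..)
    simp only [compList, comp]
    rw [hcw, ext_cons]
    intro h
    exact JList_ne_nil (Q.toPD hadm) τ rfl c (List.append_eq_nil_iff.1 h).1

theorem fac_ovTo_Q (Q : Com d) (h₀ : Q.Adm A₀ lam₀ rho₀) (r₀ B D : ℝ)
    (hD0 : 0 ≤ D) (hD : 2 * B ≤ (1 - r₀) * D) (S : Fin d → List (Fin d))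
    (hS : FacQ Q r₀ B S) : (Q.toPD h₀).OvTo S D D := by
  obtain ⟨⟨lam, rho, hadm, hrho⟩, h2, -⟩ := hS
  have h : (Q.toPD hadm).OvTo S D (rho * D + 2 * B) := ovTo_base (Q.toPD hadm) S rfl B D h2
  have h' : (Q.toPD hadm).OvTo S D D := ovTo_mono _ S D _ D h (by nlinarith)
  exact h'

theorem fam_ovTo (Q : Com d) (h₀ : Q.Adm A₀ lam₀ rho₀) (r₀ B D : ℝ)
    (hD0 : 0 ≤ D) (hD : 2 * B ≤ (1 - r₀) * D)
    (l : List (Fin d → List (Fin d))) (hl : ∀ S ∈ l, FacQ Q r₀ B S) :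
    (Q.toPD h₀).OvTo (compList l) D D := by
  induction l with
  | nil => exact ovTo_id _ D
  | cons τ l ih =>
    have ih' := ih (fun τ' h => hl τ' (List.mem_cons_of_mem _ h))
    exact ovTo_comp _ τ (compList l) D D D ih'
      (fac_ovTo_Q Q h₀ r₀ B D hD0 hD τ (hl τ (List.mem_cons_self ..)))

theorem fam_hit_extend (Q : Com d) (h₀ : Q.Adm A₀ lam₀ rho₀) (r₀ B D : ℝ)
    (hD0 : 0 ≤ D) (hD : 2 * B ≤ (1 - r₀) * D)
    (l₁ l l₂ : List (Fin d → List (Fin d)))
    (h1 : ∀ S ∈ l₁, FacQ Q r₀ B S) (h2 : ∀ S ∈ l₂, FacQ Q r₀ B S)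
    (hhit : (Q.toPD h₀).Hit (compList l) D) :
    (Q.toPD h₀).Hit (compList (l₁ ++ l ++ l₂)) D := by
  rw [compList_append, compList_append, comp_assoc]
  refine hit_comp_right _ _ _ (fam_ne_nil Q r₀ B l₁ h1) D ?_
  exact hit_comp_left _ _ _ D D (fam_ovTo Q h₀ r₀ B D hD0 hD l₂ h2) hhit

end fixed

/-- long compositions with all coincidences -/
theorem fam_semi {m : ℕ} {A₀ : Matrix (Fin (m+1)) (Fin (m+1)) ℤ} {lam₀ rho₀ : ℝ}
    (Q : Com (m+1)) (h₀ : Q.Adm A₀ lam₀ rho₀) (r₀ B : ℝ)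
    (hB0 : 0 ≤ B) (hr0 : 0 ≤ r₀) (hr1 : r₀ < 1) :
    ∃ D : ℝ, 0 ≤ D ∧ 2 * B ≤ (1 - r₀) * D ∧ ∃ n₁ : ℕ,
      ∀ l : List (Fin (m+1) → List (Fin (m+1))), l ≠ [] → (∀ S ∈ l, FacQ Q r₀ B S) →
        n₁ ≤ l.length → (Q.toPD h₀).Hit (compList l) D → SemiConjToral (compList l) := by
  have hr : 0 < 1 - r₀ := by linarith
  obtain ⟨BS, hBS⟩ : ∃ BS : ℝ, BS = B / (1 - r₀) + ∑ a, Q.N (rv (ev a)) := ⟨_, rfl⟩
  have hBS0 : 0 ≤ BS := by
    rw [hBS]
    exact add_nonneg (div_nonneg hB0 hr.le) (Finset.sum_nonneg fun a _ => Q.N_nonneg _)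
  obtain ⟨D, hD⟩ : ∃ D : ℝ, D = (16 * Q.c ^ 2 + 4) * BS + 2 * B / (1 - r₀) := ⟨_, rfl⟩
  have hq1 : 0 ≤ 2 * B / (1 - r₀) := div_nonneg (by linarith) hr.le
  have hq2 : 0 ≤ (16 * Q.c ^ 2 + 4) * BS := mul_nonneg (by positivity) hBS0
  have hD0 : 0 ≤ D := by rw [hD]; linarith
  have hDBS : (16 * Q.c ^ 2 + 4) * BS ≤ D := by rw [hD]; linarith
  have hDB : 2 * B ≤ (1 - r₀) * D := by
    have h1 : 2 * B / (1 - r₀) ≤ D := by rw [hD]; linarith
    rw [div_le_iff₀ hr] at h1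
    linarith
  have hrho : ∀ᶠ n : ℕ in Filter.atTop, r₀ ^ n ≤ 1 / 2 := by
    have h := tendsto_pow_atTop_nhds_zero_of_lt_one hr0 hr1
    exact (h.eventually (gt_mem_nhds (show (0:ℝ) < 1/2 by norm_num))).mono fun n hn => hn.le
  obtain ⟨n1, hn1⟩ := Filter.eventually_atTop.mp hrho
  refine ⟨D, hD0, hDB, n1, fun l hne hl hlen hhit => ?_⟩
  obtain ⟨lam, rho, hadm, hrho⟩ := fam_adm Q r₀ B hr0 l hne hl
  have hpre : ∀ a j, (Q.toPD hadm).N (rv (ab ((compList l a).take j))) ≤ BS := by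
    intro a j
    refine (fam_pre Q h₀ r₀ B hB0 hr0 hr1 l hl a j).trans ?_
    rw [hBS]
    have := Finset.single_le_sum (f := fun a => Q.N (rv (ev a)))
      (fun a _ => Q.N_nonneg _) (Finset.mem_univ a)
    linarith
  exact JFin_semi (Q.toPD hadm) (fam_det Q r₀ B l hl) BS D hBS0 hDBS
    (hrho.trans (hn1 _ hlen)) 1 le_rfl _ (pow_one _).symm hpre hhit

end Pool.Agent.Q132.PC
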