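import Pool.Agent.Q132.PC.Pair
import Pool.Agent.TH100.Pisot.Absorb

/-!
Majority: a substitution which agrees with `σ^n` in more than half of the edges has all
coincidences, if `σ` satisfies the Pisot substitution conjecture.
-/

set_option autoImplicit false

namespace Pool.Agent.Q132.PC
open Pool.Agent.H812R2.PI Pool.Agent.TH100.Pisot
open Filter Topology
open scoped BigOperators
variable {d : ℕ}

open Classical in
theorem maj_pair {S ρ : Fin d → List (Fin d)} (z : Fin d → ℤ) (a b : Fin d) (t₁ t₂ J : ℕ)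
    (h1 : t₁ + J ≤ (S a).length) (h2 : t₂ + J ≤ (S b).length) (h3 : t₂ + J ≤ (ρ b).length)
    (ht : (t₁ : ℤ) = ∑ i, z i + t₂)
    (hcnt : J + ((Finset.range J).filter (fun r => BadAt z (ρ a) (ρ b) (t₁ + r))).card <
      ((Finset.range J).filter (fun r => SameAt 0 (S a) (ρ a) (t₁ + r) (t₁ + r))).card +
      ((Finset.range J).filter (fun r => SameAt 0 (S b) (ρ b) (t₂ + r) (t₂ + r))).card) :
    ∃ e, e ∈ edges 0 (S a) ∧ e ∈ edges z (S b) := by
  set U := (Finset.range J).filter (fun r => SameAt 0 (S a) (ρ a) (t₁ + r) (t₁ + r)) with hU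
  set V := (Finset.range J).filter (fun r => SameAt 0 (S b) (ρ b) (t₂ + r) (t₂ + r)) with hV
  set W := (Finset.range J).filter (fun r => BadAt z (ρ a) (ρ b) (t₁ + r)) with hW
  have h4 : (U ∪ V).card ≤ J := by
    have h5 : U ∪ V ⊆ Finset.range J :=
      Finset.union_subset (Finset.filter_subset _ _) (Finset.filter_subset _ _)
    simpa using Finset.card_le_card h5
  have h5 := Finset.card_union_add_card_inter U V
  have h6 : W.card < (U ∩ V).card := by omega
  obtain ⟨r, hr, hrW⟩ := Finset.exists_mem_notMem_of_card_lt_card h6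
  rw [Finset.mem_inter, hU, hV, Finset.mem_filter, Finset.mem_filter, Finset.mem_range] at hr
  obtain ⟨⟨hrJ, hrU⟩, -, hrV⟩ := hr
  have hbad : ¬ BadAt z (ρ a) (ρ b) (t₁ + r) := fun h => hrW (by
    rw [hW, Finset.mem_filter, Finset.mem_range]; exact ⟨hrJ, h⟩)
  have hsame : SameAt z (ρ a) (ρ b) (t₁ + r) (t₂ + r) := by
    by_contra hcon
    exact hbad ⟨t₂ + r, by omega, by push_cast; omega, hcon⟩
  have ha : t₁ + r < (S a).length := by omega
  have hb : t₂ + r < (S b).length := by omega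
  refine ⟨(0 + ab ((S a).take (t₁ + r)), (S a)[t₁ + r]), mem_edges.2 ⟨_, ha, rfl⟩,
    mem_edges.2 ⟨_, hb, ?_⟩⟩
  obtain ⟨u1, u2⟩ := hrU
  obtain ⟨v1, v2⟩ := hrV
  obtain ⟨s1, s2⟩ := hsame
  rw [u1, zero_add, zero_add, s1, v1, zero_add]
  congr 1
  rw [← u2, ← v2, List.getElem?_eq_getElem ha, List.getElem?_eq_getElem hb] at s2
  exact Option.some_injective _ s2

open Classical in
/-- in every block with at least `δ |S a|` places of every image `S a` the words `S a` and `ρ a`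
have more than the proportion `1/2 + η` of their edges in common -/
def Maj (δ η : ℝ) (S ρ : Fin d → List (Fin d)) : Prop :=
  ∀ (a : Fin d) (p J : ℕ), p + J ≤ (S a).length → δ * (S a).length ≤ J →
    (1 / 2 + η) * J ≤
      (((Finset.range J).filter (fun r => SameAt 0 (S a) (ρ a) (p + r) (p + r))).card : ℝ)

/-- the part of `geom` which is needed, for a constant which works for all pairs -/
theorem geom_unif {M : Matrix (Fin d) (Fin d) ℤ} (P : PD M)
    (F : Finset (Fin d × Fin d × (Fin d → ℤ)))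
    (hF : ∀ t ∈ F, 0 < P.OV (0, t.1) (t.2.2, t.2.1) ∧ ¬ (t.2.2 = 0 ∧ t.1 = t.2.1)) :
    ∃ c : ℝ, 0 < c ∧ ∀ᶠ n : ℕ in atTop, ∀ t ∈ F, ∀ J : ℕ, (J : ℝ) ≤ c * P.lam ^ n →
      ∃ T : ℤ, 0 ≤ T ∧ T + J ≤ ∑ i, (M ^ n) i t.1 ∧ 0 ≤ T - ∑ i, (M ^ n).mulVec t.2.2 i ∧
        T - ∑ i, (M ^ n).mulVec t.2.2 i + J ≤ ∑ i, (M ^ n) i t.2.1 := by
  have h1 : ∀ t ∈ F, ∀ᶠ c : ℝ in 𝓝[>] 0, ∀ᶠ n : ℕ in atTop, ∀ J : ℕ, (J : ℝ) ≤ c * P.lam ^ n →
      ∃ T : ℤ, 0 ≤ T ∧ T + J ≤ ∑ i, (M ^ n) i t.1 ∧ 0 ≤ T - ∑ i, (M ^ n).mulVec t.2.2 i ∧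
        T - ∑ i, (M ^ n).mulVec t.2.2 i + J ≤ ∑ i, (M ^ n) i t.2.1 := by
    intro t ht
    obtain ⟨c, hc, n₀, hn₀⟩ := geom P t.1 t.2.1 t.2.2 (hF t ht).1 (hF t ht).2
    filter_upwards [Ioc_mem_nhdsGT hc] with c' hc'
    filter_upwards [eventually_ge_atTop n₀] with n hn J hJ
    obtain ⟨T, h1, h2, h3, h4, -⟩ := (hn₀ n hn).2 J (hJ.trans
      (mul_le_mul_of_nonneg_right hc'.2 (pow_nonneg (by linarith [P.lam_gt]) _)))
    exact ⟨T, h1, h2, h3, h4⟩
  have h2 := (eventually_all_finset F).2 h1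
  obtain ⟨c, hc, hc0⟩ := (h2.and self_mem_nhdsWithin).exists
  exact ⟨c, hc0, (eventually_all_finset F).2 hc⟩

open Classical in
theorem maj_hit {M : Matrix (Fin d) (Fin d) ℤ} (P : PD M) (hnn : ∀ i j, 0 ≤ M i j) (D : ℝ) :
    ∃ δ : ℝ, 0 < δ ∧ ∀ σ : Fin d → List (Fin d), inc σ = M → SemiConjToral σ →
      ∀ η : ℝ, 0 < η → ∃ n₀ : ℕ, ∀ n ≥ n₀, ∀ S : Fin d → List (Fin d), inc S = M ^ n →
        Maj δ η S (iter σ n) → P.Hit S D := by
  have hWfin := pairs_finite P D
  obtain ⟨F, hF⟩ : ∃ F : Finset (Fin d × Fin d × (Fin d → ℤ)),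
      F = hWfin.toFinset.filter (fun t => ¬ (t.2.2 = 0 ∧ t.1 = t.2.1)) := ⟨_, rfl⟩
  have hFmem : ∀ t, t ∈ F ↔ (P.N (rv t.2.2) ≤ D ∧ 0 < P.OV (0, t.1) (t.2.2, t.2.1)) ∧
      ¬ (t.2.2 = 0 ∧ t.1 = t.2.1) := by
    intro t
    rw [hF, Finset.mem_filter, Set.Finite.mem_toFinset]
    rfl
  obtain ⟨c, hc, hgeom⟩ := geom_unif P F (fun t ht => by
    have := (hFmem t).1 ht
    exact ⟨this.1.2, this.2⟩)
  obtain ⟨C, hC, hcol⟩ := GFin_sum_col P hnn
  refine ⟨c / (2 * C), by positivity, ?_⟩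
  intro σ hσ hS η hη
  subst hσ
  have hlam : 1 < P.lam := P.lam_gt
  have hclose : ∀ᶠ n : ℕ in atTop, ∀ t ∈ F, (((Finset.range (iter σ n t.1).length).filter
        (BadAt (((inc σ) ^ n).mulVec t.2.2) (iter σ n t.1) (iter σ n t.2.1))).card : ℝ) ≤
          (η * c / 2) * P.lam ^ n := by
    rw [eventually_all_finset]
    intro t _
    obtain ⟨n₀, hn₀⟩ := pair_close P hS t.1 t.2.1 t.2.2 (ε := η * c / 2) (by positivity)
    exact eventually_atTop.2 ⟨n₀, hn₀⟩
  have hbig : ∀ᶠ n : ℕ in atTop, 2 ≤ c * P.lam ^ n :=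
    ((tendsto_pow_atTop_atTop_of_one_lt hlam).const_mul_atTop hc).eventually_ge_atTop 2
  obtain ⟨n₀, hn₀⟩ := eventually_atTop.1 ((hgeom.and hclose).and (hbig.and (eventually_ge_atTop 1)))
  refine ⟨n₀, fun n hn S hSinc hmaj a b v hv hov => ?_⟩
  obtain ⟨⟨hg, hcl⟩, hb2, h1n⟩ := hn₀ n hn
  have hlen : ∀ e, (S e).length = (iter σ n e).length := by
    intro e
    have e1 := GBad_length hSinc e
    have e2 := GBad_length (inc_iter σ n) e
    exact_mod_cast e1.trans e2.symm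
  rw [hSinc]
  by_cases hab : v = 0 ∧ a = b
  · obtain ⟨rfl, rfl⟩ := hab
    have hne : S a ≠ [] := JList_ne_nil (P.pow n h1n) S hSinc a
    obtain ⟨x, l, hxl⟩ := List.exists_cons_of_ne_nil hne
    rw [Matrix.mulVec_zero]
    exact ⟨(0, x), by rw [hxl]; simp [edges], by rw [hxl]; simp [edges]⟩
  · have htF : (a, b, v) ∈ F := (hFmem (a, b, v)).2 ⟨⟨hv, hov⟩, hab⟩
    obtain ⟨J, hJ⟩ : ∃ J : ℕ, J = ⌊c * P.lam ^ n⌋₊ := ⟨_, rfl⟩
    have hpos : 0 ≤ c * P.lam ^ n := by linarith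
    have hJ1 : (J : ℝ) ≤ c * P.lam ^ n := by rw [hJ]; exact Nat.floor_le hpos
    have hJ2 : c * P.lam ^ n < J + 1 := by rw [hJ]; exact Nat.lt_floor_add_one _
    have hJ3 : c * P.lam ^ n / 2 ≤ J := by linarith
    obtain ⟨T, hT0, hT1, hT2, hT3⟩ := hg (a, b, v) htF J hJ1
    simp only at hT1 hT2 hT3
    have la := GBad_length hSinc a
    have lb := GBad_length hSinc b
    rw [← la] at hT1
    rw [← lb] at hT3
    obtain ⟨t₁, ht₁⟩ := Int.eq_ofNat_of_zero_le hT0
    obtain ⟨t₂, ht₂⟩ := Int.eq_ofNat_of_zero_le hT2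
    have hl1 : t₁ + J ≤ (S a).length := by omega
    have hl2 : t₂ + J ≤ (S b).length := by omega
    have hcolS : ∀ e, ((S e).length : ℝ) ≤ C * P.lam ^ n := by
      intro e
      have h1 := GBad_length hSinc e
      have h2 : ((S e).length : ℝ) = ∑ i, (((inc σ) ^ n) i e : ℝ) := by exact_mod_cast h1
      rw [h2]
      refine le_trans ?_ (hcol n)
      apply Finset.sum_le_sum
      intro i _
      exact Finset.single_le_sum (f := fun j => (((inc σ) ^ n) i j : ℝ))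
        (fun j _ => by exact_mod_cast GFin_pow_nonneg (inc σ) hnn n i j) (Finset.mem_univ e)
    have hδ : ∀ e, c / (2 * C) * (S e).length ≤ J := by
      intro e
      calc c / (2 * C) * (S e).length ≤ c / (2 * C) * (C * P.lam ^ n) :=
            mul_le_mul_of_nonneg_left (hcolS e) (by positivity)
        _ = c * P.lam ^ n / 2 := by field_simp
        _ ≤ J := hJ3
    have hU := hmaj a t₁ J hl1 (hδ a)
    have hV := hmaj b t₂ J hl2 (hδ b)
    refine maj_pair (ρ := iter σ n) (((inc σ) ^ n).mulVec v) a b t₁ t₂ J hl1 hl2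
      (by rw [← hlen]; exact hl2) (by omega) ?_
    have hW : (((Finset.range J).filter (fun r => BadAt (((inc σ) ^ n).mulVec v) (iter σ n a)
        (iter σ n b) (t₁ + r))).card : ℝ) ≤ (η * c / 2) * P.lam ^ n := by
      refine le_trans ?_ (hcl (a, b, v) htF)
      have h5 : ((Finset.range J).filter (fun r => BadAt (((inc σ) ^ n).mulVec v) (iter σ n a)
          (iter σ n b) (t₁ + r))).card ≤ ((Finset.range (iter σ n a).length).filter
        (BadAt (((inc σ) ^ n).mulVec v) (iter σ n a) (iter σ n b))).card := by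
        refine Finset.card_le_card_of_injOn (fun r => t₁ + r) ?_ ?_
        · intro r hr
          rw [Finset.mem_coe, Finset.mem_filter, Finset.mem_range] at hr ⊢
          refine ⟨?_, hr.2⟩
          rw [← hlen]
          simp only
          omega
        · intro r _ r' _ h
          simpa using h
      exact_mod_cast h5
    have hJpos : (0 : ℝ) < J := by linarith
    have h7 : (J : ℝ) + (((Finset.range J).filter (fun r => BadAt (((inc σ) ^ n).mulVec v)
        (iter σ n a) (iter σ n b) (t₁ + r))).card : ℝ) <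
        (((Finset.range J).filter (fun r => SameAt 0 (S a) (iter σ n a) (t₁ + r)
          (t₁ + r))).card : ℝ) +
        (((Finset.range J).filter (fun r => SameAt 0 (S b) (iter σ n b) (t₂ + r)
          (t₂ + r))).card : ℝ) := by
      have h8 : (η * c / 2) * P.lam ^ n = η * (c * P.lam ^ n / 2) := by ring
      have h9 : η * (c * P.lam ^ n / 2) ≤ η * J := mul_le_mul_of_nonneg_left hJ3 hη.le
      have h10 : 0 < η * J := mul_pos hη hJpos
      linarith
    exact_mod_cast h7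

end Pool.Agent.Q132.PC
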