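import Pool.Agent.Q132.PC.Full
import Pool.Agent.Q132.PC.Equi

/-!
If the subshift is semi-conjugate to a toral translation, then a point of the subshift and its
translate by `M^n t` have almost all edges in common.
-/

set_option autoImplicit false

namespace Pool.Agent.Q132.PC
open Pool.Agent.H812R2.PI
open Filter Topology MeasureTheory
open scoped BigOperators
variable {d : ℕ}

/-- pairs of points which differ in the window -/
def Diff (L : ℕ) (q : (ℤ → Fin d) × (ℤ → Fin d)) : Prop :=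
  ∃ t ∈ Finset.Icc (-(L : ℤ)) L, q.1 t ≠ q.2 t

theorem diff_closed (L : ℕ) : IsClosed {q : (ℤ → Fin d) × (ℤ → Fin d) | Diff L q} := by
  have h : {q : (ℤ → Fin d) × (ℤ → Fin d) | Diff L q} =
      ⋃ t ∈ Finset.Icc (-(L : ℤ)) L, {q | q.1 t ≠ q.2 t} := by
    ext q
    simp [Diff]
  rw [h]
  refine Set.Finite.isClosed_biUnion (Finset.finite_toSet _) fun t _ => ?_
  have hc : Continuous (fun q : (ℤ → Fin d) × (ℤ → Fin d) => (q.1 t, q.2 t)) :=
    ((continuous_apply t).comp continuous_fst).prodMk ((continuous_apply t).comp continuous_snd)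
  exact (isClosed_discrete {r : Fin d × Fin d | r.1 ≠ r.2}).preimage hc

section
variable {σ : Fin d → List (Fin d)} {m : ℕ} {π : (ℤ → Fin d) → Torus m}

theorem cont_fst (hc : ContinuousOn π (X σ)) :
    ContinuousOn (fun q : (ℤ → Fin d) × (ℤ → Fin d) => π q.1) (X σ ×ˢ X σ) :=
  hc.comp continuous_fst.continuousOn fun _ hq => hq.1

theorem cont_snd (hc : ContinuousOn π (X σ)) :
    ContinuousOn (fun q : (ℤ → Fin d) × (ℤ → Fin d) => π q.2) (X σ ×ˢ X σ) :=
  hc.comp continuous_snd.continuousOn fun _ hq => hq.2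

theorem XX_compact : IsCompact (X σ ×ˢ X σ) := (X_compact σ).prod (X_compact σ)

/-- the points of the torus over which there are two points which differ in the window -/
def CC (σ : Fin d → List (Fin d)) {m : ℕ} (π : (ℤ → Fin d) → Torus m) (L : ℕ) : Set (Torus m) :=
  (fun q : (ℤ → Fin d) × (ℤ → Fin d) => π q.1) ''
    ((X σ ×ˢ X σ) ∩ {q | π q.1 = π q.2} ∩ {q | Diff L q})

theorem CC_closed (hc : ContinuousOn π (X σ)) (L : ℕ) : IsClosed (CC σ π L) := by
  have h1 : IsClosed ((X σ ×ˢ X σ) ∩ {q : (ℤ → Fin d) × (ℤ → Fin d) | π q.1 = π q.2}) := by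
    have h2 : ContinuousOn (fun q : (ℤ → Fin d) × (ℤ → Fin d) => (π q.1, π q.2)) (X σ ×ˢ X σ) :=
      (cont_fst hc).prodMk (cont_snd hc)
    exact h2.preimage_isClosed_of_isClosed (XX_compact (σ := σ)).isClosed
      (isClosed_diagonal (X := Torus m))
  have h3 : IsCompact ((X σ ×ˢ X σ) ∩ {q | π q.1 = π q.2} ∩ {q | Diff L q}) :=
    (XX_compact (σ := σ)).of_isClosed_subset (h1.inter (diff_closed L)) fun q hq => hq.1.1
  exact (h3.image_of_continuousOn ((cont_fst hc).mono fun q hq => hq.1.1)).isClosed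

theorem CC_sub {N : Set (Torus m)} (hN : ∀ y, y ∉ N → ∃! x, x ∈ X σ ∧ π x = y) (L : ℕ) :
    CC σ π L ⊆ N := by
  rintro _ ⟨q, ⟨⟨hq, hq1⟩, t, -, ht⟩, rfl⟩
  by_contra hcon
  obtain ⟨x, -, hx⟩ := hN _ hcon
  have h1 := hx q.1 ⟨hq.1, rfl⟩
  have h2 := hx q.2 ⟨hq.2, hq1.symm⟩
  apply ht
  rw [h1, h2]

/-- points whose images are close differ in the window only over a neighbourhood of `CC` -/
theorem near_CC (hc : ContinuousOn π (X σ)) (L : ℕ) {δ : ℝ} (hδ : 0 < δ) :
    ∃ η : ℝ, 0 < η ∧ ∀ x ∈ X σ, ∀ y ∈ X σ, dist (π x) (π y) < η → Diff L (x, y) →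
      π x ∈ Metric.thickening δ (CC σ π L) := by
  set E : Set ((ℤ → Fin d) × (ℤ → Fin d)) :=
    (X σ ×ˢ X σ) ∩ ((fun q => π q.1) ⁻¹' (Metric.thickening δ (CC σ π L))ᶜ) ∩ {q | Diff L q}
    with hE
  have hEc : IsCompact E := by
    refine (XX_compact (σ := σ)).of_isClosed_subset ?_ fun q hq => hq.1.1
    exact ((cont_fst hc).preimage_isClosed_of_isClosed (XX_compact (σ := σ)).isClosed
      Metric.isOpen_thickening.isClosed_compl).inter (diff_closed L)
  rcases Set.eq_empty_or_nonempty E with he | hne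
  · refine ⟨1, one_pos, fun x hx y hy _ hd => ?_⟩
    by_contra hcon
    have : (x, y) ∈ E := ⟨⟨⟨hx, hy⟩, hcon⟩, hd⟩
    rw [he] at this
    exact this
  · have hcd : ContinuousOn (fun q : (ℤ → Fin d) × (ℤ → Fin d) => dist (π q.1) (π q.2)) E :=
      (continuous_dist.comp_continuousOn ((cont_fst hc).prodMk (cont_snd hc))).mono
        fun q hq => hq.1.1
    obtain ⟨q, hq, hmin⟩ := hEc.exists_isMinOn hne hcd
    refine ⟨dist (π q.1) (π q.2), ?_, fun x hx y hy hxy hd => ?_⟩
    · rcases (dist_nonneg (x := π q.1) (y := π q.2)).lt_or_eq with h | h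
      · exact h
      · exfalso
        have h1 : π q.1 = π q.2 := dist_eq_zero.1 h.symm
        apply hq.1.2
        exact Metric.self_subset_thickening hδ _ ⟨q, ⟨⟨hq.1.1, h1⟩, hq.2⟩, rfl⟩
    · by_contra hcon
      have h2 := hmin (show (x, y) ∈ E from ⟨⟨⟨hx, hy⟩, hcon⟩, hd⟩)
      simp only [Set.mem_setOf_eq] at h2
      linarith
end

theorem int_zero_of_abs_lt {k : ℤ} (h : |(k : ℝ)| < 1) : k = 0 := by
  have h1 : |k| < 1 := by exact_mod_cast h
  exact Int.abs_lt_one_iff.1 h1

open Classical in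
/-- **the mismatches between a point and its translate by `M^n t` are rare** -/
theorem mismatch {σ : Fin d → List (Fin d)} (P : PD (inc σ)) (hS : SemiConjToral σ)
    (t : Fin d → ℤ) {ε : ℝ} (hε : 0 < ε) : ∃ n₀ k₀ : ℕ, ∀ n ≥ n₀, ∀ k ≥ k₀, ∀ y ∈ X σ,
      (((Finset.range k).filter (fun j : ℕ =>
        ¬ (psum y (j + len (inc σ) n t) = psum y j + ((inc σ) ^ n).mulVec t ∧
          y (j + len (inc σ) n t) = y j))).card : ℝ) ≤ ε * k := by
  obtain ⟨m, γ, hγ, π, hc, -, hsh, N, hN, huniq⟩ := hS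
  obtain ⟨K, hK0, hK⟩ := balanced P
  obtain ⟨h, hhc, hcoc, hsum, -⟩ := exists_h P K hK
  obtain ⟨L, hL⟩ := unif_agree hhc (ε := 1 / 2) (by norm_num)
  have hvol : volume (CC σ π L) = 0 := measure_mono_null (CC_sub huniq L) hN
  obtain ⟨δ, hδ, k₀, hk₀⟩ := rare hγ (CC_closed hc L) hvol hε
  obtain ⟨η, hη, hnear⟩ := near_CC hc L hδ
  have hG := GG_all P hc hsh t
  rw [mem_GG, Metric.tendsto_atTop] at hG
  obtain ⟨n₁, hn₁⟩ := hG η hη
  obtain ⟨n₂, hn₂⟩ := GGeom_rho P (P.c * P.N (rv t)) (1 / 2) (by norm_num)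
  refine ⟨max n₁ n₂, k₀, fun n hn k hk y hy => ?_⟩
  refine le_trans ?_ (hk₀ k hk (π y))
  have hsub : (Finset.range k).filter (fun j : ℕ =>
        ¬ (psum y (j + len (inc σ) n t) = psum y j + ((inc σ) ^ n).mulVec t ∧
          y (j + len (inc σ) n t) = y j)) ⊆
      (Finset.range k).filter (fun j => π y + j • γ ∈ Metric.thickening δ (CC σ π L)) := by
    intro j hj
    rw [Finset.mem_filter] at hj ⊢
    refine ⟨hj.1, ?_⟩
    have hx1 := shZ_mem hy (j : ℤ)
    have hx2 := shZ_mem hy ((j : ℤ) + len (inc σ) n t)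
    have p1 : π (shZ (j : ℤ) y) = π y + j • γ := by rw [pi_shZ hsh hy, natCast_zsmul]
    have p2 : π (shZ ((j : ℤ) + len (inc σ) n t) y) = π (shZ (j : ℤ) y) + len (inc σ) n t • γ := by
      rw [pi_shZ hsh hy, pi_shZ hsh hy, add_smul, add_assoc]
    rw [← p1]
    refine hnear _ hx1 _ hx2 ?_ ?_
    · rw [p2, dist_eq_norm, sub_add_cancel_left, norm_neg]
      have := hn₁ n (le_trans (le_max_left _ _) hn)
      rwa [dist_eq_norm, sub_zero] at this
    · by_contra hcon
      apply hj.2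
      have hagree : ∀ s : ℤ, |s| ≤ L → shZ (j : ℤ) y s = shZ ((j : ℤ) + len (inc σ) n t) y s := by
        intro s hs
        by_contra hne
        exact hcon ⟨s, Finset.mem_Icc.2 (abs_le.1 hs), hne⟩
      have h1 := hL _ hx1 _ hx2 hagree
      have h2 : ∀ i, |h (shZ (j : ℤ) y) i - h (shZ ((j : ℤ) + len (inc σ) n t) y) i| < 1 / 2 := by
        intro i
        refine lt_of_le_of_lt ?_ h1
        have := dist_le_pi_dist (h (shZ (j : ℤ) y)) (h (shZ ((j : ℤ) + len (inc σ) n t) y)) i
        rwa [Real.dist_eq] at this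
      have h3 : ∀ i, |(((inc σ) ^ n).mulVec t i : ℝ) -
          (∑ l, (((inc σ) ^ n).mulVec t l : ℝ)) * P.u i| ≤ 1 / 2 := by
        intro i
        refine (GGeom_pr P t n i).trans ?_
        have h4 := hn₂ n (le_trans (le_max_right _ _) hn)
        exact_mod_cast h4
      obtain ⟨s, hs⟩ : ∃ s : Fin d → ℤ, s = psum y (j + len (inc σ) n t) - psum y j -
        ((inc σ) ^ n).mulVec t := ⟨_, rfl⟩
      have hs0 : s = 0 := by
        funext i
        apply int_zero_of_abs_lt
        have h5 := cocycle_shZ P h hcoc y hy (j : ℤ)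
        have h6 := cocycle_shZ P h hcoc y hy ((j : ℤ) + len (inc σ) n t)
        have h7 := h2 i
        rw [h5, h6] at h7
        simp only [Pi.add_apply, PD.pr, rv] at h7
        have q1 : ∑ l, (psum y (j : ℤ) l : ℝ) = (j : ℝ) := by
          have := psum_sum y (j : ℤ)
          exact_mod_cast this
        have q2 : ∑ l, (psum y ((j : ℤ) + len (inc σ) n t) l : ℝ) =
            (j : ℝ) + ((len (inc σ) n t : ℤ) : ℝ) := by
          have := psum_sum y ((j : ℤ) + len (inc σ) n t)
          exact_mod_cast this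
        have q3 : ∑ l, (((inc σ) ^ n).mulVec t l : ℝ) = ((len (inc σ) n t : ℤ) : ℝ) := by
          rw [len]
          push_cast
          rfl
        have h8 := h3 i
        rw [q3] at h8
        rw [q1, q2] at h7
        have q4 : ((s i : ℤ) : ℝ) = (psum y ((j : ℤ) + len (inc σ) n t) i : ℝ) -
            (psum y (j : ℤ) i : ℝ) - (((inc σ) ^ n).mulVec t i : ℝ) := by
          rw [hs]
          simp only [Pi.sub_apply]
          push_cast
          ring
        rw [q4]
        rw [abs_lt] at h7 ⊢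
        rw [abs_le] at h8
        constructor <;> nlinarith [h7.1, h7.2, h8.1, h8.2]
      refine ⟨?_, ?_⟩
      · rw [hs0] at hs
        have := hs.symm
        rw [sub_eq_zero, sub_eq_iff_eq_add] at this
        rw [this, add_comm]
      · have := hagree 0 (by simp)
        simp only [shZ, zero_add] at this
        exact this.symm
  exact_mod_cast Finset.card_le_card hsub

end Pool.Agent.Q132.PC
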