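import Pool.Agent.Q132.PC.Mis

/-!
If the subshift of `σ` is semi-conjugate to a toral translation, then for every overlapping pair of
edges the images under `σ^n` have almost all edges in common where they overlap.
-/

set_option autoImplicit false

namespace Pool.Agent.Q132.PC
open Pool.Agent.H812R2.PI
open Filter Topology
open scoped BigOperators
variable {d : ℕ}

/-- the edge number `j` of the path of `w` from `0` is the edge number `j'` of the path of `w'`
from `z` -/
def SameAt (z : Fin d → ℤ) (w w' : List (Fin d)) (j j' : ℕ) : Prop :=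
  ab (w.take j) = z + ab (w'.take j') ∧ w[j]? = w'[j']?

/-- both paths have an edge at the level `j` and these edges are different -/
def BadAt (z : Fin d → ℤ) (w w' : List (Fin d)) (j : ℕ) : Prop :=
  ∃ j' : ℕ, j' < w'.length ∧ (j : ℤ) = ∑ i, z i + j' ∧ ¬ SameAt z w w' j j'

theorem block_edge {τ : Fin d → List (Fin d)} {y x : ℤ → Fin d} {c : ℤ → ℤ}
    (h : IsDesub τ y x c) {p : ℤ} {e : Fin d} (he : x p = e) (t : ℕ) (ht : t < (τ e).length) :
    ab ((τ e).take t) = psum y (c p + t) - psum y (c p) ∧ (τ e)[t] = y (c p + t) := by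
  subst he
  exact CCov_edge h p t ht

open Classical in
theorem pair_close {σ : Fin d → List (Fin d)} (P : PD (inc σ)) (hS : SemiConjToral σ)
    (a b : Fin d) (v : Fin d → ℤ) {ε : ℝ} (hε : 0 < ε) : ∃ n₀ : ℕ, ∀ n ≥ n₀,
      (((Finset.range (iter σ n a).length).filter
        (BadAt (((inc σ) ^ n).mulVec v) (iter σ n a) (iter σ n b))).card : ℝ) ≤
          ε * P.lam ^ n := by
  obtain ⟨c₀, C₀, hc₀, hC₀, hlen⟩ := length_iter_bounds P
  obtain ⟨x, hx⟩ := X_nonempty P
  obtain ⟨i, hi⟩ := letter_occurs P hx a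
  obtain ⟨i', hi'⟩ := letter_occurs P hx b
  set w₀ : Fin d → ℤ := psum x i' - psum x i with hw₀
  obtain ⟨n₀, k₀, hmis⟩ := mismatch P hS (w₀ - v) (ε := ε / C₀) (by positivity)
  obtain ⟨n₁, hn₁⟩ := len_ev_large P k₀
  refine ⟨max n₀ n₁, fun n hn => ?_⟩
  have hnn₀ : n₀ ≤ n := le_trans (le_max_left _ _) hn
  have hnn₁ : n₁ ≤ n := le_trans (le_max_right _ _) hn
  obtain ⟨y, hy, x', hx', c, k, hcut, hk⟩ := exists_image P n hx (i + i')
  have ea : x' (k + i) = a := by
    rw [← hi]
    exact hk i (by rw [Int.abs_eq_natAbs]; omega)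
  have eb : x' (k + i') = b := by
    rw [← hi']
    exact hk i' (by rw [Int.abs_eq_natAbs]; omega)
  have hcuts := psum_cuts (R := i + i') hcut hk (i := i) (j := i')
    (by rw [Int.abs_eq_natAbs]; omega) (by rw [Int.abs_eq_natAbs]; omega)
  rw [← hw₀] at hcuts
  have hp : c (k + i') - c (k + i) = len (inc σ) n w₀ := by
    rw [len, ← hcuts]
    simp only [Pi.sub_apply, Finset.sum_sub_distrib, psum_sum]
  have hm := hmis n hnn₀ (iter σ n a).length (by have := hn₁ n hnn₁ a; omega)
    (shZ (c (k + i)) y) (shZ_mem hy _)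
  have hle : (((Finset.range (iter σ n a).length).filter
      (BadAt (((inc σ) ^ n).mulVec v) (iter σ n a) (iter σ n b))).card : ℝ) ≤
      ε / C₀ * (iter σ n a).length := by
    refine le_trans ?_ hm
    have hsub : (Finset.range (iter σ n a).length).filter
        (BadAt (((inc σ) ^ n).mulVec v) (iter σ n a) (iter σ n b)) ⊆
        (Finset.range (iter σ n a).length).filter (fun j : ℕ =>
          ¬ (psum (shZ (c (k + i)) y) (j + len (inc σ) n (w₀ - v)) =
              psum (shZ (c (k + i)) y) j + ((inc σ) ^ n).mulVec (w₀ - v) ∧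
            shZ (c (k + i)) y (j + len (inc σ) n (w₀ - v)) = shZ (c (k + i)) y j)) := by
      intro j hj
      rw [Finset.mem_filter, Finset.mem_range] at hj
      rw [Finset.mem_filter, Finset.mem_range]
      refine ⟨hj.1, fun hgood => ?_⟩
      obtain ⟨hja, j', hj', hlev, hns⟩ := hj
      apply hns
      obtain ⟨g1, g2⟩ := hgood
      have hlv : ∑ i, ((inc σ) ^ n).mulVec v i = len (inc σ) n v := rfl
      have hlw : len (inc σ) n (w₀ - v) = len (inc σ) n w₀ - len (inc σ) n v := by
        rw [sub_eq_add_neg, len_add, len_neg, ← sub_eq_add_neg]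
      rw [hlv] at hlev
      have e1 : (j : ℤ) + len (inc σ) n (w₀ - v) + c (k + i) = c (k + i') + j' := by
        rw [hlw, ← hp]; omega
      obtain ⟨a1, a2⟩ := block_edge hcut ea j hja
      obtain ⟨b1, b2⟩ := block_edge hcut eb j' hj'
      rw [psum_shZ, psum_shZ, e1, add_comm (j : ℤ) (c (k + i)), ← a1, Matrix.mulVec_sub,
        ← hcuts] at g1
      simp only [shZ] at g2
      rw [e1, add_comm (j : ℤ) (c (k + i)), ← a2, ← b2] at g2
      refine ⟨?_, ?_⟩
      · rw [b1]
        have : ab ((iter σ n a).take j) = psum y (c (k + i') + j') - psum y (c (k + i)) -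
            (psum y (c (k + i')) - psum y (c (k + i)) - ((inc σ) ^ n).mulVec v) := by
          rw [g1]; abel
        rw [this]; abel
      · rw [List.getElem?_eq_getElem hja, List.getElem?_eq_getElem hj', g2]
    exact_mod_cast Finset.card_le_card hsub
  refine hle.trans ?_
  calc ε / C₀ * (iter σ n a).length ≤ ε / C₀ * (C₀ * P.lam ^ n) :=
        mul_le_mul_of_nonneg_left (hlen n a).2 (by positivity)
    _ = ε * P.lam ^ n := by field_simp

end Pool.Agent.Q132.PC
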