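import Pool.Agent.Q132.PC.Word

/-!
The successor relation on overlapping pairs of edges.
-/

set_option autoImplicit false

namespace Pool.Agent.Q132.PC
open Pool.Agent.H812R2.PI Pool.Agent.TH100.Pisot
open Filter Topology
open scoped BigOperators Classical
variable {d : ℕ}

/-- overlapping pairs of edges at distance at most `D` -/
def Prs {M : Matrix (Fin d) (Fin d) ℤ} (P : PD M) (D : ℝ) :
    Set (Fin d × Fin d × (Fin d → ℤ)) :=
  {t | P.N (rv t.2.2) ≤ D ∧ 0 < P.OV (0, t.1) (t.2.2, t.2.1)}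

/-- the pair `q` occurs in the image of the pair `p` under `S` -/
def Suc {M : Matrix (Fin d) (Fin d) ℤ} (P : PD M) (S : Fin d → List (Fin d))
    (p q : Fin d × Fin d × (Fin d → ℤ)) : Prop :=
  ∃ e ∈ edges 0 (S p.1), ∃ f ∈ edges ((inc S).mulVec p.2.2) (S p.2.1),
    0 < P.OV e f ∧ q = (e.2, f.2, f.1 - e.1)

theorem ov_nonneg {M : Matrix (Fin d) (Fin d) ℤ} (P : PD M) (e f : (Fin d → ℤ) × Fin d) :
    0 ≤ P.OV e f := le_max_left _ _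

theorem ov_self {M : Matrix (Fin d) (Fin d) ℤ} (P : PD M) (e : (Fin d → ℤ) × Fin d) :
    0 < P.OV e e := by
  unfold PD.OV ovl
  rw [min_self, max_self]
  have := P.ell_pos e.2
  exact lt_max_of_lt_right (by linarith)

theorem list_sum_pos {α : Type*} (l : List α) (f : α → ℝ) (h0 : ∀ x ∈ l, 0 ≤ f x) {x : α}
    (hx : x ∈ l) (h : 0 < f x) : 0 < (l.map f).sum := by
  induction l with
  | nil => simp at hx
  | cons a l ih =>
    rw [List.map_cons, List.sum_cons]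
    have h1 : 0 ≤ (l.map f).sum :=
      List.sum_nonneg (by
        intro y hy
        obtain ⟨z, hz, rfl⟩ := List.mem_map.1 hy
        exact h0 z (List.mem_cons_of_mem _ hz))
    have h2 := h0 a (List.mem_cons_self ..)
    rcases List.mem_cons.1 hx with rfl | hx
    · linarith
    · have := ih (fun y hy => h0 y (List.mem_cons_of_mem _ hy)) hx
      linarith

theorem ov_up {S : Fin d → List (Fin d)} (P : PD (inc S)) {g g' e f : (Fin d → ℤ) × Fin d}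
    (he : e ∈ edges ((inc S).mulVec g.1) (S g.2))
    (hf : f ∈ edges ((inc S).mulVec g'.1) (S g'.2)) (h : 0 < P.OV e f) : 0 < P.OV g g' := by
  have hlam : 0 < P.lam := lt_trans one_pos P.lam_gt
  have hsum := sum_OV_edges P ((inc S).mulVec g.1) ((inc S).mulVec g'.1) (S g.2) (S g'.2)
  rw [ht_mulVec, ab_subst, ab_subst, ht_mulVec, ht_mulVec, ht_mulVec, ht_ev, ht_ev] at hsum
  have hpos : 0 < ((edges ((inc S).mulVec g.1) (S g.2)).map (fun e =>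
      ((edges ((inc S).mulVec g'.1) (S g'.2)).map (fun f => P.OV e f)).sum)).sum := by
    refine list_sum_pos _ _ (fun x _ => List.sum_nonneg ?_) he ?_
    · intro y hy
      obtain ⟨z, hz, rfl⟩ := List.mem_map.1 hy
      exact ov_nonneg P _ _
    · exact list_sum_pos _ _ (fun y _ => ov_nonneg P _ _) hf h
  rw [hsum, ← mul_add, ← mul_add, JComp_ovl_mul _ _ _ _ _ hlam.le] at hpos
  exact (mul_pos_iff_of_pos_left hlam).1 hpos

section fam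
variable {A₀ : Matrix (Fin d) (Fin d) ℤ} {lam₀ rho₀ : ℝ}

theorem mem_edges_sub {t z : Fin d → ℤ} {w : List (Fin d)}
    {e : (Fin d → ℤ) × Fin d} (he : e ∈ edges z w) : (e.1 - t, e.2) ∈ edges (z - t) w := by
  have := JComp_mem_translate (t := -t) he
  simpa [sub_eq_add_neg] using this

theorem suc_comp (Q : Com d) (h₀ : Q.Adm A₀ lam₀ rho₀) (S T : Fin d → List (Fin d))
    (hS : ∃ lam rho, Q.Adm (inc S) lam rho) (p q : Fin d × Fin d × (Fin d → ℤ)) :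
    Suc (Q.toPD h₀) (comp S T) p q ↔
      ∃ t, Suc (Q.toPD h₀) T p t ∧ Suc (Q.toPD h₀) S t q := by
  constructor
  · rintro ⟨e, he, f, hf, hov, rfl⟩
    have he' : e ∈ edges ((inc S).mulVec 0) (ext S (T p.1)) := by
      rw [Matrix.mulVec_zero]; exact he
    rw [inc_comp, ← Matrix.mulVec_mulVec] at hf
    have hf' : f ∈ edges ((inc S).mulVec ((inc T).mulVec p.2.2)) (ext S (T p.2.1)) := hf
    rw [edges_ext, List.mem_flatMap] at he' hf'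
    obtain ⟨g, hg, heg⟩ := he'
    obtain ⟨g', hg', hfg⟩ := hf'
    obtain ⟨lam, rho, hadm⟩ := hS
    have hov' : 0 < (Q.toPD h₀).OV g g' := by
      have h1 : 0 < (Q.toPD hadm).OV e f := hov
      exact ov_up (Q.toPD hadm) heg hfg h1
    refine ⟨(g.2, g'.2, g'.1 - g.1), ⟨g, hg, g', hg', hov', rfl⟩, ?_⟩
    refine ⟨(e.1 - (inc S).mulVec g.1, e.2), ?_, (f.1 - (inc S).mulVec g.1, f.2), ?_, ?_, ?_⟩
    · have := mem_edges_sub (t := (inc S).mulVec g.1) heg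
      rwa [sub_self] at this
    · have := mem_edges_sub (t := (inc S).mulVec g.1) hfg
      simp only
      rwa [Matrix.mulVec_sub]
    · have h1 := UTot_OV_translate (Q.toPD h₀) ((inc S).mulVec g.1)
        (e.1 - (inc S).mulVec g.1, e.2) (f.1 - (inc S).mulVec g.1, f.2)
      simp only [sub_add_cancel] at h1
      rw [← h1]
      exact hov
    · simp only [sub_sub_sub_cancel_right]
  · rintro ⟨t, ⟨e, he, f, hf, hov, rfl⟩, ⟨e', he', f', hf', hov', rfl⟩⟩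
    refine ⟨_, JComp_mem0 he he', _, JComp_mem1 hf hf', ?_, ?_⟩
    · rw [UTot_OV_translate]; exact hov'
    · simp only [add_sub_add_right_eq_sub]

theorem suc_id (Q : Com d) (h₀ : Q.Adm A₀ lam₀ rho₀) (p q : Fin d × Fin d × (Fin d → ℤ))
    (h : Suc (Q.toPD h₀) (fun a => [a]) p q) : q = p := by
  obtain ⟨e, he, f, hf, hov, rfl⟩ := h
  rw [JComp_inc_id, Matrix.one_mulVec] at hf
  simp only [edges, List.mem_singleton] at he hf
  subst he hf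
  simp

theorem suc_mem (Q : Com d) (h₀ : Q.Adm A₀ lam₀ rho₀) (r₀ B D : ℝ)
    (hD0 : 0 ≤ D) (hD : 2 * B ≤ (1 - r₀) * D) (S : Fin d → List (Fin d))
    (hS : FacQ Q r₀ B S) (p q : Fin d × Fin d × (Fin d → ℤ)) (hp : p ∈ Prs (Q.toPD h₀) D)
    (h : Suc (Q.toPD h₀) S p q) : q ∈ Prs (Q.toPD h₀) D := by
  obtain ⟨e, he, f, hf, hov, rfl⟩ := h
  refine ⟨?_, ?_⟩
  · obtain ⟨⟨lam, rho, hadm, hrho⟩, hB, -⟩ := hS
    obtain ⟨k, hk, rfl⟩ := mem_edges.1 he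
    obtain ⟨l, hl, rfl⟩ := mem_edges.1 hf
    show Q.N _ ≤ D
    simp only
    rw [zero_add, add_sub_assoc, rv_add, rv_mulVec, rv_sub]
    have h1 := Q.N_add (act (inc S) (rv p.2.2))
      (rv (ab ((S p.2.1).take l)) - rv (ab ((S p.1).take k)))
    have h2 : Q.N (rv (ab ((S p.2.1).take l)) - rv (ab ((S p.1).take k))) ≤
        Q.N (rv (ab ((S p.2.1).take l))) + Q.N (rv (ab ((S p.1).take k))) :=
      N_sub (Q.toPD h₀) _ _
    have h3 := hadm.N_act (rv p.2.2)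
    have hp1 : Q.N (rv p.2.2) ≤ D := hp.1
    have h4 : rho * Q.N (rv p.2.2) ≤ r₀ * D :=
      mul_le_mul hrho hp1 (Q.N_nonneg _) (hadm.rho_nonneg.trans hrho)
    have h5 := hB p.1 k
    have h6 := hB p.2.1 l
    linarith
  · show 0 < (Q.toPD h₀).OV (0, e.2) (f.1 - e.1, f.2)
    rw [JComp_OV_translate]
    exact hov

theorem hit_iff_suc {M : Matrix (Fin d) (Fin d) ℤ} (P : PD M) (S : Fin d → List (Fin d)) (D : ℝ) :
    P.Hit S D ↔ ∀ p ∈ Prs P D, ∃ q, Suc P S p q ∧ q.1 = q.2.1 ∧ q.2.2 = 0 := by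
  constructor
  · rintro h ⟨a, b, v⟩ hp
    obtain ⟨e, he1, he2⟩ := h a b v hp.1 hp.2
    exact ⟨(e.2, e.2, e.1 - e.1), ⟨e, he1, e, he2, ov_self P e, rfl⟩, rfl, sub_self _⟩
  · intro h a b v hv hov
    obtain ⟨q, ⟨e, he, f, hf, hov, rfl⟩, h1, h2⟩ := h (a, b, v) ⟨hv, hov⟩
    have h3 : f = e := Prod.ext (sub_eq_zero.1 h2) h1.symm
    subst h3
    exact ⟨f, he, hf⟩

end fam

/-! ### words -/

section words
variable {r : ℕ} {A₀ : Matrix (Fin d) (Fin d) ℤ} {lam₀ rho₀ : ℝ}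

theorem fam_mem {Q : Com d} {r₀ B : ℝ} {τ : Fin r → Fin d → List (Fin d)}
    (hF : ∀ i, FacQ Q r₀ B (τ i)) (w : List (Fin r)) : ∀ S ∈ w.map τ, FacQ Q r₀ B S := by
  intro S hS
  obtain ⟨i, -, rfl⟩ := List.mem_map.1 hS
  exact hF i

theorem suc_id' {M : Matrix (Fin d) (Fin d) ℤ} (P : PD M) {D : ℝ}
    (p : Fin d × Fin d × (Fin d → ℤ)) (hp : p ∈ Prs P D) : Suc P (fun a => [a]) p p := by
  refine ⟨(0, p.1), by simp [edges], (p.2.2, p.2.1), ?_, hp.2, ?_⟩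
  · rw [JComp_inc_id, Matrix.one_mulVec]
    simp [edges]
  · simp

theorem cw_closed (Q : Com d) (h₀ : Q.Adm A₀ lam₀ rho₀) (r₀ B D : ℝ)
    (hD0 : 0 ≤ D) (hD : 2 * B ≤ (1 - r₀) * D) (τ : Fin r → Fin d → List (Fin d))
    (hF : ∀ i, FacQ Q r₀ B (τ i)) (w : List (Fin r)) (p q : Fin d × Fin d × (Fin d → ℤ))
    (hp : p ∈ Prs (Q.toPD h₀) D) (h : Suc (Q.toPD h₀) (cw τ w) p q) :
    q ∈ Prs (Q.toPD h₀) D := by
  induction w generalizing p q with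
  | nil =>
    rw [suc_id Q h₀ p q h]
    exact hp
  | cons i w ih =>
    have h1 : cw τ (i :: w) = comp (τ i) (cw τ w) := rfl
    obtain ⟨lam, rho, hadm, -⟩ := (hF i).adm
    rw [h1, suc_comp Q h₀ _ _ ⟨lam, rho, hadm⟩] at h
    obtain ⟨t, ht, htq⟩ := h
    exact suc_mem Q h₀ r₀ B D hD0 hD (τ i) (hF i) t q (ih p t hp ht) htq

theorem cw_adm (Q : Com d) (r₀ B : ℝ) (hr0 : 0 ≤ r₀) (τ : Fin r → Fin d → List (Fin d))
    (hF : ∀ i, FacQ Q r₀ B (τ i)) (w : List (Fin r)) (hw : w ≠ []) :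
    ∃ lam rho, Q.Adm (inc (cw τ w)) lam rho := by
  obtain ⟨lam, rho, h, -⟩ := fam_adm Q r₀ B hr0 (w.map τ) (by simpa using hw) (fam_mem hF w)
  exact ⟨lam, rho, h⟩

/-- the relation of a word on the finite set of pairs -/
def RW (Q : Com d) (h₀ : Q.Adm A₀ lam₀ rho₀) (D : ℝ) (τ : Fin r → Fin d → List (Fin d))
    (w : List (Fin r)) (p q : Prs (Q.toPD h₀) D) : Prop :=
  Suc (Q.toPD h₀) (cw τ w) p.1 q.1

theorem RW_append (Q : Com d) (h₀ : Q.Adm A₀ lam₀ rho₀) (r₀ B D : ℝ) (hr0 : 0 ≤ r₀)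
    (hD0 : 0 ≤ D) (hD : 2 * B ≤ (1 - r₀) * D) (τ : Fin r → Fin d → List (Fin d))
    (hF : ∀ i, FacQ Q r₀ B (τ i)) (w w' : List (Fin r)) (p q : Prs (Q.toPD h₀) D) :
    RW Q h₀ D τ (w ++ w') p q ↔ ∃ t, RW Q h₀ D τ w' p t ∧ RW Q h₀ D τ w t q := by
  rcases eq_or_ne w [] with rfl | hw
  · rw [List.nil_append]
    constructor
    · intro h
      exact ⟨q, h, suc_id' _ q.1 q.2⟩
    · rintro ⟨t, ht, htq⟩
      have : q.1 = t.1 := suc_id Q h₀ t.1 q.1 htq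
      rw [Subtype.ext this]
      exact ht
  · unfold RW
    rw [cw_append, suc_comp Q h₀ _ _ (cw_adm Q r₀ B hr0 τ hF w hw)]
    constructor
    · rintro ⟨t, ht, htq⟩
      exact ⟨⟨t, cw_closed Q h₀ r₀ B D hD0 hD τ hF w' p.1 t p.2 ht⟩, ht, htq⟩
    · rintro ⟨t, ht, htq⟩
      exact ⟨t.1, ht, htq⟩

theorem RW_append_congr (Q : Com d) (h₀ : Q.Adm A₀ lam₀ rho₀) (r₀ B D : ℝ) (hr0 : 0 ≤ r₀)
    (hD0 : 0 ≤ D) (hD : 2 * B ≤ (1 - r₀) * D) (τ : Fin r → Fin d → List (Fin d))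
    (hF : ∀ i, FacQ Q r₀ B (τ i)) {w₁ w₂ w₁' w₂' : List (Fin r)}
    (h : RW Q h₀ D τ w₁ = RW Q h₀ D τ w₂) (h' : RW Q h₀ D τ w₁' = RW Q h₀ D τ w₂') :
    RW Q h₀ D τ (w₁ ++ w₁') = RW Q h₀ D τ (w₂ ++ w₂') := by
  funext p q
  rw [eq_iff_iff, RW_append Q h₀ r₀ B D hr0 hD0 hD τ hF, RW_append Q h₀ r₀ B D hr0 hD0 hD τ hF,
    h, h']

theorem RW_wp_congr (Q : Com d) (h₀ : Q.Adm A₀ lam₀ rho₀) (r₀ B D : ℝ) (hr0 : 0 ≤ r₀)
    (hD0 : 0 ≤ D) (hD : 2 * B ≤ (1 - r₀) * D) (τ : Fin r → Fin d → List (Fin d))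
    (hF : ∀ i, FacQ Q r₀ B (τ i)) {w₁ w₂ : List (Fin r)}
    (h : RW Q h₀ D τ w₁ = RW Q h₀ D τ w₂) (k : ℕ) :
    RW Q h₀ D τ (wp w₁ k) = RW Q h₀ D τ (wp w₂ k) := by
  induction k with
  | zero => rfl
  | succ k ih =>
    rw [wp_succ, wp_succ]
    exact RW_append_congr Q h₀ r₀ B D hr0 hD0 hD τ hF h ih

theorem hit_iff_RW (Q : Com d) (h₀ : Q.Adm A₀ lam₀ rho₀) (r₀ B D : ℝ)
    (hD0 : 0 ≤ D) (hD : 2 * B ≤ (1 - r₀) * D) (τ : Fin r → Fin d → List (Fin d))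
    (hF : ∀ i, FacQ Q r₀ B (τ i)) (w : List (Fin r)) :
    (Q.toPD h₀).Hit (cw τ w) D ↔ ∀ p, ∃ q, RW Q h₀ D τ w p q ∧ q.1.1 = q.1.2.1 ∧ q.1.2.2 = 0 := by
  rw [hit_iff_suc]
  constructor
  · rintro h ⟨p, hp⟩
    obtain ⟨q, hq, h1, h2⟩ := h p hp
    exact ⟨⟨q, cw_closed Q h₀ r₀ B D hD0 hD τ hF w p q hp hq⟩, hq, h1, h2⟩
  · intro h p hp
    obtain ⟨q, hq, h1, h2⟩ := h ⟨p, hp⟩
    exact ⟨q.1, hq, h1, h2⟩

theorem hit_congr (Q : Com d) (h₀ : Q.Adm A₀ lam₀ rho₀) (r₀ B D : ℝ)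
    (hD0 : 0 ≤ D) (hD : 2 * B ≤ (1 - r₀) * D) (τ : Fin r → Fin d → List (Fin d))
    (hF : ∀ i, FacQ Q r₀ B (τ i)) {w₁ w₂ : List (Fin r)}
    (h : RW Q h₀ D τ w₁ = RW Q h₀ D τ w₂) :
    (Q.toPD h₀).Hit (cw τ w₁) D ↔ (Q.toPD h₀).Hit (cw τ w₂) D := by
  rw [hit_iff_RW Q h₀ r₀ B D hD0 hD τ hF, hit_iff_RW Q h₀ r₀ B D hD0 hD τ hF, h]

theorem finite_relations (Q : Com d) (h₀ : Q.Adm A₀ lam₀ rho₀) (D : ℝ) :
    Finite (Prs (Q.toPD h₀) D → Prs (Q.toPD h₀) D → Prop) := by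
  have h1 : Finite (Prs (Q.toPD h₀) D) := (pairs_finite (Q.toPD h₀) D).to_subtype
  infer_instance

end words

end Pool.Agent.Q132.PC
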