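import Pool.Agent.H812R2.PI.ZSemi

/-!
Return vectors.  Let `π` be a continuous factor map of `X σ` onto a rotation by `γ` of a torus.  The
lattice vectors `t` for which the rotations by the lengths of `M^n t` tend to the identity form a
group which contains all return vectors, hence (unimodular irreducible Pisot) it is everything.
-/

set_option autoImplicit false

namespace Pool.Agent.Q132.PC
open Pool.Agent.H812R2.PI
open Filter Topology
open scoped BigOperators
variable {d : ℕ}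

/-- length (sum of the coordinates) of `M^n t` -/
def len (M : Matrix (Fin d) (Fin d) ℤ) (n : ℕ) (t : Fin d → ℤ) : ℤ := ∑ i, (M ^ n).mulVec t i

theorem len_add (M : Matrix (Fin d) (Fin d) ℤ) (n : ℕ) (t s : Fin d → ℤ) :
    len M n (t + s) = len M n t + len M n s := by
  simp [len, Matrix.mulVec_add, Finset.sum_add_distrib]

theorem len_zero (M : Matrix (Fin d) (Fin d) ℤ) (n : ℕ) : len M n 0 = 0 := by
  simp [len]

theorem len_neg (M : Matrix (Fin d) (Fin d) ℤ) (n : ℕ) (t : Fin d → ℤ) :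
    len M n (-t) = - len M n t := by
  simp [len, Matrix.mulVec_neg]

theorem len_pow (M : Matrix (Fin d) (Fin d) ℤ) (n k : ℕ) (t : Fin d → ℤ) :
    len M n ((M ^ k).mulVec t) = len M (n + k) t := by
  simp [len, Matrix.mulVec_mulVec, ← pow_add]

/-- vectors along which the rotation by `γ` tends to the identity -/
def GG (M : Matrix (Fin d) (Fin d) ℤ) {m : ℕ} (γ : Torus m) : AddSubgroup (Fin d → ℤ) where
  carrier := {t | Tendsto (fun n : ℕ => (len M n t) • γ) atTop (𝓝 0)}
  zero_mem' := by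
    simp only [Set.mem_setOf_eq, len_zero, zero_smul]
    exact tendsto_const_nhds
  add_mem' := by
    intro a b ha hb
    simp only [Set.mem_setOf_eq, len_add, add_smul] at *
    simpa using ha.add hb
  neg_mem' := by
    intro a ha
    simp only [Set.mem_setOf_eq, len_neg, neg_smul] at *
    simpa using ha.neg

theorem mem_GG {M : Matrix (Fin d) (Fin d) ℤ} {m : ℕ} {γ : Torus m} {t : Fin d → ℤ} :
    t ∈ GG M γ ↔ Tendsto (fun n : ℕ => (len M n t) • γ) atTop (𝓝 0) := Iff.rfl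

theorem GG_descent {M : Matrix (Fin d) (Fin d) ℤ} {m : ℕ} {γ : Torus m} {t : Fin d → ℤ} (k : ℕ)
    (h : (M ^ k).mulVec t ∈ GG M γ) : t ∈ GG M γ := by
  rw [mem_GG] at *
  simp only [len_pow] at h
  exact (tendsto_add_atTop_iff_nat (f := fun n : ℕ => (len M n t) • γ) k).1 h

/-- uniform continuity on the subshift -/
theorem unif_agree {Y : Type*} [PseudoMetricSpace Y] {σ : Fin d → List (Fin d)}
    {f : (ℤ → Fin d) → Y} (hf : ContinuousOn f (X σ)) {ε : ℝ} (hε : 0 < ε) :
    ∃ L : ℕ, ∀ x ∈ X σ, ∀ y ∈ X σ, (∀ t : ℤ, |t| ≤ L → x t = y t) → dist (f x) (f y) < ε := by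
  have h1 : ∀ x ∈ X σ, ∃ n : ℕ, ∀ z ∈ X σ, (∀ t : ℤ, |t| ≤ n → z t = x t) →
      dist (f z) (f x) < ε / 2 := by
    intro x hx
    have h2 := Metric.continuousWithinAt_iff'.1 (hf x hx) (ε / 2) (by linarith)
    rw [eventually_nhdsWithin_iff] at h2
    obtain ⟨n, hn⟩ := STop_nhds x _ h2
    exact ⟨n, fun z hz hzt => hn z hzt hz⟩
  choose! n hn using h1
  obtain ⟨T, hT, hcov⟩ := (X_compact σ).elim_nhds_subcover
    (fun x => {z | ∀ t ∈ Finset.Icc (-(n x : ℤ)) (n x), z t = x t})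
    (fun x _ => STop_ev x (Finset.Icc (-(n x : ℤ)) (n x)))
  refine ⟨T.sup n, fun x hx y hy hxy => ?_⟩
  obtain ⟨z, hz, hxz⟩ := Set.mem_iUnion₂.1 (hcov hx)
  have hzX := hT z hz
  have hle : n z ≤ T.sup n := Finset.le_sup hz
  have a1 : ∀ t : ℤ, |t| ≤ n z → x t = z t := fun t ht => hxz t (by
    rw [Finset.mem_Icc]; exact abs_le.1 ht)
  have a2 : ∀ t : ℤ, |t| ≤ n z → y t = z t := fun t ht => by
    rw [← hxy t (ht.trans (by exact_mod_cast hle))]; exact a1 t ht
  have b1 := hn z hzX x hx a1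
  have b2 := hn z hzX y hy a2
  rw [dist_comm] at b2
  linarith [dist_triangle (f x) (f z) (f y)]

theorem pi_shZ {σ : Fin d → List (Fin d)} {m : ℕ} {γ : Torus m} {π : (ℤ → Fin d) → Torus m}
    (hπ : ∀ x ∈ X σ, π (sh x) = π x + γ) {x : ℤ → Fin d} (hx : x ∈ X σ) (k : ℤ) :
    π (shZ k x) = π x + k • γ := by
  have step : ∀ k : ℤ, π (shZ (k + 1) x) = π (shZ k x) + γ := by
    intro k
    have h1 := hπ (shZ k x) (shZ_mem hx k)
    rw [sh_eq_shZ, shZ_add, add_comm] at h1
    exact h1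
  induction k using Int.induction_on with
  | zero => simp [shZ_zero]
  | succ n ih => rw [step, ih, add_smul, one_smul, add_assoc]
  | pred n ih =>
    have h1 := step (-(n : ℤ) - 1)
    rw [sub_add_cancel, ih] at h1
    have h2 : π (shZ (-(n : ℤ) - 1) x) = π x + (-(n : ℤ)) • γ - γ := by
      rw [h1]; abel
    rw [h2, sub_smul, one_smul]; abel

theorem letter_fwd {τ : Fin d → List (Fin d)} {y x : ℤ → Fin d} {c : ℤ → ℤ}
    (h : IsDesub τ y x c) {a : ℤ} {e : Fin d} (he : x a = e) (s : ℕ) (hs : s < (τ e).length) :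
    y (c a + s) = (τ e)[s] := by
  subst he
  exact FDef_letter h a s hs

/-- around two cuts with the same neighbours the point looks the same -/
theorem agree_around {τ : Fin d → List (Fin d)} {y x : ℤ → Fin d} {c : ℤ → ℤ}
    (h : IsDesub τ y x c) (L : ℕ) (hL : ∀ e, L + 1 ≤ (τ e).length) {a b : ℤ} (h0 : x a = x b)
    (h1 : x (a - 1) = x (b - 1)) (t : ℤ) (ht : |t| ≤ L) : y (c a + t) = y (c b + t) := by
  obtain ⟨ht1, ht2⟩ := abs_le.1 ht
  rcases le_or_gt 0 t with h2 | h2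
  · obtain ⟨s, rfl⟩ := Int.eq_ofNat_of_zero_le h2
    have h3 := hL (x b)
    have h4 : s < (τ (x b)).length := by omega
    rw [letter_fwd h h0 s h4, letter_fwd h rfl s h4]
  · have h3 := hL (x (b - 1))
    have ca : c a = c (a - 1) + ((τ (x (b - 1))).length : ℤ) := by
      have := h.1 (a - 1)
      rwa [sub_add_cancel, h1] at this
    have cb : c b = c (b - 1) + ((τ (x (b - 1))).length : ℤ) := by
      have := h.1 (b - 1)
      rwa [sub_add_cancel] at this
    obtain ⟨s, hs⟩ : ∃ s : ℕ, (s : ℤ) = ((τ (x (b - 1))).length : ℤ) + t :=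
      ⟨(((τ (x (b - 1))).length : ℤ) + t).toNat, by omega⟩
    have h4 : s < (τ (x (b - 1))).length := by omega
    have e1 : c a + t = c (a - 1) + s := by omega
    have e2 : c b + t = c (b - 1) + s := by omega
    rw [e1, e2, letter_fwd h h1 s h4, letter_fwd h rfl s h4]

/-- a point of the subshift which contains the image of a window of `x` -/
theorem exists_image {σ : Fin d → List (Fin d)} (P : PD (inc σ)) (n : ℕ) {x : ℤ → Fin d}
    (hx : x ∈ X σ) (R : ℕ) : ∃ y ∈ X σ, ∃ x' ∈ X σ, ∃ c : ℤ → ℤ, ∃ k : ℤ,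
      IsDesub (iter σ n) y x' c ∧ ∀ t : ℤ, |t| ≤ R → x' (k + t) = x t := by
  obtain ⟨y, hy⟩ := X_nonempty P
  obtain ⟨x', hx', c, hc⟩ := exists_desub P n y hy
  obtain ⟨k, hk⟩ := X_minimal P hx' hx R
  exact ⟨y, hy, x', hx', c, k, hc, hk⟩

theorem psum_window {x x' : ℤ → Fin d} {k : ℤ} {R : ℕ} (h : ∀ t : ℤ, |t| ≤ R → x' (k + t) = x t)
    {i : ℤ} (hi : |i| ≤ R) : psum x' (k + i) = psum x' k + psum x i := by
  have h1 : psum (shZ k x') i = psum x i := by
    apply SDesub_psum_congr (B := (R : ℤ)) _ hi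
    intro j hj
    simp only [shZ]
    rw [add_comm]
    exact h j hj
  rw [psum_shZ, add_comm i k] at h1
  rw [← h1]; abel

/-- difference of cut vectors -/
theorem psum_cuts {σ : Fin d → List (Fin d)} {n : ℕ} {x x' y : ℤ → Fin d} {c : ℤ → ℤ} {k : ℤ}
    {R : ℕ} (hc : IsDesub (iter σ n) y x' c) (h : ∀ t : ℤ, |t| ≤ R → x' (k + t) = x t)
    {i j : ℤ} (hi : |i| ≤ R) (hj : |j| ≤ R) :
    psum y (c (k + j)) - psum y (c (k + i)) = ((inc σ) ^ n).mulVec (psum x j - psum x i) := by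
  rw [psum_desub hc (k + j), psum_desub hc (k + i), psum_window h hi, psum_window h hj, inc_iter,
    Matrix.mulVec_add, Matrix.mulVec_add, Matrix.mulVec_sub]
  abel

theorem len_ev_large {σ : Fin d → List (Fin d)} (P : PD (inc σ)) (L : ℕ) :
    ∃ n₀ : ℕ, ∀ n ≥ n₀, ∀ e, L + 1 ≤ (iter σ n e).length := by
  have h : ∀ᶠ n : ℕ in atTop, ∀ e, L + 1 ≤ (iter σ n e).length := by
    rw [eventually_all]
    intro e
    filter_upwards [SRec_len P e (L : ℝ)] with n hn
    exact_mod_cast hn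
  exact eventually_atTop.1 h

/-- returns to a pair of letters -/
theorem ret_mem {σ : Fin d → List (Fin d)} (P : PD (inc σ)) {m : ℕ} {γ : Torus m}
    {π : (ℤ → Fin d) → Torus m} (hc : ContinuousOn π (X σ))
    (hπ : ∀ x ∈ X σ, π (sh x) = π x + γ) {x : ℤ → Fin d} (hx : x ∈ X σ) {i j : ℤ}
    (h0 : x i = x j) (h1 : x (i - 1) = x (j - 1)) : psum x j - psum x i ∈ GG (inc σ) γ := by
  rw [mem_GG, Metric.tendsto_atTop]
  intro ε hε
  obtain ⟨L, hL⟩ := unif_agree hc hε
  obtain ⟨n₀, hn₀⟩ := len_ev_large P L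
  refine ⟨n₀, fun n hn => ?_⟩
  obtain ⟨y, hy, x', hx', c, k, hcut, hk⟩ := exists_image P n hx (i.natAbs + j.natAbs + 1)
  have e1 := hk i (by rw [Int.abs_eq_natAbs]; omega)
  have e2 := hk j (by rw [Int.abs_eq_natAbs]; omega)
  have e3 := hk (i - 1) (by rw [Int.abs_eq_natAbs]; omega)
  have e4 := hk (j - 1) (by rw [Int.abs_eq_natAbs]; omega)
  have hag := agree_around hcut L (hn₀ n hn) (a := k + i) (b := k + j) (by rw [e1, e2, h0])
    (by rw [← add_sub_assoc] at e3 e4; rw [e3, e4, h1])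
  have h2 := hL (shZ (c (k + j)) y) (shZ_mem hy _) (shZ (c (k + i)) y) (shZ_mem hy _)
    (fun t ht => by
      simp only [shZ]
      rw [add_comm t, add_comm t]
      exact (hag t ht).symm)
  rw [pi_shZ hπ hy, pi_shZ hπ hy] at h2
  have h3 : c (k + j) - c (k + i) = len (inc σ) n (psum x j - psum x i) := by
    have h4 := psum_cuts (R := i.natAbs + j.natAbs + 1) hcut hk (i := i) (j := j)
      (by rw [Int.abs_eq_natAbs]; omega) (by rw [Int.abs_eq_natAbs]; omega)
    rw [len, ← h4]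
    simp only [Pi.sub_apply, Finset.sum_sub_distrib, psum_sum]
  rw [← h3, dist_eq_norm, sub_zero, sub_smul]
  rw [dist_eq_norm] at h2
  rwa [add_sub_add_left_eq_sub] at h2

/-- returns to a letter on the right -/
theorem ret_right {σ : Fin d → List (Fin d)} (P : PD (inc σ)) {m : ℕ} {γ : Torus m}
    {π : (ℤ → Fin d) → Torus m} (hc : ContinuousOn π (X σ))
    (hπ : ∀ x ∈ X σ, π (sh x) = π x + γ) {x : ℤ → Fin d} (hx : x ∈ X σ) {i j : ℤ}
    (h0 : x i = x j) : psum x j - psum x i ∈ GG (inc σ) γ := by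
  obtain ⟨n, hn⟩ := len_ev_large P 1
  have hn := hn n le_rfl
  obtain ⟨y, hy, x', hx', c, k, hcut, hk⟩ := exists_image P n hx (i.natAbs + j.natAbs)
  have e1 := hk i (by rw [Int.abs_eq_natAbs]; omega)
  have e2 := hk j (by rw [Int.abs_eq_natAbs]; omega)
  have l0 : 0 < (iter σ n (x j)).length := by have := hn (x j); omega
  have l1 : 1 < (iter σ n (x j)).length := by have := hn (x j); omega
  have a1 := letter_fwd hcut (e1.trans h0) 0 l0
  have a2 := letter_fwd hcut e2 0 l0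
  have a3 := letter_fwd hcut (e1.trans h0) 1 l1
  have a4 := letter_fwd hcut e2 1 l1
  simp only [Nat.cast_zero, add_zero, Nat.cast_one] at a1 a2 a3 a4
  have h1 := ret_mem P hc hπ hy (i := c (k + i) + 1) (j := c (k + j) + 1) (by rw [a3, a4])
    (by rw [add_sub_cancel_right, add_sub_cancel_right, a1, a2])
  rw [psum_succ, psum_succ, a1, a2, add_sub_add_right_eq_sub,
    psum_cuts (R := i.natAbs + j.natAbs) hcut hk (by rw [Int.abs_eq_natAbs]; omega) (by rw [Int.abs_eq_natAbs]; omega)] at h1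
  exact GG_descent n h1

/-- returns to a letter on the left -/
theorem ret_left {σ : Fin d → List (Fin d)} (P : PD (inc σ)) {m : ℕ} {γ : Torus m}
    {π : (ℤ → Fin d) → Torus m} (hc : ContinuousOn π (X σ))
    (hπ : ∀ x ∈ X σ, π (sh x) = π x + γ) {x : ℤ → Fin d} (hx : x ∈ X σ) {i j : ℤ}
    (h0 : x (i - 1) = x (j - 1)) : psum x j - psum x i ∈ GG (inc σ) γ := by
  obtain ⟨n, hn⟩ := len_ev_large P 1
  have hn := hn n le_rfl
  obtain ⟨y, hy, x', hx', c, k, hcut, hk⟩ := exists_image P n hx (i.natAbs + j.natAbs + 1)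
  have e1 := hk (i - 1) (by rw [Int.abs_eq_natAbs]; omega)
  have e2 := hk (j - 1) (by rw [Int.abs_eq_natAbs]; omega)
  rw [← add_sub_assoc] at e1 e2
  have hl := hn (x (j - 1))
  have ci : c (k + i) = c (k + i - 1) + ((iter σ n (x (j - 1))).length : ℤ) := by
    have := hcut.1 (k + i - 1)
    rwa [sub_add_cancel, e1, h0] at this
  have cj : c (k + j) = c (k + j - 1) + ((iter σ n (x (j - 1))).length : ℤ) := by
    have := hcut.1 (k + j - 1)
    rwa [sub_add_cancel, e2] at this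
  obtain ⟨s, hs⟩ : ∃ s : ℕ, s + 2 = (iter σ n (x (j - 1))).length := ⟨_, Nat.sub_add_cancel hl⟩
  have a1 := letter_fwd hcut (e1.trans h0) s (by omega)
  have a2 := letter_fwd hcut e2 s (by omega)
  have a3 := letter_fwd hcut (e1.trans h0) (s + 1) (by omega)
  have a4 := letter_fwd hcut e2 (s + 1) (by omega)
  have p1 : c (k + i - 1) + s = c (k + i) - 1 - 1 := by omega
  have p2 : c (k + j - 1) + s = c (k + j) - 1 - 1 := by omega
  have p3 : c (k + i - 1) + ((s + 1 : ℕ) : ℤ) = c (k + i) - 1 := by push_cast; omega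
  have p4 : c (k + j - 1) + ((s + 1 : ℕ) : ℤ) = c (k + j) - 1 := by push_cast; omega
  rw [p1] at a1
  rw [p2] at a2
  rw [p3] at a3
  rw [p4] at a4
  have h1 := ret_mem P hc hπ hy (i := c (k + i) - 1) (j := c (k + j) - 1) (by rw [a3, a4])
    (by rw [a1, a2])
  have s1 := psum_succ y (c (k + i) - 1)
  have s2 := psum_succ y (c (k + j) - 1)
  rw [sub_add_cancel] at s1 s2
  have h2 : psum y (c (k + j)) - psum y (c (k + i)) ∈ GG (inc σ) γ := by
    rw [s1, s2, a3, a4, add_sub_add_right_eq_sub]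
    exact h1
  rw [psum_cuts (R := i.natAbs + j.natAbs + 1) hcut hk (by rw [Int.abs_eq_natAbs]; omega)
    (by rw [Int.abs_eq_natAbs]; omega)] at h2
  exact GG_descent n h2

end Pool.Agent.Q132.PC
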