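import Pool.Agent.Q132.PC.Cnt

/-!
The probability that a random word has no given factor.
-/

set_option autoImplicit false

namespace Pool.Agent.Q132.PC
open Pool.Agent.H812R2.PI
open scoped BigOperators Classical

/-- total weight of the sequences without the factor `x` -/
noncomputable def WA {α : Type*} [Fintype α] (p : α → ℝ) {K : ℕ} (x : Fin K → α) (k : ℕ) : ℝ :=
  ∑ f : Fin k → α, if f ∈ Avoid x k then ∏ i, p (f i) else 0

theorem sum_prod_one {α : Type*} [Fintype α] (p : α → ℝ) (hsum : ∑ a, p a = 1) (K : ℕ) :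
    ∑ f : Fin K → α, ∏ i, p (f i) = 1 := by
  have h := Finset.prod_univ_sum (fun _ : Fin K => (Finset.univ : Finset α)) (fun _ a => p a)
  simp only [hsum, Finset.prod_const_one, Fintype.piFinset_univ] at h
  exact h.symm

theorem WA_step {α : Type*} [Fintype α] (p : α → ℝ) (hp : ∀ a, 0 ≤ p a) (hsum : ∑ a, p a = 1)
    {K : ℕ} (x : Fin K → α) (k : ℕ) :
    WA p x (k + K) ≤ WA p x k * (1 - ∏ i, p (x i)) := by
  have h1 : (1 - ∏ i, p (x i)) = ∑ h : Fin K → α, if h ≠ x then ∏ i, p (h i) else 0 := by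
    rw [← sum_prod_one p hsum K]
    rw [← Finset.add_sum_erase Finset.univ (fun f : Fin K → α => ∏ i, p (f i))
      (Finset.mem_univ x)]
    rw [← Finset.add_sum_erase Finset.univ
      (fun h : Fin K → α => if h ≠ x then ∏ i, p (h i) else 0) (Finset.mem_univ x)]
    rw [if_neg (not_not.2 rfl), zero_add, add_sub_cancel_left]
    refine Finset.sum_congr rfl fun h hh => ?_
    rw [if_pos (Finset.ne_of_mem_erase hh)]
  unfold WA
  rw [h1, Finset.sum_mul_sum, ← Finset.sum_product', Finset.univ_product_univ]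
  rw [← (Fin.appendEquiv k K).sum_comp]
  refine Finset.sum_le_sum fun gh _ => ?_
  obtain ⟨g, h⟩ := gh
  have happ : (Fin.appendEquiv k K) (g, h) = Fin.append g h := rfl
  simp only [happ]
  have hprod : ∏ i, p (Fin.append g h i) = (∏ i, p (g i)) * ∏ j, p (h j) := by
    rw [Fin.prod_univ_add]
    simp
  have hg0 : 0 ≤ ∏ i, p (g i) := Finset.prod_nonneg fun i _ => hp _
  have hh0 : 0 ≤ ∏ i, p (h i) := Finset.prod_nonneg fun i _ => hp _
  by_cases hbad : Fin.append g h ∈ Avoid x (k + K)
  · have hg : g ∈ Avoid x k := by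
      rintro ⟨l₁, l₂, hl⟩
      refine hbad ⟨l₁, l₂ ++ List.ofFn h, ?_⟩
      rw [JCnt_ofFn_add]
      simp only [Fin.append_left, Fin.append_right]
      have hl' : List.ofFn (fun i => g i) = l₁ ++ List.ofFn x ++ l₂ := hl
      rw [hl']
      simp [List.append_assoc]
    have hh : h ≠ x := by
      rintro rfl
      refine hbad ⟨List.ofFn g, [], ?_⟩
      rw [JCnt_ofFn_add]
      simp only [Fin.append_left, Fin.append_right, List.append_nil]
    rw [if_pos hbad, if_pos hg, if_pos hh, hprod]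
  · rw [if_neg hbad]
    split_ifs <;> positivity

theorem WA_le_one {α : Type*} [Fintype α] (p : α → ℝ) (hp : ∀ a, 0 ≤ p a) (hsum : ∑ a, p a = 1)
    {K : ℕ} (x : Fin K → α) (k : ℕ) : WA p x k ≤ 1 := by
  rw [← sum_prod_one p hsum k]
  refine Finset.sum_le_sum fun f _ => ?_
  split_ifs
  · exact le_rfl
  · exact Finset.prod_nonneg fun i _ => hp _

theorem WA_nonneg {α : Type*} [Fintype α] (p : α → ℝ) (hp : ∀ a, 0 ≤ p a)
    {K : ℕ} (x : Fin K → α) (k : ℕ) : 0 ≤ WA p x k := by
  refine Finset.sum_nonneg fun f _ => ?_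
  split_ifs
  · exact Finset.prod_nonneg fun i _ => hp _
  · exact le_rfl

/-- the probability that a random word has no given factor is exponentially small -/
theorem weight_avoid {α : Type*} [Fintype α] (p : α → ℝ) (hp : ∀ a, 0 ≤ p a)
    (hsum : ∑ a, p a = 1) (v : List α) (hv : v ≠ []) (hpv : ∀ a ∈ v, 0 < p a) :
    ∃ C c : ℝ, 0 < c ∧ ∀ k : ℕ,
      (∑ f : Fin k → α, if (∃ l₁ l₂ : List α, List.ofFn f = l₁ ++ v ++ l₂) then 0 else
        ∏ i, p (f i)) ≤ C * Real.exp (-(c * k)) := by
  obtain ⟨K, hKdef⟩ : ∃ K, K = v.length := ⟨_, rfl⟩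
  obtain ⟨x, hx⟩ : ∃ x : Fin K → α, List.ofFn x = v := by
    subst hKdef
    exact ⟨fun i => v[i], by simp⟩
  have hK : 0 < K := by
    rw [hKdef]; exact List.length_pos_of_ne_nil hv
  have hK' : (0:ℝ) < K := by exact_mod_cast hK
  have hπ : 0 < ∏ i, p (x i) := Finset.prod_pos fun i _ =>
    hpv _ (by rw [← hx]; exact (List.mem_ofFn' _ _).2 ⟨i, rfl⟩)
  obtain ⟨c, hc⟩ : ∃ c : ℝ, c = (∏ i, p (x i)) / K := ⟨_, rfl⟩
  have hcpos : 0 < c := by rw [hc]; positivity
  have hcK : c * K = ∏ i, p (x i) := by rw [hc]; field_simp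
  have key : ∀ k : ℕ, WA p x k ≤ Real.exp (c * K) * Real.exp (-(c * k)) := by
    intro k
    induction k using Nat.strong_induction_on with
    | _ k ih =>
      rcases lt_or_ge k K with h | h
      · refine (WA_le_one p hp hsum x k).trans ?_
        rw [← Real.exp_add]
        apply Real.one_le_exp
        have : (k:ℝ) ≤ K := by exact_mod_cast h.le
        nlinarith
      · obtain ⟨j, rfl⟩ : ∃ j, k = j + K := ⟨k - K, by omega⟩
        have h1 := WA_step p hp hsum x j
        have h2 : 1 - ∏ i, p (x i) ≤ Real.exp (-(c * K)) := by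
          rw [hcK]
          have := Real.add_one_le_exp (-(∏ i, p (x i)))
          linarith
        have h4 := WA_nonneg p hp x j
        calc WA p x (j + K) ≤ WA p x j * (1 - ∏ i, p (x i)) := h1
          _ ≤ WA p x j * Real.exp (-(c * K)) := mul_le_mul_of_nonneg_left h2 h4
          _ ≤ (Real.exp (c * K) * Real.exp (-(c * j))) * Real.exp (-(c * K)) :=
              mul_le_mul_of_nonneg_right (ih j (by omega)) (Real.exp_pos _).le
          _ = _ := by
              rw [← Real.exp_add, ← Real.exp_add, ← Real.exp_add]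
              congr 1
              push_cast
              ring
  refine ⟨Real.exp (c * K), c, hcpos, fun k => le_trans (le_of_eq ?_) (key k)⟩
  unfold WA Avoid
  refine Finset.sum_congr rfl fun f _ => ?_
  rw [hx]
  by_cases h : ∃ l₁ l₂ : List α, List.ofFn f = l₁ ++ v ++ l₂
  · rw [if_pos h, if_neg (by simpa using h)]
  · rw [if_neg h, if_pos (by simpa using h)]

end Pool.Agent.Q132.PC
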