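import Pool.Agent.Q132.PC.Fam

/-!
Powers of a substitution and words of substitutions.
-/

set_option autoImplicit false

namespace Pool.Agent.Q132.PC
open Pool.Agent.H812R2.PI Pool.Agent.TH100.Pisot
open Filter Topology
open scoped BigOperators Classical
variable {d : ℕ}

theorem comp_iter (σ : Fin d → List (Fin d)) (n : ℕ) : comp σ (iter σ n) = iter σ (n + 1) := by
  funext a
  rw [iter_succ]
  rfl

/-- the composition of a word of substitutions -/
def cw {r : ℕ} (τ : Fin r → Fin d → List (Fin d)) (w : List (Fin r)) : Fin d → List (Fin d) :=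
  compList (w.map τ)

theorem cw_append {r : ℕ} (τ : Fin r → Fin d → List (Fin d)) (w w' : List (Fin r)) :
    cw τ (w ++ w') = comp (cw τ w) (cw τ w') := by
  unfold cw
  rw [List.map_append, compList_append]

theorem cw_nil {r : ℕ} (τ : Fin r → Fin d → List (Fin d)) : cw τ [] = fun a => [a] := rfl

/-- the power of a word -/
def wp {α : Type*} (w : List α) (k : ℕ) : List α := (List.replicate k w).flatten

theorem wp_zero {α : Type*} (w : List α) : wp w 0 = [] := rfl

theorem wp_succ {α : Type*} (w : List α) (k : ℕ) : wp w (k + 1) = w ++ wp w k := by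
  simp [wp, List.replicate_succ]

theorem wp_add {α : Type*} (w : List α) (k l : ℕ) : wp w (k + l) = wp w k ++ wp w l := by
  rw [wp, List.replicate_add, List.flatten_append]
  rfl

theorem wp_length {α : Type*} (w : List α) (k : ℕ) : (wp w k).length = k * w.length := by
  induction k with
  | zero => simp [wp_zero]
  | succ k ih => rw [wp_succ, List.length_append, ih]; ring

theorem cw_wp {r : ℕ} (τ : Fin r → Fin d → List (Fin d)) (w : List (Fin r)) (k : ℕ) :
    cw τ (wp w k) = iter (cw τ w) k := by
  induction k with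
  | zero => rfl
  | succ k ih => rw [wp_succ, cw_append, ih, comp_iter]

theorem iter_iter (σ : Fin d → List (Fin d)) (k n : ℕ) (a : Fin d) :
    iter (iter σ k) n a = iter σ (k * n) a := by
  induction n with
  | zero => rfl
  | succ n ih =>
    rw [iter_succ, ih, Nat.mul_succ, Nat.add_comm, iter_add]

/-- the subshift of a power is the subshift -/
theorem X_iter {σ : Fin d → List (Fin d)} (P : PD (inc σ)) (k : ℕ) (hk : 1 ≤ k) :
    X (iter σ k) = X σ := by
  have hlang : lang (iter σ k) = lang σ := by
    ext w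
    constructor
    · rintro ⟨n, hn, a, hw⟩
      rw [iter_iter] at hw
      exact ⟨k * n, Nat.mul_pos hk hn, a, hw⟩
    · rintro ⟨n, hn, a, hw⟩
      obtain ⟨p, hp, hprim⟩ := primitive P
      -- choose `j ≥ p` with `n + j` a multiple of `k`
      obtain ⟨j, hj, q, hq⟩ : ∃ j, p ≤ j ∧ ∃ q, n + j = k * q := by
        refine ⟨k * (n + p) - n, ?_, n + p, ?_⟩
        · have : n + p ≤ k * (n + p) := Nat.le_mul_of_pos_left _ hk
          omega
        · have : n ≤ k * (n + p) :=
            le_trans (Nat.le_add_right n p) (Nat.le_mul_of_pos_left _ hk)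
          omega
      refine ⟨q, ?_, a, ?_⟩
      · rcases Nat.eq_zero_or_pos q with h | h
        · rw [h] at hq; omega
        · exact h
      · rw [iter_iter, ← hq, iter_add]
        obtain ⟨s, t, hst⟩ := List.append_of_mem (hprim j hj a a)
        rw [hst, ext_append, ext_cons]
        refine hw.trans ⟨ext (iter σ n) s, ext (iter σ n) t, by simp⟩
  unfold X
  rw [hlang]

theorem semi_iter_iff {σ : Fin d → List (Fin d)} (P : PD (inc σ)) (k : ℕ) (hk : 1 ≤ k) :
    SemiConjToral (iter σ k) ↔ SemiConjToral σ := by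
  unfold SemiConjToral
  rw [X_iter P k hk]

theorem inc_nonneg (σ : Fin d → List (Fin d)) (i j : Fin d) : 0 ≤ inc σ i j := by
  unfold inc
  positivity

/-- a substitution with a semi-conjugacy has powers with all coincidences -/
theorem hit_iter {σ : Fin d → List (Fin d)} (P : PD (inc σ)) (hS : SemiConjToral σ) (D : ℝ) :
    ∃ n₀ : ℕ, ∀ n ≥ n₀, P.Hit (iter σ n) D := by
  obtain ⟨δ, hδ, h⟩ := maj_hit P (inc_nonneg σ) D
  obtain ⟨n₀, hn₀⟩ := h σ rfl hS (1 / 2) (by norm_num)
  refine ⟨n₀, fun n hn => hn₀ n hn _ (inc_iter σ n) ?_⟩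
  intro a p J hJ _
  have h1 : (Finset.range J).filter
      (fun r => SameAt 0 (iter σ n a) (iter σ n a) (p + r) (p + r)) = Finset.range J := by
    refine Finset.filter_true_of_mem fun r _ => ⟨by simp, rfl⟩
  rw [h1, Finset.card_range]
  linarith

end Pool.Agent.Q132.PC
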