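import Pool.Agent.Q132.PC.Rel
import Pool.Agent.Q132.PC.Cnt

/-!
Zero-one law and regular language for compositions of substitutions with commuting matrices.
-/

set_option autoImplicit false

namespace Pool.Agent.Q132.PC
open Pool.Agent.H812R2.PI Pool.Agent.TH100.Pisot
open Filter Topology
open scoped BigOperators Classical
variable {d : ℕ}

/-- common data of the family -/
theorem family {m r : ℕ} (τ : Fin r → Fin (m+1) → List (Fin (m+1)))
    (hτ : ∀ i, PisotMat (inc (τ i)))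
    (hc : ∀ i j, inc (τ i) * inc (τ j) = inc (τ j) * inc (τ i)) (i₀ : Fin r) :
    ∃ (Q : Com (m+1)) (r₀ B : ℝ), 0 ≤ r₀ ∧ r₀ < 1 ∧ 0 ≤ B ∧ ∀ i, FacQ Q r₀ B (τ i) := by
  obtain ⟨Q, -, hQ⟩ := exists_com (inc (τ i₀)) (inc_nonneg _) (hτ i₀)
    (List.ofFn fun i => inc (τ i)) (by
      intro A hA
      obtain ⟨i, rfl⟩ := (List.mem_ofFn' _ _).1 hA
      refine ⟨inc_nonneg _, hτ i, hc i i₀, fun B hB => ?_⟩
      obtain ⟨j, rfl⟩ := (List.mem_ofFn' _ _).1 hB
      exact hc i j)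
  have hQ' : ∀ i, ∃ lam rho, Q.Adm (inc (τ i)) lam rho := fun i =>
    hQ _ ((List.mem_ofFn' _ _).2 ⟨i, rfl⟩)
  choose lam rho hadm using hQ'
  have hne : (Finset.univ : Finset (Fin r)).Nonempty := ⟨i₀, Finset.mem_univ _⟩
  obtain ⟨B, hB⟩ : ∃ B : ℝ, B = ∑ i, ∑ a, ∑ k ∈ Finset.range ((τ i a).length + 1),
    Q.N (rv (ab ((τ i a).take k))) := ⟨_, rfl⟩
  have h0 : ∀ i a, 0 ≤ ∑ k ∈ Finset.range ((τ i a).length + 1),
      Q.N (rv (ab ((τ i a).take k))) := fun i a => Finset.sum_nonneg fun k _ => Q.N_nonneg _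
  have h1 : ∀ i a, ∑ k ∈ Finset.range ((τ i a).length + 1),
      Q.N (rv (ab ((τ i a).take k))) ≤ B := by
    intro i a
    rw [hB]
    refine le_trans (Finset.single_le_sum (f := fun a =>
      ∑ k ∈ Finset.range ((τ i a).length + 1), Q.N (rv (ab ((τ i a).take k))))
      (fun a _ => h0 i a) (Finset.mem_univ a)) ?_
    exact Finset.single_le_sum (f := fun i => ∑ a, ∑ k ∈ Finset.range ((τ i a).length + 1),
      Q.N (rv (ab ((τ i a).take k))))
      (fun i _ => Finset.sum_nonneg fun a _ => h0 i a) (Finset.mem_univ i)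
  refine ⟨Q, Finset.univ.sup' hne rho, B, ?_, ?_, (h0 i₀ 0).trans (h1 i₀ 0), fun i => ?_⟩
  · exact (hadm i₀).rho_nonneg.trans (Finset.le_sup' rho (Finset.mem_univ i₀))
  · rw [Finset.sup'_lt_iff]
    exact fun i _ => (hadm i).rho_lt
  · refine ⟨⟨lam i, rho i, hadm i, Finset.le_sup' rho (Finset.mem_univ i)⟩, fun a k => ?_, ?_⟩
    · have h2 : (τ i a).take k = (τ i a).take (min k (τ i a).length) := by
        rcases le_total k (τ i a).length with h | h
        · rw [min_eq_left h]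
        · rw [min_eq_right h, List.take_of_length_le h, List.take_length]
      rw [h2]
      refine le_trans (Finset.single_le_sum (f := fun k => Q.N (rv (ab ((τ i a).take k))))
        (fun k _ => Q.N_nonneg _) (Finset.mem_range.2 ?_)) (h1 i a)
      have := min_le_right k (τ i a).length
      omega
    · rcases (hτ i).2.1 with h | h <;> rw [h] <;> simp

/-- the main statement for a family with common data -/
theorem structure_theorem {m r : ℕ} (τ : Fin r → Fin (m+1) → List (Fin (m+1)))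
    (hτ : ∀ i, PisotMat (inc (τ i)))
    (hc : ∀ i j, inc (τ i) * inc (τ j) = inc (τ j) * inc (τ i)) (i₀ : Fin r) :
    (∀ w : List (Fin r), w ≠ [] → PisotMat (inc (cw τ w))) ∧
    (∃ K : ℕ, 1 ≤ K ∧ ∀ w : List (Fin r), w ≠ [] → SemiConjToral (cw τ w) →
      ∀ l₁ l₂ : List (Fin r), SemiConjToral (cw τ (l₁ ++ wp w K ++ l₂))) ∧
    (∀ w : List (Fin r), w ≠ [] → ∀ k, 1 ≤ k →
      (SemiConjToral (cw τ (wp w k)) ↔ SemiConjToral (cw τ w))) ∧
    Language.IsRegular ({w : List (Fin r) | w ≠ [] ∧ ¬ SemiConjToral (cw τ w)} :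
      Language (Fin r)) := by
  obtain ⟨Q, r₀, B, hr0, hr1, hB0, hF⟩ := family τ hτ hc i₀
  obtain ⟨lam₀, rho₀, h₀, -⟩ := (hF i₀).adm
  obtain ⟨D, hD0, hD, n₁, hsemi⟩ := fam_semi Q h₀ r₀ B hB0 hr0 hr1
  have hpow : ∀ w : List (Fin r), w ≠ [] → ∀ k, 1 ≤ k →
      (SemiConjToral (cw τ (wp w k)) ↔ SemiConjToral (cw τ w)) := by
    intro w hw k hk
    obtain ⟨lam, rho, hadm⟩ := cw_adm Q r₀ B hr0 τ hF w hw
    rw [cw_wp]
    exact semi_iter_iff (Q.toPD hadm) k hk
  have hwpne : ∀ w : List (Fin r), w ≠ [] → ∀ k, k ≤ (wp w k).length := by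
    intro w hw k
    rw [wp_length]
    exact Nat.le_mul_of_pos_right _ (List.length_pos_of_ne_nil hw)
  have hgood : ∀ w : List (Fin r), w ≠ [] →
      (SemiConjToral (cw τ w) ↔ ∃ k, 1 ≤ k ∧ (Q.toPD h₀).Hit (cw τ (wp w k)) D) := by
    intro w hw
    constructor
    · intro hS
      obtain ⟨lam, rho, hadm⟩ := cw_adm Q r₀ B hr0 τ hF w hw
      obtain ⟨n₀, hn₀⟩ := hit_iter (Q.toPD hadm) hS D
      refine ⟨max n₀ 1, le_max_right _ _, ?_⟩
      rw [cw_wp]
      exact hn₀ _ (le_max_left _ _)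
    · rintro ⟨k, hk, hhit⟩
      rw [← hpow w hw (k + n₁) (by omega)]
      have h1 : (Q.toPD h₀).Hit (cw τ (wp w (k + n₁))) D := by
        have h2 := fam_hit_extend Q h₀ r₀ B D hD0 hD [] ((wp w k).map τ) ((wp w n₁).map τ)
          (by simp) (fam_mem hF _) hhit
        rw [List.nil_append, ← List.map_append, ← wp_add] at h2
        exact h2
      refine hsemi _ ?_ (fam_mem hF _) ?_ h1
      · intro h
        have h3 := hwpne w hw (k + n₁)
        rw [List.map_eq_nil_iff] at h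
        rw [h, List.length_nil] at h3
        omega
      · rw [List.length_map]
        have h3 := hwpne w hw (k + n₁)
        omega
  -- a uniform exponent
  have hunif : ∃ K : ℕ, ∀ w : List (Fin r), w ≠ [] → SemiConjToral (cw τ w) →
      ∃ k ≤ K, (Q.toPD h₀).Hit (cw τ (wp w k)) D := by
    have h1 : ∀ R : Prs (Q.toPD h₀) D → Prs (Q.toPD h₀) D → Prop, ∃ k : ℕ,
        ∀ w : List (Fin r), w ≠ [] → RW Q h₀ D τ w = R → SemiConjToral (cw τ w) →
          (Q.toPD h₀).Hit (cw τ (wp w k)) D := by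
      intro R
      by_cases h : ∃ w₀ : List (Fin r), w₀ ≠ [] ∧ RW Q h₀ D τ w₀ = R ∧ SemiConjToral (cw τ w₀)
      · obtain ⟨w₀, hw₀, hR₀, hS₀⟩ := h
        obtain ⟨k, hk, hhit⟩ := (hgood w₀ hw₀).1 hS₀
        refine ⟨k, fun w hw hR hS => ?_⟩
        exact (hit_congr Q h₀ r₀ B D hD0 hD τ hF
          (RW_wp_congr Q h₀ r₀ B D hr0 hD0 hD τ hF (hR₀.trans hR.symm) k)).1 hhit
      · exact ⟨0, fun w hw hR hS => absurd ⟨w, hw, hR, hS⟩ h⟩
    choose f hf using h1
    haveI := finite_relations Q h₀ D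
    obtain ⟨K, hK⟩ := (Set.finite_range f).bddAbove
    refine ⟨K, fun w hw hS => ⟨f (RW Q h₀ D τ w), hK ⟨_, rfl⟩, hf _ w hw rfl hS⟩⟩
  refine ⟨?_, ?_, hpow, ?_⟩
  · intro w hw
    obtain ⟨lam, rho, hadm⟩ := cw_adm Q r₀ B hr0 τ hF w hw
    refine pisot_of_PD (Q.toPD hadm) ?_
    exact Int.isUnit_iff.1 (fam_det Q r₀ B (w.map τ) (fam_mem hF w))
  · obtain ⟨K, hK⟩ := hunif
    refine ⟨K + n₁ + 1, by omega, fun w hw hS l₁ l₂ => ?_⟩
    obtain ⟨k, hk, hhit⟩ := hK w hw hS
    have h1 : wp w (K + n₁ + 1) = wp w k ++ wp w (K + n₁ + 1 - k) := by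
      rw [← wp_add]
      congr 1
      omega
    have h2 : l₁ ++ wp w (K + n₁ + 1) ++ l₂ =
        l₁ ++ wp w k ++ (wp w (K + n₁ + 1 - k) ++ l₂) := by
      rw [h1]; simp [List.append_assoc]
    have h3 := hwpne w hw (K + n₁ + 1)
    have h4 : K + n₁ + 1 ≤ (l₁ ++ wp w (K + n₁ + 1) ++ l₂).length := by
      rw [List.length_append, List.length_append]
      omega
    refine hsemi _ ?_ (fam_mem hF _) ?_ ?_
    · intro h
      rw [List.map_eq_nil_iff] at h
      rw [h, List.length_nil] at h4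
      omega
    · rw [List.length_map]; omega
    · rw [h2, List.map_append, List.map_append]
      exact fam_hit_extend Q h₀ r₀ B D hD0 hD _ _ _ (fam_mem hF _) (fam_mem hF _) hhit
  · apply Language.IsRegular.of_finite_range_leftQuotient
    haveI := finite_relations Q h₀ D
    obtain ⟨L, hL⟩ : ∃ L : Language (Fin r),
      L = {w : List (Fin r) | w ≠ [] ∧ ¬ SemiConjToral (cw τ w)} := ⟨_, rfl⟩
    rw [← hL]
    have hLmem : ∀ w, w ∈ L ↔ (w ≠ [] ∧ ¬ SemiConjToral (cw τ w)) := by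
      intro w; rw [hL]; rfl
    obtain ⟨key, hkey⟩ : ∃ key : List (Fin r) →
      (Prs (Q.toPD h₀) D → Prs (Q.toPD h₀) D → Prop) × Prop,
      key = fun x => (RW Q h₀ D τ x, x = []) := ⟨_, rfl⟩
    have hfac : Function.FactorsThrough L.leftQuotient key := by
      intro x x' hxx
      rw [hkey] at hxx
      simp only [Prod.mk.injEq, eq_iff_iff] at hxx
      obtain ⟨hR, hnil⟩ := hxx
      ext y
      rw [Language.mem_leftQuotient, Language.mem_leftQuotient, hLmem, hLmem]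
      have h1 : (x ++ y ≠ []) ↔ (x' ++ y ≠ []) := by
        simp only [ne_eq, List.append_eq_nil_iff, hnil]
      rw [← h1]
      refine and_congr_right fun hne => not_congr ?_
      rw [hgood _ hne, hgood _ (h1.1 hne)]
      refine exists_congr fun k => and_congr_right fun _ => ?_
      exact hit_congr Q h₀ r₀ B D hD0 hD τ hF (RW_wp_congr Q h₀ r₀ B D hr0 hD0 hD τ hF
        (RW_append_congr Q h₀ r₀ B D hr0 hD0 hD τ hF hR rfl) k)
    have h2 := hfac.extend_comp (e' := fun _ => (0 : Language (Fin r)))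
    rw [← h2]
    exact (Set.finite_range _).subset (Set.range_comp_subset_range _ _)

end Pool.Agent.Q132.PC
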